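import Pool.Agent.Lib.MP_627f83_co.Defs

/-!
# ConnA: basic facts on connected sets of cells

Pure combinatorics of the definition `TriSphere.Conn` (cut definition).
* `conn_union`: let `S` be a nonempty proper subset of `A ∪ B`. If `S ∩ A` is nonempty and `≠ A` use `hA`,
  the same for `B`. Otherwise `S ∩ A` is `∅` or `A` and `S ∩ B` is `∅` or `B`; as `S` is nonempty and
  proper, one of `A, B` is inside `S` and the other one is disjoint from `S`; then the common cell is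
  impossible, and the adjacent pair of `h` is the pair that is needed (use `adj_symm` if necessary).
* `exists_boundary`: apply the definition to `A ∩ B`.
* `conn_biUnion`: induction or directly as in `conn_union`: if some `S ∩ A i` is nonempty and proper use
  `hA i`; otherwise every `A i` is inside `S` or disjoint from `S`, take one of each kind and use `h`.
* `conn_star`: the same with a centre.
-/

namespace Pool.MP627f83

open Finset
open scoped Classical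

variable {C : Type} [Fintype C] [DecidableEq C] (Z : TriSphere C)

theorem adj_symm {a b : C} (h : Z.Adj a b) : Z.Adj b a := by
  obtain ⟨h1, t, ht, ha, hb⟩ := h
  exact ⟨h1.symm, t, ht, hb, ha⟩

theorem adj_comm {a b : C} : Z.Adj a b ↔ Z.Adj b a := ⟨adj_symm Z, adj_symm Z⟩

theorem adjs_symm {A B : Finset C} (h : Z.Adjs A B) : Z.Adjs B A := by
  obtain ⟨a, ha, b, hb, hab⟩ := h
  exact ⟨b, hb, a, ha, adj_symm Z hab⟩

theorem adjs_mono {A B A' B' : Finset C} (hA : A ⊆ A') (hB : B ⊆ B') (h : Z.Adjs A B) :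
    Z.Adjs A' B' := by
  obtain ⟨a, ha, b, hb, hab⟩ := h
  exact ⟨a, hA ha, b, hB hb, hab⟩

theorem conn_singleton (a : C) : Z.Conn {a} := by
  refine ⟨singleton_nonempty a, fun B hB hne hB' => ?_⟩
  rcases subset_singleton_iff.1 hB with h | h
  · exact absurd h hne.ne_empty
  · exact absurd h hB'

theorem ConnA_cases {A : Finset C} (hA : Z.Conn A) (S : Finset C) :
    (∀ a ∈ A, a ∉ S) ∨ A ⊆ S ∨ ∃ a ∈ A, a ∈ S ∧ ∃ b ∈ A, b ∉ S ∧ Z.Adj a b := by
  by_cases h1 : (A ∩ S).Nonempty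
  · by_cases h2 : A ∩ S = A
    · exact Or.inr (Or.inl (inter_eq_left.1 h2))
    · obtain ⟨a, ha, b, hb, hbS, hab⟩ := hA.2 (A ∩ S) inter_subset_left h1 h2
      exact Or.inr (Or.inr ⟨a, (mem_inter.1 ha).1, (mem_inter.1 ha).2, b, hb,
        fun h => hbS (mem_inter.2 ⟨hb, h⟩), hab⟩)
  · exact Or.inl fun a ha haS => h1 ⟨a, mem_inter.2 ⟨ha, haS⟩⟩

theorem ConnA_of {A : Finset C} (hne : A.Nonempty)
    (h : ∀ S : Finset C, (∃ a ∈ A, a ∈ S) → (∃ b ∈ A, b ∉ S) →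
      ∃ a ∈ A, a ∈ S ∧ ∃ b ∈ A, b ∉ S ∧ Z.Adj a b) : Z.Conn A := by
  refine ⟨hne, fun B hB hBne hBA => ?_⟩
  obtain ⟨x, hx⟩ := hBne
  have hnot : ∃ b ∈ A, b ∉ B := by
    by_contra hcon
    push Not at hcon
    exact hBA (Subset.antisymm hB fun b hb => hcon b hb)
  obtain ⟨a, -, haB, b, hb, hbB, hab⟩ := h B ⟨x, hB hx, hx⟩ hnot
  exact ⟨a, haB, b, hb, hbB, hab⟩

theorem conn_star {β : Type} (s : Finset β) (Y : Finset C) (hY : Z.Conn Y) (A : β → Finset C)
    (hA : ∀ i ∈ s, Z.Conn (A i)) (h : ∀ i ∈ s, (∃ c ∈ A i, c ∈ Y) ∨ Z.Adjs (A i) Y) :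
    Z.Conn (Y ∪ s.biUnion A) := by
  have hYs : Y ⊆ Y ∪ s.biUnion A := subset_union_left
  have hAs : ∀ i ∈ s, A i ⊆ Y ∪ s.biUnion A := fun i hi =>
    (subset_biUnion_of_mem A hi).trans subset_union_right
  refine ConnA_of Z (hY.1.mono hYs) fun S hS hS' => ?_
  have key : ∀ D : Finset C, D ⊆ Y ∪ s.biUnion A → Z.Conn D →
      (∀ a ∈ D, a ∉ S) ∨ D ⊆ S ∨ ∃ a ∈ Y ∪ s.biUnion A, a ∈ S ∧
        ∃ b ∈ Y ∪ s.biUnion A, b ∉ S ∧ Z.Adj a b := by
    intro D hD hDc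
    rcases ConnA_cases Z hDc S with h1 | h1 | ⟨a, ha, haS, b, hb, hbS, hab⟩
    · exact Or.inl h1
    · exact Or.inr (Or.inl h1)
    · exact Or.inr (Or.inr ⟨a, hD ha, haS, b, hD hb, hbS, hab⟩)
  rcases key Y hYs hY with hY1 | hY1 | hY1
  · -- `Y` is outside `S`
    obtain ⟨x, hx, hxS⟩ := hS
    rcases mem_union.1 hx with hx | hx
    · exact absurd hxS (hY1 x hx)
    obtain ⟨i, hi, hxi⟩ := mem_biUnion.1 hx
    rcases key (A i) (hAs i hi) (hA i hi) with h1 | h1 | h1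
    · exact absurd hxS (h1 x hxi)
    · rcases h i hi with ⟨c, hc, hcY⟩ | ⟨a, ha, b, hb, hab⟩
      · exact absurd (h1 hc) (hY1 c hcY)
      · exact ⟨a, hAs i hi ha, h1 ha, b, hYs hb, hY1 b hb, hab⟩
    · exact h1
  · -- `Y` is inside `S`
    obtain ⟨x, hx, hxS⟩ := hS'
    rcases mem_union.1 hx with hx | hx
    · exact absurd (hY1 hx) hxS
    obtain ⟨i, hi, hxi⟩ := mem_biUnion.1 hx
    rcases key (A i) (hAs i hi) (hA i hi) with h1 | h1 | h1
    · rcases h i hi with ⟨c, hc, hcY⟩ | ⟨a, ha, b, hb, hab⟩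
      · exact absurd (hY1 hcY) (h1 c hc)
      · exact ⟨b, hYs hb, hY1 hb, a, hAs i hi ha, h1 a ha, adj_symm Z hab⟩
    · exact absurd (h1 hxi) hxS
    · exact h1
  · exact hY1

theorem conn_union {A B : Finset C} (hA : Z.Conn A) (hB : Z.Conn B)
    (h : (∃ c ∈ A, c ∈ B) ∨ Z.Adjs A B) : Z.Conn (A ∪ B) := by
  have h1 := conn_star Z ({()} : Finset Unit) A hA (fun _ => B) (fun _ _ => hB) (fun _ _ => by
    rcases h with ⟨c, hc, hc'⟩ | h
    · exact Or.inl ⟨c, hc', hc⟩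
    · exact Or.inr (adjs_symm Z h))
  simpa using h1

theorem exists_boundary {A B : Finset C} (hA : Z.Conn A) (hAB : ∃ a ∈ A, a ∈ B) (hne : ¬ A ⊆ B) :
    ∃ a ∈ A, a ∈ B ∧ ∃ b ∈ A, b ∉ B ∧ Z.Adj a b := by
  rcases ConnA_cases Z hA B with h | h | h
  · obtain ⟨a, ha, haB⟩ := hAB
    exact absurd haB (h a ha)
  · exact absurd h hne
  · exact h

theorem conn_biUnion {β : Type} (s : Finset β) (hs : s.Nonempty) (A : β → Finset C)
    (hA : ∀ i ∈ s, Z.Conn (A i))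
    (h : ∀ i ∈ s, ∀ j ∈ s, i ≠ j → (∃ c ∈ A i, c ∈ A j) ∨ Z.Adjs (A i) (A j)) :
    Z.Conn (s.biUnion A) := by
  obtain ⟨i, hi⟩ := hs
  have h1 := conn_star Z s (A i) (hA i hi) A hA (fun j hj => by
    by_cases hij : j = i
    · subst hij
      obtain ⟨c, hc⟩ := (hA j hj).1
      exact Or.inl ⟨c, hc, hc⟩
    · exact h j hj i hi hij)
  rwa [union_eq_right.2 (subset_biUnion_of_mem A hi)] at h1

end Pool.MP627f83
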