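import Pool.Agent.Lib.MP_627f83_co.Defs
import Pool.Agent.Lib.MP_627f83_co.ConnA

/-!
# ConnB: components of sets of cells

`Z.comp A c` is the set of `x` in `A` such that a connected subset of `A` contains `c` and `x`.
* `comp_conn`: `comp A c` is the union of the connected subsets of `A` that contain `c` (nonempty because of
  `{c}`): `conn_biUnion` over `A.powerset.filter (fun B => c ∈ B ∧ Z.Conn B)` (they share `c`).
* `comp_max`: union with a connected set is connected (`conn_union`).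
* `comp_adj`: the union of the witness with `{y}`.
* `comp_exit`: `exists_boundary` for `D` and the component; the cell outside the component that is
  adjacent to it is in `D`, hence not in `Om` by `comp_adj`.
-/

namespace Pool.MP627f83

open Finset
open scoped Classical

variable {C : Type} [Fintype C] [DecidableEq C] (Z : TriSphere C)

theorem mem_comp_self {A : Finset C} {c : C} (hc : c ∈ A) : c ∈ Z.comp A c := by
  unfold TriSphere.comp
  rw [mem_filter]
  exact ⟨hc, {c}, by simpa using hc, by simp, by simp, conn_singleton Z c⟩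

theorem comp_subset (A : Finset C) (c : C) : Z.comp A c ⊆ A := filter_subset _ _

theorem comp_conn {A : Finset C} {c : C} (hc : c ∈ A) : Z.Conn (Z.comp A c) := by
  have h : Z.comp A c = (A.powerset.filter (fun B => c ∈ B ∧ Z.Conn B)).biUnion id := by
    ext x
    simp only [TriSphere.comp, mem_filter, mem_biUnion, mem_powerset, id]
    constructor
    · rintro ⟨hx, B, hB, hc, hxB, hconn⟩
      exact ⟨B, ⟨hB, hc, hconn⟩, hxB⟩
    · rintro ⟨B, ⟨hB, hc, hconn⟩, hxB⟩
      exact ⟨hB hxB, B, hB, hc, hxB, hconn⟩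
  rw [h]
  apply conn_biUnion Z
  · refine ⟨{c}, ?_⟩
    rw [mem_filter, mem_powerset]
    exact ⟨by simpa using hc, by simp, conn_singleton Z c⟩
  · intro B hB
    exact (mem_filter.1 hB).2.2
  · intro B hB B' hB' _
    left
    exact ⟨c, (mem_filter.1 hB).2.1, (mem_filter.1 hB').2.1⟩

theorem mem_of_mem_comp {A : Finset C} {c x : C} (hx : x ∈ Z.comp A c) : c ∈ A := by
  unfold TriSphere.comp at hx
  rw [mem_filter] at hx
  obtain ⟨_, B, hB, hc, _⟩ := hx
  exact hB hc

theorem comp_max {A B : Finset C} {c x : C} (hB : Z.Conn B) (hBA : B ⊆ A) (hxB : x ∈ B)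
    (hx : x ∈ Z.comp A c) : B ⊆ Z.comp A c := by
  intro y hy
  have hx' := hx
  unfold TriSphere.comp at hx ⊢
  rw [mem_filter] at hx ⊢
  obtain ⟨_, D, hD, hcD, hxD, hDc⟩ := hx
  refine ⟨hBA hy, D ∪ B, union_subset hD hBA, mem_union_left _ hcD, mem_union_right _ hy, ?_⟩
  exact conn_union Z hDc hB (Or.inl ⟨x, hxD, hxB⟩)

theorem comp_adj {A : Finset C} {c x y : C} (hx : x ∈ Z.comp A c) (hy : y ∈ A)
    (h : Z.Adj x y) : y ∈ Z.comp A c := by
  unfold TriSphere.comp at hx ⊢
  rw [mem_filter] at hx ⊢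
  obtain ⟨_, D, hD, hcD, hxD, hDc⟩ := hx
  refine ⟨hy, D ∪ {y}, union_subset hD (by simpa using hy), mem_union_left _ hcD,
    mem_union_right _ (by simp), ?_⟩
  exact conn_union Z hDc (conn_singleton Z y) (Or.inr ⟨x, hxD, y, by simp, h⟩)

theorem comp_eq {A : Finset C} {c x : C} (hx : x ∈ Z.comp A c) : Z.comp A x = Z.comp A c := by
  have hc : c ∈ A := mem_of_mem_comp Z hx
  have hxA : x ∈ A := comp_subset Z A c hx
  apply Subset.antisymm
  · exact comp_max Z (comp_conn Z hxA) (comp_subset Z A x) (mem_comp_self Z hxA) hx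
  · have hcx : c ∈ Z.comp A x := by
      have hx2 := hx
      unfold TriSphere.comp at hx2 ⊢
      rw [mem_filter] at hx2 ⊢
      obtain ⟨_, D, hD, hcD, hxD, hDc⟩ := hx2
      exact ⟨hc, D, hD, hxD, hcD, hDc⟩
    exact comp_max Z (comp_conn Z hc) (comp_subset Z A c) (mem_comp_self Z hc) hcx

theorem comp_exit {D Om : Finset C} {a : C} (hD : Z.Conn D) (haD : a ∈ D) (haO : a ∈ Om)
    (hne : ¬ D ⊆ Om) :
    ∃ c ∈ Z.comp (D ∩ Om) a, ∃ d ∈ D, d ∉ Om ∧ Z.Adj c d := by
  have ha : a ∈ D ∩ Om := mem_inter.2 ⟨haD, haO⟩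
  have hsub := comp_subset Z (D ∩ Om) a
  obtain ⟨c, hcD, hc, d, hdD, hd, hadj⟩ := exists_boundary Z (A := D) (B := Z.comp (D ∩ Om) a) hD
    ⟨a, haD, mem_comp_self Z ha⟩ (fun h => hne (fun y hy => (mem_inter.1 (hsub (h hy))).2))
  refine ⟨c, hc, d, hdD, ?_, hadj⟩
  intro hdO
  exact hd (comp_adj Z hc (mem_inter.2 ⟨hdD, hdO⟩) hadj)

end Pool.MP627f83
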