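import Pool.Agent.Lib.MP_627f83_co.Defs
import Pool.Agent.Lib.MP_627f83_co.ConnA
import Pool.Agent.Lib.MP_627f83_co.ConnB

/-!
# ConnC: complement of a component of Om minus Y

Let `U` be the component of `c` in `Om \ Y`. `U ≠ Om` since `Y` is nonempty, so (`exists_boundary` for `Om`
and `U`) `U` is adjacent to a cell of `Om` outside `U`, which is in `Y` by `comp_adj`. The same holds for
every component of `Om \ Y`. `Om \ U` is the union of `Y` and the other components: `conn_star` with centre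
`Y` and the family `fun x => comp (Om \ Y) x` over `x ∈ (Om \ Y) \ U` (all inside `Om \ U` by `comp_eq`).
-/

namespace Pool.MP627f83

open Finset
open scoped Classical

variable {C : Type} [Fintype C] [DecidableEq C] (Z : TriSphere C)

theorem compl_comp {Om Y : Finset C} (hO : Z.Conn Om) (hY : Y ⊆ Om) (hYc : Z.Conn Y) {c : C}
    (hc : c ∈ Om \ Y) :
    Z.Conn (Om \ Z.comp (Om \ Y) c) ∧ Z.Adjs (Z.comp (Om \ Y) c) Y ∧
      (∀ x ∈ Z.comp (Om \ Y) c, ∀ y ∈ Om, y ∉ Z.comp (Om \ Y) c → Z.Adj x y → y ∈ Y) ∧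
      Y ⊆ Om \ Z.comp (Om \ Y) c := by
  have key : ∀ z, z ∈ Om \ Y → ∀ x ∈ Z.comp (Om \ Y) z, ∀ y ∈ Om, y ∉ Z.comp (Om \ Y) z →
      Z.Adj x y → y ∈ Y := by
    intro z hz x hx y hyO hy hadj
    by_contra hyY
    exact hy (comp_adj Z hx (mem_sdiff.2 ⟨hyO, hyY⟩) hadj)
  have hadj : ∀ z, z ∈ Om \ Y → Z.Adjs (Z.comp (Om \ Y) z) Y := by
    intro z hz
    obtain ⟨y0, hy0⟩ := hYc.1
    have hzc := mem_comp_self Z hz
    obtain ⟨a, haO, ha, b, hbO, hb, hab⟩ := exists_boundary Z (A := Om)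
      (B := Z.comp (Om \ Y) z) hO ⟨z, (mem_sdiff.1 hz).1, hzc⟩
      (fun h => (mem_sdiff.1 (comp_subset Z (Om \ Y) z (h (hY hy0)))).2 hy0)
    exact ⟨a, ha, b, key z hz a ha b hbO hb hab, hab⟩
  have hYU : Y ⊆ Om \ Z.comp (Om \ Y) c := by
    intro y hy
    exact mem_sdiff.2 ⟨hY hy, fun h => (mem_sdiff.1 (comp_subset Z (Om \ Y) c h)).2 hy⟩
  refine ⟨?_, hadj c hc, key c hc, hYU⟩
  have heq : Om \ Z.comp (Om \ Y) c =
      Y ∪ ((Om \ Y) \ Z.comp (Om \ Y) c).biUnion (fun x => Z.comp (Om \ Y) x) := by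
    ext y
    rw [mem_sdiff, mem_union, mem_biUnion]
    constructor
    · rintro ⟨hyO, hy⟩
      by_cases hyY : y ∈ Y
      · exact Or.inl hyY
      · right
        have hyA : y ∈ Om \ Y := mem_sdiff.2 ⟨hyO, hyY⟩
        exact ⟨y, mem_sdiff.2 ⟨hyA, hy⟩, mem_comp_self Z hyA⟩
    · rintro (hyY | ⟨x, hx, hyx⟩)
      · exact mem_sdiff.1 (hYU hyY)
      · have hyA := comp_subset Z (Om \ Y) x hyx
        refine ⟨(mem_sdiff.1 hyA).1, ?_⟩
        intro hyc
        have h1 := comp_eq Z hyx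
        have h2 := comp_eq Z hyc
        have hxx : x ∈ Z.comp (Om \ Y) x := mem_comp_self Z (mem_sdiff.1 hx).1
        rw [← h1, h2] at hxx
        exact (mem_sdiff.1 hx).2 hxx
  rw [heq]
  apply conn_star Z _ Y hYc
  · intro x hx
    exact comp_conn Z (mem_sdiff.1 hx).1
  · intro x hx
    exact Or.inr (hadj x (mem_sdiff.1 hx).1)

end Pool.MP627f83
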