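import Pool.Agent.Lib.MP_627f83_co.Defs
import Pool.Agent.Lib.MP_627f83_co.ConnA

/-!
# TopB: double counting between two disjoint sets

For disjoint `A`, `B` let `x` be the number of pairs `(a,b)` in `A ×ˢ B` that are adjacent, `mixed` the number of
triangles inside `A ∪ B` that meet both, `tcount` the number of triangles that meet `A`, `B` and the
complement of `A ∪ B`.
* `two_mul_cross`: count pairs `(t,(a,b))` with `t ∈ tri`, `a ∈ t ∩ A`, `b ∈ t ∩ B`: by `Z.two` every adjacent
  pair is in 2 triangles; a triangle contributes `|t ∩ A| * |t ∩ B|`, which is `2` if it is mixed inside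
  `A ∪ B` (`1*2` or `2*1`), `1` if it meets also the complement, and `0` otherwise. (`card_tri`: 3 corners.)
* `e2_union`, `f_union`: split pairs / triangles.
-/

namespace Pool.MP627f83

open Finset
open scoped Classical

set_option linter.unusedSectionVars false

variable {C : Type} [Fintype C] [DecidableEq C] (Z : TriSphere C)

/-- number of adjacent pairs in `A × B` -/
noncomputable def crossN (A B : Finset C) : ℕ :=
  ((A ×ˢ B).filter (fun p : C × C => Z.Adj p.1 p.2)).card

/-- number of triangles inside `A ∪ B` that meet `A` and `B` -/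
noncomputable def mixedN (A B : Finset C) : ℕ :=
  (Z.tri.filter (fun t => t ⊆ A ∪ B ∧ (∃ a ∈ t, a ∈ A) ∧ ∃ b ∈ t, b ∈ B)).card

/-- number of triangles that meet `A`, `B` and the rest -/
noncomputable def tcount (A B : Finset C) : ℕ :=
  (Z.tri.filter (fun t => (∃ a ∈ t, a ∈ A) ∧ (∃ b ∈ t, b ∈ B) ∧ ∃ c ∈ t, c ∉ A ∧ c ∉ B)).card

theorem TopB_counts {A B : Finset C} (h : Disjoint A B) (t : Finset C) :
    (A.filter (· ∈ t)).card + (B.filter (· ∈ t)).card +
      (t.filter (fun c => c ∉ A ∧ c ∉ B)).card = t.card := by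
  have h1 : A.filter (· ∈ t) = t.filter (· ∈ A) := by
    ext x; simp only [mem_filter]; tauto
  have h2 : B.filter (· ∈ t) = t.filter (· ∈ B) := by
    ext x; simp only [mem_filter]; tauto
  rw [h1, h2, card_filter, card_filter, card_filter, ← sum_add_distrib, ← sum_add_distrib,
    card_eq_sum_ones]
  refine sum_congr rfl fun x _ => ?_
  have h3 : ¬ (x ∈ A ∧ x ∈ B) := fun h4 => disjoint_left.1 h h4.1 h4.2
  by_cases hA : x ∈ A <;> by_cases hB : x ∈ B <;> simp [hA, hB] at h3 ⊢

theorem TopB_meet (A t : Finset C) : (∃ a ∈ t, a ∈ A) ↔ (A.filter (· ∈ t)).card ≠ 0 := by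
  rw [Ne, card_eq_zero, ← Ne, ← nonempty_iff_ne_empty]
  constructor
  · rintro ⟨a, h1, h2⟩
    exact ⟨a, mem_filter.2 ⟨h2, h1⟩⟩
  · rintro ⟨a, h1⟩
    exact ⟨a, (mem_filter.1 h1).2, (mem_filter.1 h1).1⟩

theorem TopB_rest (A B t : Finset C) :
    (∃ c ∈ t, c ∉ A ∧ c ∉ B) ↔ (t.filter (fun c => c ∉ A ∧ c ∉ B)).card ≠ 0 := by
  rw [Ne, card_eq_zero, ← Ne, ← nonempty_iff_ne_empty]
  constructor
  · rintro ⟨a, h1, h2⟩
    exact ⟨a, mem_filter.2 ⟨h1, h2⟩⟩
  · rintro ⟨a, h1⟩
    exact ⟨a, (mem_filter.1 h1).1, (mem_filter.1 h1).2⟩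

theorem TopB_sub (A B t : Finset C) :
    t ⊆ A ∪ B ↔ (t.filter (fun c => c ∉ A ∧ c ∉ B)).card = 0 := by
  rw [← not_iff_not, ← Ne, ← TopB_rest]
  constructor
  · intro h1
    obtain ⟨c, h2, h3⟩ := not_subset.1 h1
    rw [mem_union, not_or] at h3
    exact ⟨c, h2, h3⟩
  · rintro ⟨c, h2, h3⟩ h4
    have h5 := h4 h2
    rw [mem_union] at h5
    tauto

theorem TopB_subA {A B t : Finset C} (h : Disjoint A B) :
    t ⊆ A ↔ (B.filter (· ∈ t)).card = 0 ∧ (t.filter (fun c => c ∉ A ∧ c ∉ B)).card = 0 := by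
  rw [← TopB_sub, ← not_iff_not (b := _ ∧ _), not_and_or, ← Ne, ← TopB_meet]
  constructor
  · intro h1
    obtain ⟨c, h2, h3⟩ := not_subset.1 h1
    by_cases h4 : c ∈ B
    · exact Or.inl ⟨c, h2, h4⟩
    · exact Or.inr fun h5 => by
        have h6 := h5 h2
        rw [mem_union] at h6
        tauto
  · rintro (⟨c, h2, h3⟩ | h1) h4
    · exact disjoint_left.1 h (h4 h2) h3
    · exact h1 (h4.trans subset_union_left)

theorem TopB_adj_comm (a b : C) : Z.Adj a b ↔ Z.Adj b a := by
  unfold TriSphere.Adj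
  constructor
  · rintro ⟨h1, t, h2, h3, h4⟩
    exact ⟨h1.symm, t, h2, h4, h3⟩
  · rintro ⟨h1, t, h2, h3, h4⟩
    exact ⟨h1.symm, t, h2, h4, h3⟩

theorem two_mul_cross {A B : Finset C} (h : Disjoint A B) :
    2 * crossN Z A B = 2 * mixedN Z A B + tcount Z A B := by
  have h1 : ∑ p ∈ A ×ˢ B, (Z.tri.filter (fun t => p.1 ∈ t ∧ p.2 ∈ t)).card =
      2 * crossN Z A B := by
    unfold crossN
    rw [card_filter, mul_sum]
    refine sum_congr rfl fun p hp => ?_
    have hne : p.1 ≠ p.2 := by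
      intro h2
      rw [mem_product] at hp
      exact disjoint_left.1 h hp.1 (h2 ▸ hp.2)
    split_ifs with h3
    · rw [Z.two p.1 p.2 hne h3.2, mul_one]
    · rw [mul_zero, card_eq_zero, filter_eq_empty_iff]
      intro t ht h4
      exact h3 ⟨hne, t, ht, h4⟩
  have h2 : ∑ p ∈ A ×ˢ B, (Z.tri.filter (fun t => p.1 ∈ t ∧ p.2 ∈ t)).card =
      ∑ t ∈ Z.tri, (A.filter (· ∈ t)).card * (B.filter (· ∈ t)).card := by
    have e1 : ∀ p ∈ A ×ˢ B, (Z.tri.filter (fun t => p.1 ∈ t ∧ p.2 ∈ t)).card =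
        ∑ t ∈ Z.tri, if p.1 ∈ t ∧ p.2 ∈ t then 1 else 0 := fun p _ => card_filter _ _
    rw [sum_congr rfl e1, sum_comm]
    refine sum_congr rfl fun t _ => ?_
    rw [← card_filter, ← card_product]
    congr 1
    ext p
    simp only [mem_filter, mem_product]
    tauto
  rw [← h1, h2]
  unfold mixedN tcount
  rw [card_filter, card_filter, mul_sum, ← sum_add_distrib]
  refine sum_congr rfl fun t ht => ?_
  have h3 := TopB_counts h t
  rw [Z.card_tri t ht] at h3
  simp only [TopB_meet A t, TopB_meet B t, TopB_rest A B t, TopB_sub A B t]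
  generalize (A.filter (· ∈ t)).card = x at h3 ⊢
  generalize (B.filter (· ∈ t)).card = y at h3 ⊢
  generalize (t.filter (fun c => c ∉ A ∧ c ∉ B)).card = z at h3 ⊢
  have hx : x ≤ 3 := by omega
  have hy : y ≤ 3 := by omega
  interval_cases x <;> interval_cases y <;>
    first
    | (exfalso; omega)
    | (have hz : z = 0 := by omega
       subst hz; simp)
    | (have hz : z = 1 := by omega
       subst hz; simp)
    | (have hz : z = 2 := by omega
       subst hz; simp)
    | (have hz : z = 3 := by omega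
       subst hz; simp)

theorem TopB_pairs (A B : Finset C) :
    ((A ×ˢ B).filter (fun p : C × C => Z.Adj p.1 p.2)).card =
      ∑ a ∈ A, ∑ b ∈ B, if Z.Adj a b then 1 else 0 := by
  rw [card_filter, sum_product]

theorem e2_union {A B : Finset C} (h : Disjoint A B) :
    Z.e2 (A ∪ B) = Z.e2 A + Z.e2 B + 2 * crossN Z A B := by
  unfold TriSphere.e2 crossN
  simp only [TopB_pairs]
  have h1 : ∑ a ∈ B, ∑ b ∈ A, (if Z.Adj a b then 1 else 0) =
      ∑ a ∈ A, ∑ b ∈ B, if Z.Adj a b then 1 else 0 := by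
    rw [sum_comm]
    refine sum_congr rfl fun a _ => sum_congr rfl fun b _ => ?_
    simp only [TopB_adj_comm Z b a]
  rw [sum_union h]
  simp only [sum_union h, sum_add_distrib]
  rw [h1]
  ring

theorem f_union {A B : Finset C} (h : Disjoint A B) :
    Z.f (A ∪ B) = Z.f A + Z.f B + mixedN Z A B := by
  unfold TriSphere.f mixedN
  rw [card_filter, card_filter, card_filter, card_filter, ← sum_add_distrib, ← sum_add_distrib]
  refine sum_congr rfl fun t ht => ?_
  have h3 := TopB_counts h t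
  rw [Z.card_tri t ht] at h3
  have hB : t ⊆ B ↔ (A.filter (· ∈ t)).card = 0 ∧
      (t.filter (fun c => c ∉ A ∧ c ∉ B)).card = 0 := by
    have h4 := TopB_subA (t := t) h.symm
    rw [h4]
    have h5 : (t.filter (fun c => c ∉ B ∧ c ∉ A)) = t.filter (fun c => c ∉ A ∧ c ∉ B) := by
      ext x; simp only [mem_filter]; tauto
    rw [h5]
  simp only [TopB_meet A t, TopB_meet B t, TopB_sub A B t, TopB_subA (t := t) h, hB]
  generalize (A.filter (· ∈ t)).card = x at h3 ⊢
  generalize (B.filter (· ∈ t)).card = y at h3 ⊢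
  generalize (t.filter (fun c => c ∉ A ∧ c ∉ B)).card = z at h3 ⊢
  have hx : x ≤ 3 := by omega
  have hy : y ≤ 3 := by omega
  interval_cases x <;> interval_cases y <;>
    first
    | (exfalso; omega)
    | (have hz : z = 0 := by omega
       subst hz; simp)
    | (have hz : z = 1 := by omega
       subst hz; simp)
    | (have hz : z = 2 := by omega
       subst hz; simp)
    | (have hz : z = 3 := by omega
       subst hz; simp)

end Pool.MP627f83
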