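import Pool.Agent.Lib.MP_627f83_co.Defs
import Pool.Agent.Lib.MP_627f83_co.ConnA

/-!
# TopA: Euler characteristic of a connected proper set is at most 1

`2 |A| + 2 f(A) ≤ e2(A) + 2`.
Proof. General statement by induction on the number of triangles in `T`: let `E` be a symmetric irreflexive
relation on `A` (a set of ordered pairs `E ⊆ A ×ˢ A`, symmetric, without diagonal) for which `A` is
connected (every proper nonempty subset `B` of `A` has `a ∈ B`, `b ∈ A \ B`, `(a,b) ∈ E`), and `T` a set of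
triangles of `Z` inside `A`, `T ≠ Z.tri`, all pairs of distinct corners of which are in `E`. Then
`2 |A| + 2 |T| ≤ |E| + 2`.
* `T = ∅`: a connected graph on `A` has at least `|A| - 1` edges
  (`SimpleGraph.Connected.card_vert_le_card_edgeSet_add_one` or a direct induction).
* `T ≠ ∅`: by `Z.bd` there is an edge `{a,b}` in exactly one triangle `t` of `T`. Remove `t` from `T` and
  `(a,b), (b,a)` from `E`. Connectivity is kept: if a cut `B` uses only the pair `a,b` then with `c` the third
  corner of `t` one of the pairs `a,c`, `b,c` (both in `E`) is also in the cut. The other triangles of `T` do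
  not contain both `a` and `b`.
Finally `T = {t ∈ tri : t ⊆ A}` is not all of `tri` because of `Z.cover` for a cell outside `A`, and
`E = ` all ordered adjacent pairs of `A`.
-/

namespace Pool.MP627f83

open Finset
open scoped Classical

variable {C : Type} [Fintype C] [DecidableEq C] (Z : TriSphere C)

omit [Fintype C] in
theorem TopA_base (A : Finset C) (E : Finset (C × C)) (hne : A.Nonempty)
    (hsym : ∀ x y, (x, y) ∈ E → (y, x) ∈ E)
    (hcon : ∀ B ⊆ A, B.Nonempty → B ≠ A → ∃ a ∈ B, ∃ b ∈ A, b ∉ B ∧ (a, b) ∈ E) :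
    2 * A.card ≤ E.card + 2 := by
  let fam := A.powerset.filter
    (fun B => B.Nonempty ∧ 2 * B.card ≤ (E.filter (fun p => p.1 ∈ B ∧ p.2 ∈ B)).card + 2)
  obtain ⟨a0, ha0⟩ := hne
  have hfam : fam.Nonempty := by
    refine ⟨{a0}, ?_⟩
    simp only [fam, mem_filter, mem_powerset, singleton_subset_iff]
    refine ⟨ha0, singleton_nonempty _, ?_⟩
    rw [card_singleton]; omega
  obtain ⟨B, hB, hmax⟩ := fam.exists_max_image Finset.card hfam
  simp only [fam, mem_filter, mem_powerset] at hB
  obtain ⟨hBA, hBne, hBc⟩ := hB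
  by_cases hBA' : B = A
  · subst hBA'
    have := Finset.card_le_card (Finset.filter_subset (fun p => p.1 ∈ B ∧ p.2 ∈ B) E)
    omega
  · exfalso
    obtain ⟨a, ha, b, hb, hbB, hab⟩ := hcon B hBA hBne hBA'
    have hne : a ≠ b := fun h => hbB (h ▸ ha)
    have h1 : insert b B ∈ fam := by
      simp only [fam, mem_filter, mem_powerset]
      refine ⟨insert_subset hb hBA, insert_nonempty _ _, ?_⟩
      rw [card_insert_of_notMem hbB]
      have h2 : insert (a, b) (insert (b, a) (E.filter (fun p => p.1 ∈ B ∧ p.2 ∈ B))) ⊆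
          E.filter (fun p => p.1 ∈ insert b B ∧ p.2 ∈ insert b B) := by
        intro p hp
        rw [mem_insert, mem_insert, mem_filter] at hp
        rw [mem_filter]
        rcases hp with rfl | rfl | ⟨h3, h4, h5⟩
        · exact ⟨hab, mem_insert_of_mem ha, mem_insert_self _ _⟩
        · exact ⟨hsym _ _ hab, mem_insert_self _ _, mem_insert_of_mem ha⟩
        · exact ⟨h3, mem_insert_of_mem h4, mem_insert_of_mem h5⟩
      have h3 := Finset.card_le_card h2
      rw [card_insert_of_notMem, card_insert_of_notMem] at h3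
      · omega
      · rw [mem_filter]
        rintro ⟨_, h4, _⟩
        exact hbB h4
      · rw [mem_insert, mem_filter]
        rintro (h4 | ⟨_, _, h4⟩)
        · exact hne (congrArg Prod.fst h4)
        · exact hbB h4
    have h4 := hmax _ h1
    rw [card_insert_of_notMem hbB] at h4
    omega

theorem TopA_general (A : Finset C) (hne : A.Nonempty) (n : ℕ) :
    ∀ (T : Finset (Finset C)) (E : Finset (C × C)), T.card = n → T ⊆ Z.tri → T ≠ Z.tri →
    (∀ x y, (x, y) ∈ E → (y, x) ∈ E) → (∀ p ∈ E, p.1 ∈ A ∧ p.2 ∈ A) →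
    (∀ B ⊆ A, B.Nonempty → B ≠ A → ∃ a ∈ B, ∃ b ∈ A, b ∉ B ∧ (a, b) ∈ E) →
    (∀ t ∈ T, ∀ x ∈ t, ∀ y ∈ t, x ≠ y → (x, y) ∈ E) → 2 * A.card + 2 * T.card ≤ E.card + 2 := by
  induction n with
  | zero =>
    intro T E hT _ _ hsym _ hcon _
    rw [hT]
    exact TopA_base A E hne hsym hcon
  | succ n ih =>
    intro T E hT hsub hTne hsym hEA hcon hpair
    have hTn : T.Nonempty := by rw [← card_pos]; omega
    obtain ⟨a, b, hab, hcard⟩ := Z.bd T hsub hTn hTne
    obtain ⟨t, ht⟩ := card_eq_one.1 hcard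
    have htm : t ∈ T.filter (fun t => a ∈ t ∧ b ∈ t) := by rw [ht]; exact mem_singleton_self _
    rw [mem_filter] at htm
    obtain ⟨htT, hat, hbt⟩ := htm
    have huniq : ∀ t' ∈ T, a ∈ t' → b ∈ t' → t' = t := by
      intro t' h1 h2 h3
      have : t' ∈ T.filter (fun t => a ∈ t ∧ b ∈ t) := mem_filter.2 ⟨h1, h2, h3⟩
      rw [ht] at this
      exact mem_singleton.1 this
    have hE1 : (a, b) ∈ E := hpair t htT a hat b hbt hab
    have hE2 : (b, a) ∈ E := hsym _ _ hE1
    -- the third corner
    obtain ⟨c, hct, hca, hcb⟩ : ∃ c ∈ t, c ≠ a ∧ c ≠ b := by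
      by_contra hno
      push Not at hno
      have h1 : t ⊆ {a, b} := by
        intro c hc
        rw [mem_insert, mem_singleton]
        by_cases h : c = a
        · exact Or.inl h
        · exact Or.inr (hno c hc h)
      have h2 := card_le_card h1
      rw [Z.card_tri t (hsub htT)] at h2
      have := card_le_two (a := a) (b := b)
      omega
    have hne1 : (b, a) ≠ (a, b) := fun h => hab (congrArg Prod.snd h)
    have hmem : ∀ x y, (x, y) ∈ (E.erase (a, b)).erase (b, a) ↔
        (x, y) ∈ E ∧ ¬ (x = a ∧ y = b) ∧ ¬ (x = b ∧ y = a) := by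
      intro x y
      rw [mem_erase, mem_erase, Ne, Ne, Prod.mk.injEq, Prod.mk.injEq]
      tauto
    have hcE : ((E.erase (a, b)).erase (b, a)).card + 2 = E.card := by
      rw [card_erase_of_mem (mem_erase.2 ⟨hne1, hE2⟩), card_erase_of_mem hE1]
      have h2 : ({(a, b), (b, a)} : Finset (C × C)) ⊆ E := by
        intro p hp
        rw [mem_insert, mem_singleton] at hp
        rcases hp with rfl | rfl
        · exact hE1
        · exact hE2
      have h3 := card_le_card h2
      rw [card_pair hne1.symm] at h3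
      omega
    have hcT : (T.erase t).card + 1 = T.card := by
      rw [card_erase_of_mem htT]; omega
    have key := ih (T.erase t) ((E.erase (a, b)).erase (b, a)) (by omega)
      ((erase_subset _ _).trans hsub)
      (by
        intro h
        have : t ∈ T.erase t := by rw [h]; exact hsub htT
        exact (mem_erase.1 this).1 rfl)
      (by
        intro x y h
        rw [hmem] at h ⊢
        exact ⟨hsym _ _ h.1, fun h' => h.2.2 ⟨h'.2, h'.1⟩, fun h' => h.2.1 ⟨h'.2, h'.1⟩⟩)
      (fun p hp => hEA p (mem_of_mem_erase (mem_of_mem_erase hp)))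
      (by
        intro B hBA hBne hBA'
        obtain ⟨x, hx, y, hy, hyB, hxy⟩ := hcon B hBA hBne hBA'
        have hgen : ∀ x ∈ B, ∀ y, y ∉ B → x ∈ t → y ∈ t →
            ∃ a' ∈ B, ∃ b' ∈ A, b' ∉ B ∧ (a', b') ∈ (E.erase (a, b)).erase (b, a) := by
          intro x hx y hyB hxt hyt
          by_cases hcB : c ∈ B
          · have hcy : c ≠ y := fun h => hyB (h ▸ hcB)
            have h5 := hpair t htT c hct y hyt hcy
            refine ⟨c, hcB, y, (hEA _ h5).2, hyB, ?_⟩
            rw [hmem]
            exact ⟨h5, fun h => hca h.1, fun h => hcb h.1⟩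
          · have hxc : x ≠ c := fun h => hcB (h ▸ hx)
            have h5 := hpair t htT x hxt c hct hxc
            refine ⟨x, hx, c, (hEA _ h5).2, hcB, ?_⟩
            rw [hmem]
            exact ⟨h5, fun h => hcb h.2, fun h => hca h.2⟩
        by_cases h1 : x = a ∧ y = b
        · exact hgen x hx y hyB (h1.1 ▸ hat) (h1.2 ▸ hbt)
        · by_cases h2 : x = b ∧ y = a
          · exact hgen x hx y hyB (h2.1 ▸ hbt) (h2.2 ▸ hat)
          · exact ⟨x, hx, y, hy, hyB, (hmem x y).2 ⟨hxy, h1, h2⟩⟩)
      (by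
        intro t' ht' x hx y hy hxy
        obtain ⟨h3, h4⟩ := mem_erase.1 ht'
        rw [hmem]
        refine ⟨hpair t' h4 x hx y hy hxy, ?_, ?_⟩
        · rintro ⟨rfl, rfl⟩
          exact h3 (huniq t' h4 hx hy)
        · rintro ⟨rfl, rfl⟩
          exact h3 (huniq t' h4 hy hx))
    omega

theorem chi_le {A : Finset C} (hA : Z.Conn A) (hne : A ≠ univ) :
    2 * A.card + 2 * Z.f A ≤ Z.e2 A + 2 := by
  obtain ⟨hAne, hcon⟩ := hA
  unfold TriSphere.f TriSphere.e2
  apply TopA_general Z A hAne _ (Z.tri.filter (fun t => t ⊆ A))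
    ((A ×ˢ A).filter (fun p : C × C => Z.Adj p.1 p.2)) rfl (filter_subset _ _)
  · intro h
    obtain ⟨a, ha⟩ : ∃ a, a ∉ A := by
      by_contra hno
      push Not at hno
      exact hne (eq_univ_iff_forall.2 hno)
    obtain ⟨t, ht, hat⟩ := Z.cover a
    rw [← h, mem_filter] at ht
    exact ha (ht.2 hat)
  · intro x y h
    rw [mem_filter, mem_product] at h ⊢
    refine ⟨⟨h.1.2, h.1.1⟩, h.2.1.symm, ?_⟩
    obtain ⟨t, ht, h1, h2⟩ := h.2.2
    exact ⟨t, ht, h2, h1⟩
  · intro p hp
    rw [mem_filter, mem_product] at hp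
    exact hp.1
  · intro B hB hBne hBA
    obtain ⟨a, ha, b, hb, hbB, hab⟩ := hcon B hB hBne hBA
    exact ⟨a, ha, b, hb, hbB, mem_filter.2 ⟨mem_product.2 ⟨hB ha, hb⟩, hab⟩⟩
  · intro t ht x hx y hy hxy
    rw [mem_filter] at ht
    exact mem_filter.2 ⟨mem_product.2 ⟨ht.2 hx, ht.2 hy⟩, hxy, t, ht.1, hx, hy⟩

end Pool.MP627f83
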