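import Pool.Agent.Lib.MP_627f83_co.Defs
import Pool.Agent.Lib.MP_627f83_co.TopA
import Pool.Agent.Lib.MP_627f83_co.TopB

/-!
# TopC: Euler characteristic 1; two triangles at the interface of two sets

* `chi_eq`: `A` and its complement `B = univ \ A` are disjoint with union `univ`; `tcount A B = 0`. So
  `crossN = mixedN` (`two_mul_cross`), `e2 univ = e2 A + e2 B + 2 crossN`, `tri.card = f univ = f A + f B + mixedN`
  and `Z.euler` (the pairs counted in `Z.euler` are `e2 univ`) give
  `(2|A| + 2 f A - e2 A) + (2|B| + 2 f B - e2 B) = 4`; both terms are at most `2` by `chi_le`.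
* `tcount_eq_two`: `chi_eq` for `A`, `B`, `A ∪ B` (all complements connected by hypothesis; `A ∪ B` is connected by
  `conn_union`) and `e2_union`, `f_union`, `two_mul_cross`: `crossN - mixedN = 1`, so `tcount = 2`.
-/

namespace Pool.MP627f83

open Finset
open scoped Classical

variable {C : Type} [Fintype C] [DecidableEq C] (Z : TriSphere C)

theorem TopC_e2_univ :
    Z.e2 univ = (univ.filter (fun p : C × C => p.1 ≠ p.2 ∧ ∃ t ∈ Z.tri, p.1 ∈ t ∧ p.2 ∈ t)).card := by
  unfold TriSphere.e2
  rw [univ_product_univ]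
  congr 1
  ext p
  simp only [mem_filter, mem_univ, true_and, TriSphere.Adj]

theorem TopC_f_univ : Z.f univ = Z.tri.card := by
  unfold TriSphere.f
  congr 1
  exact filter_true_of_mem fun t _ => subset_univ t

theorem chi_eq {A : Finset C} (hA : Z.Conn A) (hB : Z.Conn (univ \ A)) :
    2 * A.card + 2 * Z.f A = Z.e2 A + 2 := by
  have hd : Disjoint A (univ \ A) := disjoint_sdiff
  have hu : A ∪ (univ \ A) = univ := union_sdiff_of_subset (subset_univ A)
  have hAne : A ≠ univ := by
    intro h
    obtain ⟨b, hb⟩ := hB.1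
    rw [h, mem_sdiff] at hb
    exact hb.2 (mem_univ _)
  have hBne : univ \ A ≠ univ := by
    intro h
    obtain ⟨a, ha⟩ := hA.1
    have : a ∈ univ \ A := by rw [h]; exact mem_univ _
    exact (mem_sdiff.1 this).2 ha
  have h1 := chi_le Z hA hAne
  have h2 := chi_le Z hB hBne
  have h0 : tcount Z A (univ \ A) = 0 := by
    unfold tcount
    rw [card_eq_zero]
    apply filter_false_of_mem
    rintro t _ ⟨_, _, c, _, hc1, hc2⟩
    exact hc2 (mem_sdiff.2 ⟨mem_univ _, hc1⟩)
  have h3 := two_mul_cross Z hd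
  have h4 := e2_union Z hd
  have h5 := f_union Z hd
  rw [hu] at h4 h5
  have h6 := Z.euler
  rw [← TopC_e2_univ] at h6
  rw [TopC_f_univ] at h5
  have h7 : A.card + (univ \ A).card = Fintype.card C := by
    rw [← card_union_of_disjoint hd, hu, card_univ]
  omega

theorem tcount_eq_two {A B : Finset C} (hA : Z.Conn A) (hB : Z.Conn B) (hd : Disjoint A B)
    (hAc : Z.Conn (univ \ A)) (hBc : Z.Conn (univ \ B)) (hABc : Z.Conn (univ \ (A ∪ B)))
    (hadj : Z.Adjs A B) : tcount Z A B = 2 := by
  have hAB := conn_union Z hA hB (Or.inr hadj)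
  have h1 := chi_eq Z hA hAc
  have h2 := chi_eq Z hB hBc
  have h3 := chi_eq Z hAB hABc
  have h4 := e2_union Z hd
  have h5 := f_union Z hd
  have h6 := two_mul_cross Z hd
  have h7 := card_union_of_disjoint hd
  omega

end Pool.MP627f83
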