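import Pool.Agent.Lib.MP_627f83_co.Defs
import Pool.Agent.Lib.MP_627f83_co.ConnA
import Pool.Agent.Lib.MP_627f83_co.TopB
import Pool.Agent.Lib.MP_627f83_co.TopC

/-!
# TopD: partitions into pairwise adjacent connected classes

* `part_tcount`: the complement of `X i` is the union of the other classes, connected by `conn_biUnion`
  (pairwise adjacent); the same for the complement of `X i ∪ X j` (nonempty as `3 ≤ n`). Then
  `tcount_eq_two`.
* `part_four`: let `t_{ijk}` be the number of triangles that meet `X i, X j, X k`. A triangle counted by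
  `tcount (X i) (X j)` has its third corner in exactly one other class. So `t012 + t013 = 2` etc. for the six
  pairs, which gives `t123 = 1`: `t123+t012=2` (pair 12: third class 0 or 3), `t123+t013=2` (pair 13),
  `t123+t023=2` (pair 23), `t012+t013=2` (pair 01): `2(2 - t123) = 2`.
* `not_part_five`: every triangle with three different classes is counted by exactly three of the 10 pairs
  `i < j`, so `3 T = 20`.
-/

namespace Pool.MP627f83

open Finset
open scoped Classical

variable {C : Type} [Fintype C] [DecidableEq C] (Z : TriSphere C)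

theorem TopD_conn {n : ℕ} {X : Fin n → Finset C} (h : Z.Part n X) (s : Finset (Fin n))
    (hs : s.Nonempty) : Z.Conn (s.biUnion X) :=
  conn_biUnion Z s hs X (fun i _ => h.conn i) (fun i _ j _ hij => Or.inr (h.adj i j hij))

theorem TopD_compl {n : ℕ} {X : Fin n → Finset C} (h : Z.Part n X) (s : Finset (Fin n)) :
    univ \ s.biUnion X = (univ \ s).biUnion X := by
  ext c
  simp only [mem_sdiff, mem_univ, true_and, mem_biUnion, not_exists, not_and]
  constructor
  · intro h1
    obtain ⟨i, hi⟩ := h.cov c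
    exact ⟨i, fun his => h1 i his hi, hi⟩
  · rintro ⟨i, his, hi⟩ j hj hcj
    have hij : i ≠ j := fun e => his (e ▸ hj)
    exact disjoint_left.mp (h.disj i j hij) hi hcj

theorem TopD_conn_compl {n : ℕ} {X : Fin n → Finset C} (h : Z.Part n X) (s : Finset (Fin n))
    {k : Fin n} (hk : k ∉ s) : Z.Conn (univ \ s.biUnion X) := by
  rw [TopD_compl Z h s]
  exact TopD_conn Z h _ ⟨k, mem_sdiff.mpr ⟨mem_univ _, hk⟩⟩

theorem part_tcount {n : ℕ} {X : Fin n → Finset C} (h : Z.Part n X) (hn : 3 ≤ n) {i j : Fin n}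
    (hij : i ≠ j) : tcount Z (X i) (X j) = 2 := by
  have e1 : ∀ i : Fin n, X i = ({i} : Finset (Fin n)).biUnion X := fun i => by simp
  have e2 : X i ∪ X j = ({i, j} : Finset (Fin n)).biUnion X := by
    rw [biUnion_insert, singleton_biUnion]
  obtain ⟨k, hk⟩ : ∃ k : Fin n, k ∉ ({i, j} : Finset (Fin n)) := by
    by_contra hcon
    push Not at hcon
    have h1 : (univ : Finset (Fin n)) ⊆ {i, j} := fun x _ => hcon x
    have h2 := card_le_card h1
    rw [card_univ, Fintype.card_fin, card_pair hij] at h2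
    omega
  refine tcount_eq_two Z (h.conn i) (h.conn j) (h.disj i j hij) ?_ ?_ ?_ (h.adj i j hij)
  · rw [e1 i]
    exact TopD_conn_compl Z h _ (k := j) (by simp [hij.symm])
  · rw [e1 j]
    exact TopD_conn_compl Z h _ (k := i) (by simp [hij])
  · rw [e2]
    exact TopD_conn_compl Z h _ hk

theorem TopD_four {n : ℕ} {X : Fin n → Finset C} (h : Z.Part n X) {t : Finset C}
    (ht : t ∈ Z.tri) {i j k l : Fin n} (hij : i ≠ j) (hik : i ≠ k) (hil : i ≠ l) (hjk : j ≠ k)
    (hjl : j ≠ l) (hkl : k ≠ l) (hi : ∃ a ∈ t, a ∈ X i) (hj : ∃ a ∈ t, a ∈ X j)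
    (hk : ∃ a ∈ t, a ∈ X k) (hl : ∃ a ∈ t, a ∈ X l) : False := by
  obtain ⟨a, hat, ha⟩ := hi
  obtain ⟨b, hbt, hb⟩ := hj
  obtain ⟨c, hct, hc⟩ := hk
  obtain ⟨d, hdt, hd⟩ := hl
  have hne : ∀ p q : Fin n, p ≠ q → ∀ x y : C, x ∈ X p → y ∈ X q → x ≠ y := by
    intro p q hpq x y hx hy e
    rw [e] at hx
    exact disjoint_left.mp (h.disj p q hpq) hx hy
  have hab := hne _ _ hij _ _ ha hb
  have hac := hne _ _ hik _ _ ha hc
  have had := hne _ _ hil _ _ ha hd
  have hbc := hne _ _ hjk _ _ hb hc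
  have hbd := hne _ _ hjl _ _ hb hd
  have hcd := hne _ _ hkl _ _ hc hd
  have h4 : ({a, b, c, d} : Finset C).card = 4 := by
    rw [card_insert_of_notMem (by simp [hab, hac, had]),
      card_insert_of_notMem (by simp [hbc, hbd]), card_pair hcd]
  have hsub : ({a, b, c, d} : Finset C) ⊆ t := by
    intro x hx
    simp only [mem_insert, mem_singleton] at hx
    rcases hx with rfl | rfl | rfl | rfl <;> assumption
  have h5 := card_le_card hsub
  have h6 := Z.card_tri t ht
  omega

/-- number of triangles that meet three classes -/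
noncomputable def TopD_N {n : ℕ} (X : Fin n → Finset C) (i j k : Fin n) : ℕ :=
  (Z.tri.filter (fun t => (∃ a ∈ t, a ∈ X i) ∧ (∃ a ∈ t, a ∈ X j) ∧ ∃ a ∈ t, a ∈ X k)).card

theorem TopD_N_swap {n : ℕ} (X : Fin n → Finset C) (i j k : Fin n) :
    TopD_N Z X i j k = TopD_N Z X j i k := by
  unfold TopD_N
  congr 1
  ext t
  simp only [mem_filter]
  tauto

theorem TopD_N_rot {n : ℕ} (X : Fin n → Finset C) (i j k : Fin n) :
    TopD_N Z X i j k = TopD_N Z X i k j := by
  unfold TopD_N
  congr 1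
  ext t
  simp only [mem_filter]
  tauto

theorem TopD_sum {n : ℕ} {X : Fin n → Finset C} (h : Z.Part n X) {i j : Fin n}
    (hij : i ≠ j) : tcount Z (X i) (X j) =
      ∑ k ∈ univ.filter (fun k => k ≠ i ∧ k ≠ j), TopD_N Z X i j k := by
  have h1 : Z.tri.filter (fun t => (∃ a ∈ t, a ∈ X i) ∧ (∃ b ∈ t, b ∈ X j) ∧
      ∃ c ∈ t, c ∉ X i ∧ c ∉ X j) =
      (univ.filter (fun k => k ≠ i ∧ k ≠ j)).biUnion (fun k => Z.tri.filter
        (fun t => (∃ a ∈ t, a ∈ X i) ∧ (∃ a ∈ t, a ∈ X j) ∧ ∃ a ∈ t, a ∈ X k)) := by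
    ext t
    simp only [mem_filter, mem_biUnion, mem_univ, true_and]
    constructor
    · rintro ⟨ht, hi, hj, c, hct, hci, hcj⟩
      obtain ⟨k, hk⟩ := h.cov c
      refine ⟨k, ⟨?_, ?_⟩, ht, hi, hj, c, hct, hk⟩
      · rintro rfl
        exact hci hk
      · rintro rfl
        exact hcj hk
    · rintro ⟨k, ⟨hki, hkj⟩, ht, hi, hj, c, hct, hk⟩
      exact ⟨ht, hi, hj, c, hct, disjoint_left.mp (h.disj k i hki) hk,
        disjoint_left.mp (h.disj k j hkj) hk⟩
  unfold tcount
  rw [h1, card_biUnion]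
  · rfl
  · intro k hk l hl hkl
    simp only [coe_filter, mem_univ, true_and, Set.mem_setOf_eq] at hk hl
    refine Finset.disjoint_left.mpr ?_
    intro t htk htl
    simp only [mem_filter] at htk htl
    exact TopD_four Z h htk.1 hij (Ne.symm hk.1) (Ne.symm hl.1) (Ne.symm hk.2) (Ne.symm hl.2)
      hkl htk.2.1 htk.2.2.1 htk.2.2.2 htl.2.2.2

theorem part_four {X : Fin 4 → Finset C} (h : Z.Part 4 X) :
    (Z.tri.filter (fun t => (∃ a ∈ t, a ∈ X 1) ∧ (∃ a ∈ t, a ∈ X 2) ∧ ∃ a ∈ t, a ∈ X 3)).card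
      = 1 := by
  change TopD_N Z X 1 2 3 = 1
  have f12 : (univ.filter (fun k : Fin 4 => k ≠ 1 ∧ k ≠ 2)) = {0, 3} := by decide
  have f13 : (univ.filter (fun k : Fin 4 => k ≠ 1 ∧ k ≠ 3)) = {0, 2} := by decide
  have f23 : (univ.filter (fun k : Fin 4 => k ≠ 2 ∧ k ≠ 3)) = {0, 1} := by decide
  have f01 : (univ.filter (fun k : Fin 4 => k ≠ 0 ∧ k ≠ 1)) = {2, 3} := by decide
  have p12 := part_tcount Z h (by norm_num) (show (1 : Fin 4) ≠ 2 by decide)
  have p13 := part_tcount Z h (by norm_num) (show (1 : Fin 4) ≠ 3 by decide)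
  have p23 := part_tcount Z h (by norm_num) (show (2 : Fin 4) ≠ 3 by decide)
  have p01 := part_tcount Z h (by norm_num) (show (0 : Fin 4) ≠ 1 by decide)
  rw [TopD_sum Z h (by decide), f12, sum_pair (by decide)] at p12
  rw [TopD_sum Z h (by decide), f13, sum_pair (by decide)] at p13
  rw [TopD_sum Z h (by decide), f23, sum_pair (by decide)] at p23
  rw [TopD_sum Z h (by decide), f01, sum_pair (by decide)] at p01
  have a1 : TopD_N Z X 1 2 0 = TopD_N Z X 0 1 2 := by
    rw [TopD_N_rot, TopD_N_swap]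
  have a2 : TopD_N Z X 1 3 0 = TopD_N Z X 0 1 3 := by
    rw [TopD_N_rot, TopD_N_swap]
  have a3 : TopD_N Z X 1 3 2 = TopD_N Z X 1 2 3 := TopD_N_rot Z X 1 3 2
  have a4 : TopD_N Z X 2 3 1 = TopD_N Z X 1 2 3 := by
    rw [TopD_N_rot, TopD_N_swap]
  rw [a1] at p12
  rw [a2, a3] at p13
  rw [a4] at p23
  omega

theorem not_part_five {X : Fin 5 → Finset C} : ¬ Z.Part 5 X := by
  intro h
  have key : ∀ i j k l m : Fin 5, i ≠ j → k ≠ l → k ≠ m → l ≠ m →
      (univ.filter (fun x : Fin 5 => x ≠ i ∧ x ≠ j)) = {k, l, m} →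
      TopD_N Z X i j k + (TopD_N Z X i j l + TopD_N Z X i j m) = 2 := by
    intro i j k l m hij hkl hkm hlm hf
    have p := part_tcount Z h (by norm_num) hij
    rw [TopD_sum Z h hij, hf, sum_insert (by simp [hkl, hkm]), sum_pair hlm] at p
    exact p
  have p01 := key 0 1 2 3 4 (by decide) (by decide) (by decide) (by decide) (by decide)
  have p02 := key 0 2 1 3 4 (by decide) (by decide) (by decide) (by decide) (by decide)
  have p03 := key 0 3 1 2 4 (by decide) (by decide) (by decide) (by decide) (by decide)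
  have p04 := key 0 4 1 2 3 (by decide) (by decide) (by decide) (by decide) (by decide)
  have p12 := key 1 2 0 3 4 (by decide) (by decide) (by decide) (by decide) (by decide)
  have p13 := key 1 3 0 2 4 (by decide) (by decide) (by decide) (by decide) (by decide)
  have p14 := key 1 4 0 2 3 (by decide) (by decide) (by decide) (by decide) (by decide)
  have p23 := key 2 3 0 1 4 (by decide) (by decide) (by decide) (by decide) (by decide)
  have p24 := key 2 4 0 1 3 (by decide) (by decide) (by decide) (by decide) (by decide)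
  have p34 := key 3 4 0 1 2 (by decide) (by decide) (by decide) (by decide) (by decide)
  have r : ∀ i j k : Fin 5, TopD_N Z X i k j = TopD_N Z X i j k := fun i j k =>
    TopD_N_rot Z X i k j
  have c : ∀ i j k : Fin 5, TopD_N Z X j k i = TopD_N Z X i j k := fun i j k => by
    rw [TopD_N_rot, TopD_N_swap]
  rw [r 0 1 2] at p02
  rw [r 0 1 3, r 0 2 3] at p03
  rw [r 0 1 4, r 0 2 4, r 0 3 4] at p04
  rw [c 0 1 2] at p12
  rw [c 0 1 3, r 1 2 3] at p13
  rw [c 0 1 4, r 1 2 4, r 1 3 4] at p14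
  rw [c 0 2 3, c 1 2 3] at p23
  rw [c 0 2 4, c 1 2 4, r 2 3 4] at p24
  rw [c 0 3 4, c 1 3 4, c 2 3 4] at p34
  omega

end Pool.MP627f83
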