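import Pool.Agent.Lib.MP_627f83_co.Defs
import Pool.Agent.Lib.MP_627f83_co.ConnA
import Pool.Agent.Lib.MP_627f83_co.ConnB
import Pool.Agent.Lib.MP_627f83_co.ConnC
import Pool.Agent.Lib.MP_627f83_co.TopD

/-!
# Child: the state of a component

Let `U` be the component, `Y' = Om \ U` (connected, contains `Y`, adjacent to `U` only through `Y`: `compl_comp`).
`J = {i : Adjs U (X i)}`. `J.card ≤ 2`: clear if `n ≤ 2`; if `n = 3` and `J` is everything then `U, Y', X 0, X 1, X 2`
is a `Part 5` (`Y'` is adjacent to every `X i` because `Y` is), contradiction to `not_part_five`. New classes: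
the `X i` with `i ∈ J`, and `R = Y' ∪ ⋃_{i ∉ J} X i` (connected by `conn_star`). So `n' = J.card + 1`; use
`Fin.cons` / `Fin.snoc` with an enumeration `J.equivFin` (or case split on `J.card = 0, 1, 2`). Cells of `R`
adjacent to `U` are in `Y` (a cell of `X i`, `i ∉ J`, is not adjacent to `U`).
-/

namespace Pool.MP627f83

open Finset
open scoped Classical

variable {C : Type} [Fintype C] [DecidableEq C] (Z : TriSphere C)

theorem child_part_of_state {n : ℕ} {Om : Finset C} {X : Fin n → Finset C}
    (h : Z.State n Om X) :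
    Z.Part (n + 1) (Fin.cons (α := fun _ => Finset C) Om X) := by
  refine ⟨?_, ?_, ?_, ?_⟩
  · intro i
    refine Fin.cases ?_ (fun i => ?_) i
    · simpa using h.conn
    · simpa using h.connX i
  · intro i j
    refine Fin.cases ?_ (fun i => ?_) i <;> refine Fin.cases ?_ (fun j => ?_) j
    · intro hh
      exact absurd rfl hh
    · intro _
      simpa using h.disj j
    · intro _
      simpa using (h.disj i).symm
    · intro hh
      have : i ≠ j := fun e => hh (by rw [e])
      simpa using h.disjX i j this
  · intro c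
    rcases h.cov c with hc | ⟨i, hc⟩
    · exact ⟨0, by simpa using hc⟩
    · exact ⟨i.succ, by simpa using hc⟩
  · intro i j
    refine Fin.cases ?_ (fun i => ?_) i <;> refine Fin.cases ?_ (fun j => ?_) j
    · intro hh
      exact absurd rfl hh
    · intro _
      simpa using h.adj j
    · intro _
      simpa using adjs_symm Z (h.adj i)
    · intro hh
      have : i ≠ j := fun e => hh (by rw [e])
      simpa using h.adjX i j this

theorem child {n : ℕ} (hn3 : n ≤ 3) {Om : Finset C} {X : Fin n → Finset C}
    (h : Z.State n Om X) {Y : Finset C} (hY : Y ⊆ Om) (hYc : Z.Conn Y)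
    (hYX : ∀ i, Z.Adjs Y (X i)) {c : C} (hc : c ∈ Om \ Y) :
    ∃ n', 1 ≤ n' ∧ n' ≤ 3 ∧ ∃ X' : Fin n' → Finset C, Z.State n' (Z.comp (Om \ Y) c) X' ∧
      ∀ j, (∃ i, ∀ d ∈ X' j, (∃ a ∈ Z.comp (Om \ Y) c, Z.Adj a d) → d ∈ X i) ∨
        (∀ d ∈ X' j, (∃ a ∈ Z.comp (Om \ Y) c, Z.Adj a d) → d ∈ Y) := by
  obtain ⟨hO, hUY, hb, hYU⟩ := compl_comp Z h.conn hY hYc hc
  have hUc : Z.Conn (Z.comp (Om \ Y) c) := comp_conn Z hc
  have hUO : Z.comp (Om \ Y) c ⊆ Om := (comp_subset Z (Om \ Y) c).trans Finset.sdiff_subset
  generalize Z.comp (Om \ Y) c = U at *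
  set J : Finset (Fin n) := univ.filter (fun i => Z.Adjs U (X i)) with hJ
  set R : Finset C := (Om \ U) ∪ (univ.filter (fun i => i ∉ J)).biUnion X with hR
  have hRc : Z.Conn R := by
    refine conn_star Z _ _ hO X (fun i _ => h.connX i) (fun i _ => Or.inr ?_)
    exact adjs_mono Z (Finset.Subset.refl _) hYU (adjs_symm Z (hYX i))
  have hYR : Y ⊆ R := hYU.trans Finset.subset_union_left
  have hOX : ∀ i, Disjoint Om (X i) := h.disj
  have hRX : ∀ i, i ∈ J → Disjoint R (X i) := by
    intro i hi
    rw [Finset.disjoint_left]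
    intro a ha hai
    rcases Finset.mem_union.1 ha with ha | ha
    · exact Finset.disjoint_left.1 (hOX i) (Finset.mem_sdiff.1 ha).1 hai
    · obtain ⟨i', hi', ha'⟩ := Finset.mem_biUnion.1 ha
      have hne : i' ≠ i := by
        rintro rfl
        exact (Finset.mem_filter.1 hi').2 hi
      exact Finset.disjoint_left.1 (h.disjX i' i hne) ha' hai
  have hUR : Disjoint U R := by
    rw [Finset.disjoint_left]
    intro a ha haR
    rcases Finset.mem_union.1 haR with haR | haR
    · exact (Finset.mem_sdiff.1 haR).2 ha
    · obtain ⟨i', hi', ha'⟩ := Finset.mem_biUnion.1 haR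
      exact Finset.disjoint_left.1 (hOX i') (hUO ha) ha'
  let e := J.equivFin
  have hS : Z.State (J.card + 1) U
      (Fin.cons (α := fun _ => Finset C) R (fun k => X (e.symm k : Fin n))) := by
    refine ⟨hUc, ?_, ?_, ?_, ?_, ?_, ?_⟩
    · intro i
      refine Fin.cases ?_ (fun i => ?_) i
      · simpa using hRc
      · simpa using h.connX _
    · intro i
      refine Fin.cases ?_ (fun i => ?_) i
      · simpa using hUR
      · simpa using (hOX _).mono_left hUO
    · intro i j
      refine Fin.cases ?_ (fun i => ?_) i <;> refine Fin.cases ?_ (fun j => ?_) j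
      · intro hh
        exact absurd rfl hh
      · intro _
        simpa using hRX _ (e.symm j).2
      · intro _
        simpa using (hRX _ (e.symm i).2).symm
      · intro hh
        have hne : (e.symm i : Fin n) ≠ (e.symm j : Fin n) := by
          intro h1
          have h2 : e.symm i = e.symm j := Subtype.ext h1
          exact hh (by rw [e.symm.injective h2])
        simpa using h.disjX _ _ hne
    · intro a
      by_cases haU : a ∈ U
      · exact Or.inl haU
      · right
        rcases h.cov a with ha | ⟨i, ha⟩
        · refine ⟨0, ?_⟩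
          simp only [Fin.cons_zero]
          exact Finset.mem_union_left _ (Finset.mem_sdiff.2 ⟨ha, haU⟩)
        · by_cases hi : i ∈ J
          · refine ⟨(e ⟨i, hi⟩).succ, ?_⟩
            simpa using ha
          · refine ⟨0, ?_⟩
            simp only [Fin.cons_zero]
            exact Finset.mem_union_right _ (Finset.mem_biUnion.2
              ⟨i, Finset.mem_filter.2 ⟨Finset.mem_univ _, hi⟩, ha⟩)
    · intro i j
      refine Fin.cases ?_ (fun i => ?_) i <;> refine Fin.cases ?_ (fun j => ?_) j
      · intro hh
        exact absurd rfl hh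
      · intro _
        simpa using adjs_mono Z hYR (Finset.Subset.refl _) (hYX _)
      · intro _
        simpa using adjs_symm Z (adjs_mono Z hYR (Finset.Subset.refl _) (hYX _))
      · intro hh
        have hne : (e.symm i : Fin n) ≠ (e.symm j : Fin n) := by
          intro h1
          have h2 : e.symm i = e.symm j := Subtype.ext h1
          exact hh (by rw [e.symm.injective h2])
        simpa using h.adjX _ _ hne
    · intro i
      refine Fin.cases ?_ (fun i => ?_) i
      · simpa using adjs_mono Z (Finset.Subset.refl _) hYR hUY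
      · simpa using (Finset.mem_filter.1 (e.symm i).2).2
  have hJn : J.card ≤ n := by
    have := Finset.card_le_univ J
    simpa using this
  have hJ2 : J.card ≤ 2 := by
    by_contra hcon
    have h3 : J.card = 3 := by omega
    have hP := child_part_of_state Z hS
    have key : ∀ k, k = 3 → ∀ X5 : Fin (k + 1 + 1) → Finset C, ¬ Z.Part (k + 1 + 1) X5 := by
      rintro k rfl X5 h5
      exact not_part_five Z h5
    exact key _ h3 _ hP
  refine ⟨J.card + 1, by omega, by omega, _, hS, ?_⟩
  intro j
  refine Fin.cases ?_ (fun k => ?_) j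
  · right
    intro d hd had
    obtain ⟨a, haU, had⟩ := had
    simp only [Fin.cons_zero] at hd
    rcases Finset.mem_union.1 hd with hd | hd
    · exact hb a haU d (Finset.mem_sdiff.1 hd).1 (Finset.mem_sdiff.1 hd).2 had
    · obtain ⟨i, hi, hdi⟩ := Finset.mem_biUnion.1 hd
      exfalso
      apply (Finset.mem_filter.1 hi).2
      exact Finset.mem_filter.2 ⟨Finset.mem_univ _, a, haU, d, hdi, had⟩
  · left
    refine ⟨(e.symm k : Fin n), ?_⟩
    intro d hd _
    simpa using hd

end Pool.MP627f83
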