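import Pool.Agent.Lib.MP_627f83_co.Defs

/-!
# CovA: covers from maximal matchings

`D` a `k`-matching-planar drawing of the finite graph `G`, `e` an edge. Take a finset `M` of edges of `G` that cross
`e`, pairwise disjoint, of maximal cardinality (`≤ k`). `Sv` = all ends of `M` and of `e`: at most `2 k + 2` vertices. Let
`f` be an edge whose arc meets the arc of `e`, in `p`. `f = e`: clear. If `f` and `e` have a common vertex: clear.
Otherwise `f` crosses `e` (no shared endpoint at all), and if `f` had no vertex in `Sv`, `insert f M` would be larger.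
-/

namespace Pool.MP627f83

open Finset
open scoped Classical

theorem CovA_card_le {V : Type} [Fintype V] [DecidableEq V] (f : Sym2 V) :
    (univ.filter (fun v => v ∈ f)).card ≤ 2 := by
  induction f using Sym2.ind with
  | _ a b =>
    calc (univ.filter (fun v => v ∈ s(a, b))).card ≤ ({a, b} : Finset V).card := by
          refine card_le_card fun v hv => ?_
          rw [mem_filter] at hv
          simpa using hv.2
      _ ≤ 2 := card_le_two

theorem CovA_exists {V : Type} (f : Sym2 V) : ∃ v, v ∈ f := by
  induction f using Sym2.ind with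
  | _ a b => exact ⟨a, by simp⟩

theorem cover_exists {V : Type} [Fintype V] [DecidableEq V] {G : SimpleGraph V} (D : Drawing G)
    {k : ℕ} (hD : D.MatchingPlanar k) {e : Sym2 V} (he : e ∈ G.edgeSet) :
    ∃ S : Finset V, S.card ≤ 2 * k + 2 ∧ (∀ v ∈ e, v ∈ S) ∧
      ∀ f ∈ G.edgeSet, (∃ p, p ∈ D.arc e ∧ p ∈ D.arc f) → ∃ v ∈ f, v ∈ S := by
  set P : Finset (Sym2 V) → Prop := fun M => (∀ f ∈ M, f ∈ G.edgeSet ∧ D.Cross e f) ∧
    (∀ f ∈ M, ∀ g ∈ M, f ≠ g → ∀ v, v ∈ f → v ∉ g) with hP
  obtain ⟨M, hM, hmax⟩ := (univ.filter P).exists_max_image (fun M => M.card)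
    ⟨∅, by rw [mem_filter]; exact ⟨mem_univ _, by simp, by simp⟩⟩
  rw [mem_filter] at hM
  obtain ⟨-, hM1, hM2⟩ := hM
  have hcard := hD e he M hM1 hM2
  refine ⟨(insert e M).biUnion (fun f => univ.filter (fun v => v ∈ f)), ?_, fun v hv => ?_,
    fun f hf hp => ?_⟩
  · calc ((insert e M).biUnion (fun f => univ.filter (fun v => v ∈ f))).card
        ≤ (insert e M).card * 2 := card_biUnion_le_card_mul _ _ _ fun f _ => CovA_card_le f
      _ ≤ (k + 1) * 2 := by
          have := card_insert_le e M
          exact Nat.mul_le_mul_right _ (by omega)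
      _ = 2 * k + 2 := by ring
  · rw [mem_biUnion]
    exact ⟨e, mem_insert_self _ _, by rw [mem_filter]; exact ⟨mem_univ _, hv⟩⟩
  · have hin : ∀ g ∈ insert e M, ∀ v, v ∈ g →
        v ∈ (insert e M).biUnion (fun f => univ.filter (fun v => v ∈ f)) := by
      intro g hg v hv
      rw [mem_biUnion]
      exact ⟨g, hg, by rw [mem_filter]; exact ⟨mem_univ _, hv⟩⟩
    by_contra hcon
    push Not at hcon
    have hfe : e ≠ f := by
      rintro rfl
      obtain ⟨v, hv⟩ := CovA_exists e
      exact hcon v hv (hin e (mem_insert_self _ _) v hv)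
    have hcr : D.Cross e f := by
      obtain ⟨p, hp1, hp2⟩ := hp
      exact ⟨hfe, p, hp1, hp2, fun v hv1 hv2 =>
        absurd (hin e (mem_insert_self _ _) v hv1) (hcon v hv2)⟩
    have hfM : f ∉ M := by
      intro hfM
      obtain ⟨v, hv⟩ := CovA_exists f
      exact hcon v hv (hin f (mem_insert_of_mem hfM) v hv)
    have hins : insert f M ∈ univ.filter P := by
      rw [mem_filter]
      refine ⟨mem_univ _, fun g hg => ?_, fun g hg g' hg' hne v hv hv' => ?_⟩
      · rcases mem_insert.1 hg with rfl | hg
        · exact ⟨hf, hcr⟩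
        · exact hM1 g hg
      · rcases mem_insert.1 hg with h1 | h1
        · rw [h1] at hv
          rcases mem_insert.1 hg' with h2 | h2
          · exact hne (h1.trans h2.symm)
          · exact hcon v hv (hin g' (mem_insert_of_mem h2) v hv')
        · rcases mem_insert.1 hg' with h2 | h2
          · rw [h2] at hv'
            exact hcon v hv' (hin g (mem_insert_of_mem h1) v hv)
          · exact hM2 g h1 g' h2 hne v hv hv'
    have h1 := hmax _ hins
    have h2 := card_insert_of_notMem hfM
    omega

end Pool.MP627f83
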