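import Pool.Agent.Lib.MP_627f83_co.Defs

/-!
# CylDefs: a concrete triangulated sphere: cylinder grid with two poles (FINAL)

Cells: two poles and `ZMod m × Fin n`. `cpt i j` is the south pole for `j = 0`, the cell `(i, j-1)` for
`1 ≤ j ≤ n` and the north pole for `j > n`. Triangles `up i j = {cpt i j, cpt (i+1) j, cpt (i+1) (j+1)}` for
`1 ≤ j ≤ n` and `down i j = {cpt i j, cpt i (j+1), cpt (i+1) (j+1)}` for `0 ≤ j < n`.
(`V = m n + 2`, `F = 2 m n`, `E = 3 m n`.)
-/

namespace Pool.MP627f83

open Finset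
open scoped Classical

/-- cells of the cylinder grid with two poles -/
abbrev Cyl (m n : ℕ) : Type := Bool ⊕ (ZMod m × Fin n)

/-- the cell in column `i` and row `j`; row `0` is the south pole, rows `> n` the north pole -/
def cpt (m n : ℕ) (i : ZMod m) (j : ℕ) : Cyl m n :=
  if j = 0 then Sum.inl false
  else if h : j - 1 < n then Sum.inr (i, ⟨j - 1, h⟩) else Sum.inl true

/-- lower right triangles -/
noncomputable def upT (m n : ℕ) (i : ZMod m) (j : ℕ) : Finset (Cyl m n) :=
  {cpt m n i j, cpt m n (i + 1) j, cpt m n (i + 1) (j + 1)}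

/-- upper left triangles -/
noncomputable def downT (m n : ℕ) (i : ZMod m) (j : ℕ) : Finset (Cyl m n) :=
  {cpt m n i j, cpt m n i (j + 1), cpt m n (i + 1) (j + 1)}

/-- the triangles of the cylinder grid with two poles -/
noncomputable def cylTri (m n : ℕ) [NeZero m] : Finset (Finset (Cyl m n)) :=
  (univ : Finset (ZMod m × Fin n)).image (fun p => upT m n p.1 ((p.2 : ℕ) + 1)) ∪
  (univ : Finset (ZMod m × Fin n)).image (fun p => downT m n p.1 (p.2 : ℕ))

end Pool.MP627f83
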