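import Pool.Agent.Lib.MP_627f83_co.Defs
import Pool.Agent.Lib.MP_627f83_co.CylDefs

/-!
# CylA: cylinder: triangles have three cells, every edge is in exactly two triangles

`m ≥ 4`, `n ≥ 1`. Adjacent pairs and their two triangles (rows `j` as in `cpt`):
`cpt i j, cpt (i+1) j` (`1 ≤ j ≤ n`): `up i j` and `down i (j-1)`; `cpt i j, cpt i (j+1)` (`1 ≤ j < n`): `down i j` and
`up (i-1) j`; `cpt i j, cpt (i+1) (j+1)` (`1 ≤ j < n`): `up i j` and `down i j`; south pole and `cpt i 1`: `down i 0` and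
`down (i-1) 0`; north pole and `cpt i n`: `up i n` and `up (i-1) n`.
Useful auxiliary lemmas: the `2 m n` triangles are pairwise different (`up`/`down` with different parameters),
membership of a cell in `upT`/`downT` in terms of coordinates.
-/

namespace Pool.MP627f83

open Finset
open scoped Classical

theorem cylA_eq {m n : ℕ} (hn : 1 ≤ n) {i i' : ZMod m} {j j' : ℕ} (hj : j ≤ n + 1)
    (hj' : j' ≤ n + 1) :
    cpt m n i j = cpt m n i' j' ↔ j = j' ∧ (j = 0 ∨ j = n + 1 ∨ i = i') := by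
  unfold cpt
  split_ifs <;> simp <;> first | omega | (constructor <;> intro h <;> constructor <;> first | omega | grind)

theorem cylA_mem {m n : ℕ} [NeZero m] {t : Finset (Cyl m n)} :
    t ∈ cylTri m n ↔ (∃ i j, 1 ≤ j ∧ j ≤ n ∧ t = upT m n i j) ∨
      (∃ i j, j < n ∧ t = downT m n i j) := by
  unfold cylTri
  rw [mem_union, mem_image, mem_image]
  constructor
  · rintro (⟨⟨i, j⟩, _, rfl⟩ | ⟨⟨i, j⟩, _, rfl⟩)
    · exact Or.inl ⟨i, j + 1, by omega, by omega, rfl⟩
    · exact Or.inr ⟨i, j, j.2, rfl⟩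
  · rintro (⟨i, j, h1, h2, rfl⟩ | ⟨i, j, h1, rfl⟩)
    · refine Or.inl ⟨(i, ⟨j - 1, by omega⟩), mem_univ _, ?_⟩
      simp only
      congr 1
      omega
    · exact Or.inr ⟨(i, ⟨j, h1⟩), mem_univ _, rfl⟩

theorem cylA_one {m : ℕ} (hm : 4 ≤ m) : (1 : ZMod m) ≠ 0 := by
  intro h
  have h1 : ((1 : ℕ) : ZMod m) = 0 := by exact_mod_cast h
  rw [ZMod.natCast_eq_zero_iff] at h1
  have := Nat.le_of_dvd (by norm_num) h1
  omega

theorem cylA_two {m : ℕ} (hm : 4 ≤ m) : (2 : ZMod m) ≠ 0 := by
  intro h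
  have h1 : ((2 : ℕ) : ZMod m) = 0 := by exact_mod_cast h
  rw [ZMod.natCast_eq_zero_iff] at h1
  have := Nat.le_of_dvd (by norm_num) h1
  omega

theorem cylA_s1 {m : ℕ} (hm : 4 ≤ m) (x : ZMod m) : x + 1 ≠ x := by
  intro h
  exact cylA_one hm (by linear_combination h)

theorem cylA_s2 {m : ℕ} (hm : 4 ≤ m) (x : ZMod m) : x + 1 + 1 ≠ x := by
  intro h
  exact cylA_two hm (by linear_combination h)

theorem cylA_inj {m : ℕ} (x y : ZMod m) (h : x + 1 = y + 1) : x = y := add_right_cancel h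

private theorem cylA_of {m n : ℕ} [NeZero m] {a b : Cyl m n} {T1 T2 : Finset (Cyl m n)}
    (h1 : T1 ∈ cylTri m n) (h2 : T2 ∈ cylTri m n) (ha1 : a ∈ T1) (hb1 : b ∈ T1) (ha2 : a ∈ T2)
    (hb2 : b ∈ T2) (hne : T1 ≠ T2) (h : ∀ t ∈ cylTri m n, a ∈ t → b ∈ t → t = T1 ∨ t = T2) :
    ((cylTri m n).filter (fun t => a ∈ t ∧ b ∈ t)).card = 2 := by
  have e : (cylTri m n).filter (fun t => a ∈ t ∧ b ∈ t) = {T1, T2} := by
    ext t
    rw [mem_filter, mem_insert, mem_singleton]
    constructor
    · rintro ⟨ht, ha, hb⟩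
      exact h t ht ha hb
    · rintro (rfl | rfl)
      · exact ⟨h1, ha1, hb1⟩
      · exact ⟨h2, ha2, hb2⟩
  rw [e, card_pair hne]

theorem cylA_up {m n : ℕ} [NeZero m] (i : ZMod m) {j : ℕ} (h1 : 1 ≤ j) (h2 : j ≤ n) :
    upT m n i j ∈ cylTri m n := cylA_mem.2 (Or.inl ⟨i, j, h1, h2, rfl⟩)

theorem cylA_down {m n : ℕ} [NeZero m] (i : ZMod m) {j : ℕ} (h2 : j < n) :
    downT m n i j ∈ cylTri m n := cylA_mem.2 (Or.inr ⟨i, j, h2, rfl⟩)

private theorem cylA_H {m n : ℕ} [NeZero m] (hm : 4 ≤ m) (hn : 1 ≤ n) {i : ZMod m} {j : ℕ}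
    (h1 : 1 ≤ j) (h2 : j ≤ n) :
    ((cylTri m n).filter (fun t => cpt m n i j ∈ t ∧ cpt m n (i + 1) j ∈ t)).card = 2 := by
  have s1 := cylA_s1 hm
  have s2 := cylA_s2 hm
  have s3 := cylA_inj (m := m)
  refine cylA_of (cylA_up i h1 h2) (cylA_down i (show j - 1 < n by omega)) ?_ ?_ ?_ ?_ ?_ ?_
  · simp [upT]
  · simp [upT]
  · simp [downT, show j - 1 + 1 = j by omega]
  · simp [downT, show j - 1 + 1 = j by omega]
  · intro h
    have h3 : cpt m n (i + 1) (j + 1) ∈ downT m n i (j - 1) := by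
      rw [← h]; simp [upT]
    simp only [downT, mem_insert, mem_singleton] at h3
    rcases h3 with h3 | h3 | h3 <;> rw [cylA_eq hn (by omega) (by omega)] at h3 <;> omega
  · intro t ht ha hb
    rw [cylA_mem] at ht
    rcases ht with ⟨i', j', h3, h4, rfl⟩ | ⟨i', j', h3, rfl⟩
    · simp only [upT, mem_insert, mem_singleton] at ha hb
      rcases ha with ha | ha | ha <;> rcases hb with hb | hb | hb <;>
        rw [cylA_eq hn (by omega) (by omega)] at ha hb <;> grind
    · simp only [downT, mem_insert, mem_singleton] at ha hb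
      rcases ha with ha | ha | ha <;> rcases hb with hb | hb | hb <;>
        rw [cylA_eq hn (by omega) (by omega)] at ha hb <;> grind

private theorem cylA_V {m n : ℕ} [NeZero m] (hm : 4 ≤ m) (hn : 1 ≤ n) {i : ZMod m} {j : ℕ}
    (h1 : 1 ≤ j) (h2 : j < n) :
    ((cylTri m n).filter (fun t => cpt m n (i + 1) j ∈ t ∧ cpt m n (i + 1) (j + 1) ∈ t)).card
      = 2 := by
  have s1 := cylA_s1 hm
  have s2 := cylA_s2 hm
  have s3 := cylA_inj (m := m)
  refine cylA_of (cylA_up i h1 h2.le) (cylA_down (i + 1) h2) ?_ ?_ ?_ ?_ ?_ ?_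
  · simp [upT]
  · simp [upT]
  · simp [downT]
  · simp [downT]
  · intro h
    have h3 : cpt m n i j ∈ downT m n (i + 1) j := by
      rw [← h]; simp [upT]
    simp only [downT, mem_insert, mem_singleton] at h3
    rcases h3 with h3 | h3 | h3 <;> rw [cylA_eq hn (by omega) (by omega)] at h3 <;> grind
  · intro t ht ha hb
    rw [cylA_mem] at ht
    rcases ht with ⟨i', j', h3, h4, rfl⟩ | ⟨i', j', h3, rfl⟩
    · simp only [upT, mem_insert, mem_singleton] at ha hb
      rcases ha with ha | ha | ha <;> rcases hb with hb | hb | hb <;>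
        rw [cylA_eq hn (by omega) (by omega)] at ha hb <;> grind
    · simp only [downT, mem_insert, mem_singleton] at ha hb
      rcases ha with ha | ha | ha <;> rcases hb with hb | hb | hb <;>
        rw [cylA_eq hn (by omega) (by omega)] at ha hb <;> grind

private theorem cylA_D {m n : ℕ} [NeZero m] (hm : 4 ≤ m) (hn : 1 ≤ n) {i : ZMod m} {j : ℕ}
    (h1 : 1 ≤ j) (h2 : j < n) :
    ((cylTri m n).filter (fun t => cpt m n i j ∈ t ∧ cpt m n (i + 1) (j + 1) ∈ t)).card
      = 2 := by
  have s1 := cylA_s1 hm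
  have s2 := cylA_s2 hm
  have s3 := cylA_inj (m := m)
  refine cylA_of (cylA_up i h1 h2.le) (cylA_down i h2) ?_ ?_ ?_ ?_ ?_ ?_
  · simp [upT]
  · simp [upT]
  · simp [downT]
  · simp [downT]
  · intro h
    have h3 : cpt m n (i + 1) j ∈ downT m n i j := by
      rw [← h]; simp [upT]
    simp only [downT, mem_insert, mem_singleton] at h3
    rcases h3 with h3 | h3 | h3 <;> rw [cylA_eq hn (by omega) (by omega)] at h3 <;> grind
  · intro t ht ha hb
    rw [cylA_mem] at ht
    rcases ht with ⟨i', j', h3, h4, rfl⟩ | ⟨i', j', h3, rfl⟩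
    · simp only [upT, mem_insert, mem_singleton] at ha hb
      rcases ha with ha | ha | ha <;> rcases hb with hb | hb | hb <;>
        rw [cylA_eq hn (by omega) (by omega)] at ha hb <;> grind
    · simp only [downT, mem_insert, mem_singleton] at ha hb
      rcases ha with ha | ha | ha <;> rcases hb with hb | hb | hb <;>
        rw [cylA_eq hn (by omega) (by omega)] at ha hb <;> grind

private theorem cylA_S {m n : ℕ} [NeZero m] (hm : 4 ≤ m) (hn : 1 ≤ n) {i0 i : ZMod m} :
    ((cylTri m n).filter (fun t => cpt m n i0 0 ∈ t ∧ cpt m n (i + 1) 1 ∈ t)).card = 2 := by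
  have s1 := cylA_s1 hm
  have s2 := cylA_s2 hm
  have s3 := cylA_inj (m := m)
  refine cylA_of (cylA_down i (show 0 < n by omega)) (cylA_down (i + 1) (show 0 < n by omega))
    ?_ ?_ ?_ ?_ ?_ ?_
  · simp [downT, cylA_eq hn (show 0 ≤ n + 1 by omega) (show 0 ≤ n + 1 by omega)]
  · simp [downT]
  · simp [downT, cylA_eq hn (show 0 ≤ n + 1 by omega) (show 0 ≤ n + 1 by omega)]
  · simp [downT]
  · intro h
    have h3 : cpt m n i 1 ∈ downT m n (i + 1) 0 := by
      rw [← h]; simp [downT]
    simp only [downT, mem_insert, mem_singleton] at h3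
    rcases h3 with h3 | h3 | h3 <;> rw [cylA_eq hn (by omega) (by omega)] at h3 <;> grind
  · intro t ht ha hb
    rw [cylA_mem] at ht
    rcases ht with ⟨i', j', h3, h4, rfl⟩ | ⟨i', j', h3, rfl⟩
    · simp only [upT, mem_insert, mem_singleton] at ha hb
      rcases ha with ha | ha | ha <;> rcases hb with hb | hb | hb <;>
        rw [cylA_eq hn (by omega) (by omega)] at ha hb <;> grind
    · simp only [downT, mem_insert, mem_singleton] at ha hb
      rcases ha with ha | ha | ha <;> rcases hb with hb | hb | hb <;>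
        rw [cylA_eq hn (by omega) (by omega)] at ha hb <;> grind

private theorem cylA_N {m n : ℕ} [NeZero m] (hm : 4 ≤ m) (hn : 1 ≤ n) {i0 i : ZMod m} :
    ((cylTri m n).filter (fun t => cpt m n i0 (n + 1) ∈ t ∧ cpt m n (i + 1) n ∈ t)).card = 2 := by
  have s1 := cylA_s1 hm
  have s2 := cylA_s2 hm
  have s3 := cylA_inj (m := m)
  refine cylA_of (cylA_up i hn le_rfl) (cylA_up (i + 1) hn le_rfl)
    ?_ ?_ ?_ ?_ ?_ ?_
  · simp [upT, cylA_eq hn (show n + 1 ≤ n + 1 by omega) (show n + 1 ≤ n + 1 by omega)]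
  · simp [upT]
  · simp [upT, cylA_eq hn (show n + 1 ≤ n + 1 by omega) (show n + 1 ≤ n + 1 by omega)]
  · simp [upT]
  · intro h
    have h3 : cpt m n i n ∈ upT m n (i + 1) n := by
      rw [← h]; simp [upT]
    simp only [upT, mem_insert, mem_singleton] at h3
    rcases h3 with h3 | h3 | h3 <;> rw [cylA_eq hn (by omega) (by omega)] at h3 <;> grind
  · intro t ht ha hb
    rw [cylA_mem] at ht
    rcases ht with ⟨i', j', h3, h4, rfl⟩ | ⟨i', j', h3, rfl⟩
    · simp only [upT, mem_insert, mem_singleton] at ha hb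
      rcases ha with ha | ha | ha <;> rcases hb with hb | hb | hb <;>
        rw [cylA_eq hn (by omega) (by omega)] at ha hb <;> grind
    · simp only [downT, mem_insert, mem_singleton] at ha hb
      rcases ha with ha | ha | ha <;> rcases hb with hb | hb | hb <;>
        rw [cylA_eq hn (by omega) (by omega)] at ha hb <;> grind

theorem cyl_card {m n : ℕ} [NeZero m] (hm : 4 ≤ m) (hn : 1 ≤ n) :
    ∀ t ∈ cylTri m n, t.card = 3 := by
  have s1 := cylA_s1 hm
  intro t ht
  rw [cylA_mem] at ht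
  rcases ht with ⟨i, j, h3, h4, rfl⟩ | ⟨i, j, h3, rfl⟩
  · unfold upT
    rw [card_eq_three]
    refine ⟨_, _, _, ?_, ?_, ?_, rfl⟩ <;> rw [Ne, cylA_eq hn (by omega) (by omega)] <;> grind
  · unfold downT
    rw [card_eq_three]
    refine ⟨_, _, _, ?_, ?_, ?_, rfl⟩ <;> rw [Ne, cylA_eq hn (by omega) (by omega)] <;> grind

private theorem cylA_swap {m n : ℕ} [NeZero m] {a b : Cyl m n}
    (h : ((cylTri m n).filter (fun t => a ∈ t ∧ b ∈ t)).card = 2) :
    ((cylTri m n).filter (fun t => b ∈ t ∧ a ∈ t)).card = 2 := by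
  rw [← h]
  congr 1
  ext t
  simp only [mem_filter, and_comm]

theorem cyl_two {m n : ℕ} [NeZero m] (hm : 4 ≤ m) (hn : 1 ≤ n) (a b : Cyl m n) (hab : a ≠ b)
    (h : ∃ t ∈ cylTri m n, a ∈ t ∧ b ∈ t) :
    ((cylTri m n).filter (fun t => a ∈ t ∧ b ∈ t)).card = 2 := by
  obtain ⟨t, ht, ha, hb⟩ := h
  rw [cylA_mem] at ht
  rcases ht with ⟨i, j, h3, h4, rfl⟩ | ⟨i, j, h3, rfl⟩
  · -- the three edges of an upper triangle
    have e1 : ((cylTri m n).filter (fun t => cpt m n i j ∈ t ∧ cpt m n (i + 1) j ∈ t)).card = 2 :=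
      cylA_H hm hn h3 h4
    have e2 : ((cylTri m n).filter
        (fun t => cpt m n (i + 1) j ∈ t ∧ cpt m n (i + 1) (j + 1) ∈ t)).card = 2 := by
      rcases Nat.lt_or_ge j n with h5 | h5
      · exact cylA_V hm hn h3 h5
      · obtain rfl : j = n := by omega
        exact cylA_swap (cylA_N hm hn)
    have e3 : ((cylTri m n).filter
        (fun t => cpt m n i j ∈ t ∧ cpt m n (i + 1) (j + 1) ∈ t)).card = 2 := by
      rcases Nat.lt_or_ge j n with h5 | h5
      · exact cylA_D hm hn h3 h5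
      · obtain rfl : j = n := by omega
        have := cylA_swap (cylA_N (i0 := i + 1) (i := i - 1) hm hn)
        rw [sub_add_cancel] at this
        exact this
    simp only [upT, mem_insert, mem_singleton] at ha hb
    rcases ha with rfl | rfl | rfl <;> rcases hb with rfl | rfl | rfl <;>
      first
        | exact absurd rfl hab
        | assumption
        | exact cylA_swap e1
        | exact cylA_swap e2
        | exact cylA_swap e3
  · have e1 : ((cylTri m n).filter
        (fun t => cpt m n i (j + 1) ∈ t ∧ cpt m n (i + 1) (j + 1) ∈ t)).card = 2 :=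
      cylA_H hm hn (by omega) (by omega)
    have e2 : ((cylTri m n).filter
        (fun t => cpt m n i j ∈ t ∧ cpt m n i (j + 1) ∈ t)).card = 2 := by
      rcases Nat.eq_zero_or_pos j with h5 | h5
      · subst h5
        have := cylA_S (i0 := i) (i := i - 1) hm hn
        rw [sub_add_cancel] at this
        exact this
      · have := cylA_V (i := i - 1) hm hn h5 h3
        rw [sub_add_cancel] at this
        exact this
    have e3 : ((cylTri m n).filter
        (fun t => cpt m n i j ∈ t ∧ cpt m n (i + 1) (j + 1) ∈ t)).card = 2 := by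
      rcases Nat.eq_zero_or_pos j with h5 | h5
      · subst h5
        exact cylA_S hm hn
      · exact cylA_D hm hn h5 h3
    simp only [downT, mem_insert, mem_singleton] at ha hb
    rcases ha with rfl | rfl | rfl <;> rcases hb with rfl | rfl | rfl <;>
      first
        | exact absurd rfl hab
        | assumption
        | exact cylA_swap e1
        | exact cylA_swap e2
        | exact cylA_swap e3

end Pool.MP627f83
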