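import Pool.Agent.Lib.MP_627f83_co.Defs
import Pool.Agent.Lib.MP_627f83_co.CylDefs
import Pool.Agent.Lib.MP_627f83_co.CylA

/-!
# CylB: cylinder: the dual graph is connected

Let `S` be a set of triangles such that no edge is in exactly one triangle of `S`. By `cyl_two` two triangles with two
common cells are both in `S` or both not in `S`. `down i 0` and `down (i+1) 0` share the south pole and `cpt (i+1) 1`; `down i j`
and `up i (j+1)` share `cpt i (j+1), cpt (i+1) (j+1)`; `up i j` and `down i j` share `cpt i j, cpt (i+1) (j+1)` (`1 ≤ j < n`). So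
all triangles are connected: every `down i j`, `up i j` is in `S` iff `down i 0` is, iff `down 0 0` is (induction on the column
number). So `S = ∅` or `S` = all triangles.
-/

namespace Pool.MP627f83

open Finset
open scoped Classical

theorem cylB_swap {m n : ℕ} [NeZero m] (hm : 4 ≤ m) (hn : 1 ≤ n) (S : Finset (Finset (Cyl m n)))
    (hS : S ⊆ cylTri m n)
    (hcon : ∀ a b : Cyl m n, a ≠ b → (S.filter (fun t => a ∈ t ∧ b ∈ t)).card ≠ 1)
    (t₁ t₂ : Finset (Cyl m n)) (h₂ : t₂ ∈ cylTri m n)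
    (a b : Cyl m n) (hab : a ≠ b) (ha₁ : a ∈ t₁) (hb₁ : b ∈ t₁) (ha₂ : a ∈ t₂) (hb₂ : b ∈ t₂)
    (h : t₁ ∈ S) : t₂ ∈ S := by
  have h2 := cyl_two hm hn a b hab ⟨t₂, h₂, ha₂, hb₂⟩
  have hsub : S.filter (fun t => a ∈ t ∧ b ∈ t) ⊆ (cylTri m n).filter (fun t => a ∈ t ∧ b ∈ t) :=
    Finset.filter_subset_filter _ hS
  have hpos : 0 < (S.filter (fun t => a ∈ t ∧ b ∈ t)).card :=
    Finset.card_pos.mpr ⟨t₁, Finset.mem_filter.mpr ⟨h, ha₁, hb₁⟩⟩
  have hle := Finset.card_le_card hsub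
  have hne := hcon a b hab
  have heq : S.filter (fun t => a ∈ t ∧ b ∈ t) = (cylTri m n).filter (fun t => a ∈ t ∧ b ∈ t) :=
    Finset.eq_of_subset_of_card_le hsub (by omega)
  have hmem : t₂ ∈ S.filter (fun t => a ∈ t ∧ b ∈ t) := by
    rw [heq]; exact Finset.mem_filter.mpr ⟨h₂, ha₂, hb₂⟩
  exact (Finset.mem_filter.mp hmem).1

theorem cylB_down_mem {m n : ℕ} [NeZero m] (i : ZMod m) (j : ℕ) (hj : j < n) :
    downT m n i j ∈ cylTri m n := by
  unfold cylTri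
  refine Finset.mem_union_right _ (Finset.mem_image.mpr ⟨(i, ⟨j, hj⟩), Finset.mem_univ _, rfl⟩)

theorem cylB_up_mem {m n : ℕ} [NeZero m] (i : ZMod m) (j : ℕ) (hj : j < n) :
    upT m n i (j + 1) ∈ cylTri m n := by
  unfold cylTri
  refine Finset.mem_union_left _ (Finset.mem_image.mpr ⟨(i, ⟨j, hj⟩), Finset.mem_univ _, rfl⟩)

theorem cylB_cpt {m n : ℕ} (i : ZMod m) (j : ℕ) (hj : j < n) :
    cpt m n i (j + 1) = Sum.inr (i, ⟨j, hj⟩) := by
  unfold cpt
  simp [hj]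

theorem cylB_cpt_zero {m n : ℕ} (i : ZMod m) : cpt m n i 0 = Sum.inl false := by
  unfold cpt
  simp

theorem cylB_succ_ne {m : ℕ} (hm : 4 ≤ m) (i : ZMod m) : i ≠ i + 1 := by
  intro h
  have : Fact (1 < m) := ⟨by omega⟩
  have : (1 : ZMod m) = 0 := by
    have := congrArg (fun x => x - i) h
    simpa using this.symm
  exact one_ne_zero this

theorem cylB_row_ne {m n : ℕ} (hm : 4 ≤ m) (i : ZMod m) (j : ℕ) (hj : j < n) :
    cpt m n i (j + 1) ≠ cpt m n (i + 1) (j + 1) := by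
  rw [cylB_cpt i j hj, cylB_cpt (i + 1) j hj]
  intro h
  have h1 := Sum.inr.inj h
  exact cylB_succ_ne hm i (congrArg Prod.fst h1)

theorem cylB_diag_ne {m n : ℕ} (hm : 4 ≤ m) (i : ZMod m) (j : ℕ) (hj : j + 1 < n) :
    cpt m n i (j + 1) ≠ cpt m n (i + 1) (j + 1 + 1) := by
  rw [cylB_cpt i j (by omega), cylB_cpt (i + 1) (j + 1) hj]
  intro h
  have h1 := Sum.inr.inj h
  exact cylB_succ_ne hm i (congrArg Prod.fst h1)

theorem cyl_bd {m n : ℕ} [NeZero m] (hm : 4 ≤ m) (hn : 1 ≤ n) (S : Finset (Finset (Cyl m n))) (hS : S ⊆ cylTri m n)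
    (hne : S.Nonempty) (hne' : S ≠ cylTri m n) :
    ∃ a b, a ≠ b ∧ (S.filter (fun t => a ∈ t ∧ b ∈ t)).card = 1 := by
  by_contra hcon'
  have hcon : ∀ a b : Cyl m n, a ≠ b → (S.filter (fun t => a ∈ t ∧ b ∈ t)).card ≠ 1 := by
    intro a b hab h
    exact hcon' ⟨a, b, hab, h⟩
  have sw : ∀ t₁ t₂ : Finset (Cyl m n), t₁ ∈ cylTri m n → t₂ ∈ cylTri m n → ∀ a b : Cyl m n, a ≠ b →
      a ∈ t₁ → b ∈ t₁ → a ∈ t₂ → b ∈ t₂ → (t₁ ∈ S ↔ t₂ ∈ S) := by
    intro t₁ t₂ h₁ h₂ a b hab ha₁ hb₁ ha₂ hb₂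
    exact ⟨cylB_swap hm hn S hS hcon t₁ t₂ h₂ a b hab ha₁ hb₁ ha₂ hb₂,
      cylB_swap hm hn S hS hcon t₂ t₁ h₁ a b hab ha₂ hb₂ ha₁ hb₁⟩
  have hDU : ∀ (i : ZMod m) (j : ℕ), j < n → (downT m n i j ∈ S ↔ upT m n i (j + 1) ∈ S) := by
    intro i j hj
    refine sw _ _ (cylB_down_mem i j hj) (cylB_up_mem i j hj) _ _ (cylB_row_ne hm i j hj) ?_ ?_ ?_ ?_ <;>
      simp [downT, upT]
  have hUD : ∀ (i : ZMod m) (j : ℕ), j + 1 < n → (upT m n i (j + 1) ∈ S ↔ downT m n i (j + 1) ∈ S) := by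
    intro i j hj
    refine sw _ _ (cylB_up_mem i j (by omega)) (cylB_down_mem i (j + 1) hj) _ _ (cylB_diag_ne hm i j hj) ?_ ?_ ?_ ?_ <;>
      simp [downT, upT]
  have hD0 : ∀ (i : ZMod m) (j : ℕ), j < n → (downT m n i j ∈ S ↔ downT m n i 0 ∈ S) := by
    intro i j
    induction j with
    | zero => intro _; exact Iff.rfl
    | succ j ih =>
      intro hj
      rw [← hUD i j hj, ← hDU i j (by omega)]
      exact ih (by omega)
  have hDs : ∀ i : ZMod m, (downT m n i 0 ∈ S ↔ downT m n (i + 1) 0 ∈ S) := by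
    intro i
    have hn' : 0 < n := by omega
    refine sw _ _ (cylB_down_mem i 0 hn') (cylB_down_mem (i + 1) 0 hn') (Sum.inl false) (cpt m n (i + 1) 1) ?_ ?_ ?_ ?_ ?_
    · rw [cylB_cpt (i + 1) 0 hn']; exact Sum.inl_ne_inr
    · simp [downT, cylB_cpt_zero]
    · simp [downT]
    · simp [downT, cylB_cpt_zero]
    · simp [downT]
  have hDnat : ∀ k : ℕ, (downT m n (k : ZMod m) 0 ∈ S ↔ downT m n 0 0 ∈ S) := by
    intro k
    induction k with
    | zero => simp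
    | succ k ih =>
      rw [Nat.cast_succ, ← hDs]
      exact ih
  have hDall : ∀ i : ZMod m, (downT m n i 0 ∈ S ↔ downT m n 0 0 ∈ S) := by
    intro i
    have := hDnat i.val
    rwa [ZMod.natCast_zmod_val] at this
  have hall : ∀ t ∈ cylTri m n, (t ∈ S ↔ downT m n 0 0 ∈ S) := by
    intro t ht
    unfold cylTri at ht
    rcases Finset.mem_union.mp ht with ht | ht
    · obtain ⟨p, _, rfl⟩ := Finset.mem_image.mp ht
      rw [← hDU p.1 p.2 p.2.2, hD0 p.1 p.2 p.2.2]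
      exact hDall p.1
    · obtain ⟨p, _, rfl⟩ := Finset.mem_image.mp ht
      rw [hD0 p.1 p.2 p.2.2]
      exact hDall p.1
  obtain ⟨t, ht⟩ := hne
  have h0 : downT m n 0 0 ∈ S := (hall t (hS ht)).mp ht
  apply hne'
  apply Finset.Subset.antisymm hS
  intro t' ht'
  exact (hall t' ht').mpr h0

end Pool.MP627f83
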