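import Pool.Agent.Lib.MP_627f83_co.Defs
import Pool.Agent.Lib.MP_627f83_co.CylDefs
import Pool.Agent.Lib.MP_627f83_co.CylA

/-!
# CylC: cylinder: Euler characteristic

`card (Cyl m n) = m n + 2`, `card (cylTri m n) = 2 m n` (the triangles are pairwise different). The number of ordered adjacent
pairs: double counting of `(t, (a,b))` with `a ≠ b` in `t`: every triangle has 6 ordered pairs (`cyl_card`), every ordered
adjacent pair is in exactly 2 triangles (`cyl_two`): `2 * pairs = 6 * 2 m n`. So `2(mn+2) + 2 * 2mn = 6mn + 4`.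
-/

namespace Pool.MP627f83

open Finset
open scoped Classical

theorem cylC_inj {m n : ℕ} {i i' : ZMod m} {j j' : ℕ} (h1 : 1 ≤ j) (h2 : j ≤ n)
    (h : cpt m n i j = cpt m n i' j') : i = i' ∧ j = j' := by
  unfold cpt at h
  have h0 : j ≠ 0 := by omega
  have h3 : j - 1 < n := by omega
  rw [if_neg h0, dif_pos h3] at h
  split_ifs at h with h4 h5
  have h6 := Sum.inr.inj h
  rw [Prod.mk.injEq] at h6
  refine ⟨h6.1, ?_⟩
  have h7 := congrArg Fin.val h6.2
  simp only at h7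
  omega

theorem cylC_north {m n : ℕ} {i i' : ZMod m} {j j' : ℕ} (h1 : n < j) (h2 : j' ≤ n)
    (h : cpt m n i j = cpt m n i' j') : False := by
  unfold cpt at h
  have h0 : j ≠ 0 := by omega
  have h3 : ¬ j - 1 < n := by omega
  rw [if_neg h0, dif_neg h3] at h
  split_ifs at h with h4 h5
  · simp at h
  · omega

theorem cylC_mem_up {m n : ℕ} {i i' : ZMod m} {j j' : ℕ} (h1 : 1 ≤ j) (h2 : j ≤ n)
    (h : cpt m n i j ∈ upT m n i' j') :
    (i = i' ∧ j = j') ∨ (i = i' + 1 ∧ j = j') ∨ (i = i' + 1 ∧ j = j' + 1) := by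
  unfold upT at h
  simp only [mem_insert, mem_singleton] at h
  rcases h with h | h | h
  · exact Or.inl (cylC_inj h1 h2 h)
  · exact Or.inr (Or.inl (cylC_inj h1 h2 h))
  · exact Or.inr (Or.inr (cylC_inj h1 h2 h))

theorem cylC_mem_down {m n : ℕ} {i i' : ZMod m} {j j' : ℕ} (h1 : 1 ≤ j) (h2 : j ≤ n)
    (h : cpt m n i j ∈ downT m n i' j') :
    (i = i' ∧ j = j') ∨ (i = i' ∧ j = j' + 1) ∨ (i = i' + 1 ∧ j = j' + 1) := by
  unfold downT at h
  simp only [mem_insert, mem_singleton] at h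
  rcases h with h | h | h
  · exact Or.inl (cylC_inj h1 h2 h)
  · exact Or.inr (Or.inl (cylC_inj h1 h2 h))
  · exact Or.inr (Or.inr (cylC_inj h1 h2 h))

theorem cylC_one {m : ℕ} (hm : 4 ≤ m) (i : ZMod m) (h : i = i + 1) : False := by
  have : Fact (1 < m) := ⟨by omega⟩
  have h1 : (1 : ZMod m) = 0 := by
    have h2 : i + 0 = i + 1 := by rw [add_zero]; exact h
    exact (add_left_cancel h2).symm
  exact one_ne_zero h1

theorem cylC_two {m : ℕ} (hm : 4 ≤ m) (i : ZMod m) (h : i = i + 1 + 1) : False := by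
  have h2 : i + 0 = i + (1 + 1) := by rw [add_zero, ← add_assoc]; exact h
  have h1 : ((2 : ℕ) : ZMod m) = 0 := by
    have h3 := (add_left_cancel h2).symm
    have h4 : (1 : ZMod m) + 1 = ((2 : ℕ) : ZMod m) := by push_cast; ring
    rw [← h4]; exact h3
  rw [ZMod.natCast_eq_zero_iff] at h1
  have := Nat.le_of_dvd (by norm_num) h1
  omega

theorem cylC_up_inj {m n : ℕ} [NeZero m] (hm : 4 ≤ m) :
    Function.Injective (fun p : ZMod m × Fin n => upT m n p.1 ((p.2 : ℕ) + 1)) := by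
  rintro ⟨i, j⟩ ⟨i', j'⟩ h
  simp only at h
  have hj := j.2
  have hj' := j'.2
  have e1 : cpt m n i ((j : ℕ) + 1) ∈ upT m n i' ((j' : ℕ) + 1) := by
    rw [← h]; unfold upT; simp
  have e2 : cpt m n (i + 1) ((j : ℕ) + 1) ∈ upT m n i' ((j' : ℕ) + 1) := by
    rw [← h]; unfold upT; simp
  have f1 := cylC_mem_up (by omega) (by omega) e1
  have f2 := cylC_mem_up (by omega) (by omega) e2
  rcases f1 with ⟨a1, a2⟩ | ⟨a1, a2⟩ | ⟨a1, a2⟩
  · have : j = j' := Fin.ext (by omega)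
    rw [a1, this]
  · exfalso
    rcases f2 with ⟨b1, b2⟩ | ⟨b1, b2⟩ | ⟨b1, b2⟩
    · rw [a1] at b1; exact cylC_two hm _ b1.symm
    · have := add_right_cancel b1
      rw [a1] at this; exact cylC_one hm _ this.symm
    · omega
  · exfalso
    rcases f2 with ⟨b1, b2⟩ | ⟨b1, b2⟩ | ⟨b1, b2⟩
    · omega
    · omega
    · have := add_right_cancel b1
      rw [a1] at this; exact cylC_one hm _ this.symm

theorem cylC_down_inj {m n : ℕ} [NeZero m] (hm : 4 ≤ m) :
    Function.Injective (fun p : ZMod m × Fin n => downT m n p.1 (p.2 : ℕ)) := by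
  rintro ⟨i, j⟩ ⟨i', j'⟩ h
  simp only at h
  have hj := j.2
  have hj' := j'.2
  have e1 : cpt m n i ((j : ℕ) + 1) ∈ downT m n i' (j' : ℕ) := by
    rw [← h]; unfold downT; simp
  have e2 : cpt m n (i + 1) ((j : ℕ) + 1) ∈ downT m n i' (j' : ℕ) := by
    rw [← h]; unfold downT; simp
  have f1 := cylC_mem_down (by omega) (by omega) e1
  have f2 := cylC_mem_down (by omega) (by omega) e2
  rcases f2 with ⟨a1, a2⟩ | ⟨a1, a2⟩ | ⟨a1, a2⟩
  · exfalso
    rcases f1 with ⟨b1, b2⟩ | ⟨b1, b2⟩ | ⟨b1, b2⟩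
    · rw [← b1] at a1; exact cylC_one hm _ a1.symm
    · rw [← b1] at a1; exact cylC_one hm _ a1.symm
    · omega
  · exfalso
    rcases f1 with ⟨b1, b2⟩ | ⟨b1, b2⟩ | ⟨b1, b2⟩
    · rw [← b1] at a1; exact cylC_one hm _ a1.symm
    · rw [← b1] at a1; exact cylC_one hm _ a1.symm
    · rw [b1] at a1; exact cylC_two hm _ a1.symm
  · have : j = j' := Fin.ext (by omega)
    rw [add_right_cancel a1, this]

theorem cylC_up_ne_down {m n : ℕ} [NeZero m] (hm : 4 ≤ m) (p q : ZMod m × Fin n)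
    (h : upT m n p.1 ((p.2 : ℕ) + 1) = downT m n q.1 (q.2 : ℕ)) : False := by
  obtain ⟨i, j⟩ := p
  obtain ⟨i', j'⟩ := q
  simp only at h
  have hj := j.2
  have hj' := j'.2
  have e1 : cpt m n i ((j : ℕ) + 1) ∈ downT m n i' (j' : ℕ) := by
    rw [← h]; unfold upT; simp
  have e2 : cpt m n (i + 1) ((j : ℕ) + 1) ∈ downT m n i' (j' : ℕ) := by
    rw [← h]; unfold upT; simp
  have e3 : cpt m n (i + 1) ((j : ℕ) + 1 + 1) ∈ downT m n i' (j' : ℕ) := by
    rw [← h]; unfold upT; simp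
  have f1 := cylC_mem_down (by omega) (by omega) e1
  have f2 := cylC_mem_down (by omega) (by omega) e2
  have f3 : (j : ℕ) + 1 + 1 ≤ (j' : ℕ) + 1 := by
    by_cases hn : (j : ℕ) + 1 + 1 ≤ n
    · have := cylC_mem_down (by omega) hn e3
      omega
    · exfalso
      unfold downT at e3
      simp only [mem_insert, mem_singleton] at e3
      rcases e3 with e3 | e3 | e3
      · exact cylC_north (by omega) (by omega) e3
      · exact cylC_north (by omega) (by omega) e3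
      · exact cylC_north (by omega) (by omega) e3
  rcases f1 with ⟨b1, b2⟩ | ⟨b1, b2⟩ | ⟨b1, b2⟩
  · rcases f2 with ⟨a1, a2⟩ | ⟨a1, a2⟩ | ⟨a1, a2⟩
    · rw [← b1] at a1; exact cylC_one hm _ a1.symm
    · rw [← b1] at a1; exact cylC_one hm _ a1.symm
    · omega
  · omega
  · omega

theorem cylC_card_tri {m n : ℕ} [NeZero m] (hm : 4 ≤ m) :
    (cylTri m n).card = 2 * (m * n) := by
  unfold cylTri
  rw [card_union_of_disjoint]
  · rw [card_image_of_injective _ (cylC_up_inj hm), card_image_of_injective _ (cylC_down_inj hm)]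
    simp only [card_univ, Fintype.card_prod, ZMod.card, Fintype.card_fin]
    ring
  · rw [disjoint_left]
    intro t h1 h2
    simp only [mem_image, mem_univ, true_and] at h1 h2
    obtain ⟨p, rfl⟩ := h1
    obtain ⟨q, hq⟩ := h2
    exact cylC_up_ne_down hm p q hq.symm

theorem cyl_euler {m n : ℕ} [NeZero m] (hm : 4 ≤ m) (hn : 1 ≤ n) :
    2 * Fintype.card (Cyl m n) + 2 * (cylTri m n).card =
      (univ.filter (fun p : Cyl m n × Cyl m n =>
        p.1 ≠ p.2 ∧ ∃ t ∈ cylTri m n, p.1 ∈ t ∧ p.2 ∈ t)).card + 4 := by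
  have hC : Fintype.card (Cyl m n) = 2 + m * n := by
    simp only [Fintype.card_sum, Fintype.card_bool, Fintype.card_prod, ZMod.card,
      Fintype.card_fin]
  have hT := cylC_card_tri (n := n) hm
  set Pr := univ.filter (fun p : Cyl m n × Cyl m n =>
        p.1 ≠ p.2 ∧ ∃ t ∈ cylTri m n, p.1 ∈ t ∧ p.2 ∈ t) with hPr
  have hdc : ∑ p ∈ Pr, ((cylTri m n).filter (fun t => p.1 ∈ t ∧ p.2 ∈ t)).card =
      ∑ t ∈ cylTri m n, (Pr.filter (fun p => p.1 ∈ t ∧ p.2 ∈ t)).card := by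
    simp only [card_filter]
    rw [sum_comm]
  have h2 : ∑ p ∈ Pr, ((cylTri m n).filter (fun t => p.1 ∈ t ∧ p.2 ∈ t)).card = Pr.card * 2 := by
    rw [sum_const_nat]
    intro p hp
    rw [hPr, mem_filter] at hp
    exact cyl_two hm hn p.1 p.2 hp.2.1 hp.2.2
  have h6 : ∑ t ∈ cylTri m n, (Pr.filter (fun p => p.1 ∈ t ∧ p.2 ∈ t)).card =
      (cylTri m n).card * 6 := by
    rw [sum_const_nat]
    intro t ht
    have h3 : Pr.filter (fun p => p.1 ∈ t ∧ p.2 ∈ t) = t.offDiag := by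
      ext p
      simp only [hPr, mem_filter, mem_univ, true_and, mem_offDiag]
      constructor
      · rintro ⟨⟨h1, _⟩, h3, h4⟩
        exact ⟨h3, h4, h1⟩
      · rintro ⟨h3, h4, h1⟩
        exact ⟨⟨h1, t, ht, h3, h4⟩, h3, h4⟩
    rw [h3, offDiag_card, cyl_card hm hn t ht]
  rw [hC, hT]
  rw [h2, h6, hT] at hdc
  omega

end Pool.MP627f83
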