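import Pool.Agent.Lib.MP_627f83_co.Defs
import Pool.Agent.Lib.MP_627f83_co.CylDefs
import Pool.Agent.Lib.MP_627f83_co.CylA
import Pool.Agent.Lib.MP_627f83_co.CylB
import Pool.Agent.Lib.MP_627f83_co.CylC
import Pool.Agent.Lib.MP_627f83_co.ConnA

/-!
# CylD: existence of a sphere with a large grid

`m = N + 4`, `n = N + 1`, `o` = south pole `Sum.inl false`, `g (i,j) = cpt i (j + 1)` for `i, j ≤ N`. `Z.cover`: every cell is in a
triangle. The cells different from the south pole form a connected set: every cell of row `j ≥ 1` is joined to `cpt 0 1`: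
rows are connected (`cpt i j` adjacent to `cpt (i+1) j`), columns are connected, the north pole is adjacent to row
`n`. (For a proper subset `B` without outgoing adjacency: all rows and columns are inside or outside.)
-/

namespace Pool.MP627f83

open Finset
open scoped Classical

theorem cylD_up_mem {m n : ℕ} [NeZero m] (i : ZMod m) {j : ℕ} (h1 : 1 ≤ j) (h2 : j ≤ n) :
    upT m n i j ∈ cylTri m n := by
  refine mem_union_left _ (mem_image.2 ⟨(i, ⟨j - 1, by omega⟩), mem_univ _, ?_⟩)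
  show upT m n i (j - 1 + 1) = _
  rw [Nat.sub_add_cancel h1]

theorem cylD_down_mem {m n : ℕ} [NeZero m] (i : ZMod m) {j : ℕ} (h2 : j < n) :
    downT m n i j ∈ cylTri m n :=
  mem_union_right _ (mem_image.2 ⟨(i, ⟨j, h2⟩), mem_univ _, rfl⟩)

theorem cylD_zero (m n : ℕ) (i : ZMod m) : cpt m n i 0 = Sum.inl false := by simp [cpt]

theorem cylD_mid (m n : ℕ) (i : ZMod m) {j : ℕ} (h : j < n) :
    cpt m n i (j + 1) = Sum.inr (i, ⟨j, h⟩) := by
  simp [cpt, h]

theorem cylD_top (m n : ℕ) (i : ZMod m) {j : ℕ} (h : n ≤ j) :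
    cpt m n i (j + 1) = Sum.inl true := by
  simp [cpt, Nat.not_lt.2 h]

theorem cylD_ne_zero (m n : ℕ) (i : ZMod m) (j : ℕ) : cpt m n i (j + 1) ≠ Sum.inl false := by
  rcases lt_or_ge j n with h | h
  · rw [cylD_mid m n i h]; simp
  · rw [cylD_top m n i h]; simp

theorem cylD_surj {m n : ℕ} [NeZero m] (c : Cyl m n) (hc : c ≠ Sum.inl false) :
    ∃ i : ZMod m, ∃ j, j ≤ n ∧ c = cpt m n i (j + 1) := by
  rcases c with b | ⟨i, k⟩
  · cases b
    · exact absurd rfl hc
    · exact ⟨0, n, le_rfl, (cylD_top m n 0 le_rfl).symm⟩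
  · exact ⟨i, k, k.2.le, (cylD_mid m n i k.2).symm⟩

theorem cylD_one_ne {m : ℕ} (hm : 4 ≤ m) (i : ZMod m) : i ≠ i + 1 := by
  intro h
  have h1 : (1 : ZMod m) = 0 := by
    have := congrArg (fun x => x - i) h
    simpa using this.symm
  have : Fact (1 < m) := ⟨by omega⟩
  exact one_ne_zero h1

theorem cylD_cover {m n : ℕ} [NeZero m] (hn : 1 ≤ n) (a : Cyl m n) :
    ∃ t ∈ cylTri m n, a ∈ t := by
  by_cases ha : a = Sum.inl false
  · refine ⟨downT m n 0 0, cylD_down_mem 0 (by omega), ?_⟩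
    rw [ha, ← cylD_zero m n 0]
    simp [downT]
  · obtain ⟨i, j, hj, rfl⟩ := cylD_surj a ha
    rcases Nat.eq_zero_or_pos j with h0 | h0
    · subst h0
      exact ⟨downT m n i 0, cylD_down_mem i (by omega), by simp [downT]⟩
    · refine ⟨upT m n (i - 1) j, cylD_up_mem (i - 1) h0 hj, ?_⟩
      simp [upT]

/-- the sphere -/
noncomputable def cylSphere (m n : ℕ) [NeZero m] (hm : 4 ≤ m) (hn : 1 ≤ n) :
    TriSphere (Cyl m n) where
  tri := cylTri m n
  card_tri := cyl_card hm hn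
  two := fun a b hab h => by
    have := cyl_two hm hn a b hab h
    convert this
  bd := fun S hS h1 h2 => by
    obtain ⟨a, b, h3, h4⟩ := cyl_bd hm hn S hS h1 h2
    refine ⟨a, b, h3, ?_⟩
    convert h4
  cover := cylD_cover hn
  euler := by
    have := cyl_euler (m := m) (n := n) hm hn
    convert this

theorem cylD_adj_row {m n : ℕ} [NeZero m] (hm : 4 ≤ m) (hn : 1 ≤ n) (i : ZMod m) {j : ℕ}
    (hj : j < n) :
    (cylSphere m n hm hn).Adj (cpt m n i (j + 1)) (cpt m n (i + 1) (j + 1)) := by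
  refine ⟨?_, upT m n i (j + 1), cylD_up_mem i (by omega) (by omega), by simp [upT],
    by simp [upT]⟩
  rw [cylD_mid m n i hj, cylD_mid m n (i + 1) hj]
  intro h
  have := cylD_one_ne hm i
  simp only [Sum.inr.injEq, Prod.mk.injEq] at h
  exact this h.1

theorem cylD_adj_col {m n : ℕ} [NeZero m] (hm : 4 ≤ m) (hn : 1 ≤ n) (i : ZMod m) {j : ℕ}
    (hj : j + 1 < n) :
    (cylSphere m n hm hn).Adj (cpt m n i (j + 1)) (cpt m n i (j + 1 + 1)) := by
  refine ⟨?_, downT m n i (j + 1), cylD_down_mem i hj, by simp [downT],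
    by simp [downT]⟩
  rw [cylD_mid m n i (Nat.lt_of_succ_lt hj), cylD_mid m n i hj]
  intro h
  simp only [Sum.inr.injEq, Prod.mk.injEq, Fin.mk.injEq] at h
  omega

theorem cylD_adj_top {m n : ℕ} [NeZero m] (hm : 4 ≤ m) (hn : 1 ≤ n) (i : ZMod m) {j : ℕ}
    (hj : j + 1 = n) :
    (cylSphere m n hm hn).Adj (cpt m n i (j + 1)) (cpt m n (i + 1) (j + 1 + 1)) := by
  refine ⟨?_, upT m n i (j + 1), cylD_up_mem i (by omega) (by omega), by simp [upT],
    by simp [upT]⟩
  rw [cylD_mid m n i (by omega : j < n), cylD_top m n (i + 1) (by omega : n ≤ j + 1)]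
  simp

theorem cylD_conn {m n : ℕ} [NeZero m] (hm : 4 ≤ m) (hn : 1 ≤ n) :
    (cylSphere m n hm hn).Conn (univ \ {Sum.inl false}) := by
  have hmem : ∀ (i : ZMod m) (j : ℕ), cpt m n i (j + 1) ∈
      ((univ : Finset (Cyl m n)) \ {Sum.inl false}) := by
    intro i j
    simp only [mem_sdiff, mem_univ, true_and, mem_singleton]
    exact cylD_ne_zero m n i j
  refine ⟨⟨cpt m n 0 (0 + 1), hmem 0 0⟩, ?_⟩
  intro B hB hne hne'
  by_contra hcon
  have hstep : ∀ a ∈ ((univ : Finset (Cyl m n)) \ {Sum.inl false}),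
      ∀ b ∈ ((univ : Finset (Cyl m n)) \ {Sum.inl false}),
      (cylSphere m n hm hn).Adj a b → (a ∈ B ↔ b ∈ B) := by
    intro a ha b hb hab
    constructor
    · intro h
      by_contra h'
      exact hcon ⟨a, h, b, hb, h', hab⟩
    · intro h
      by_contra h'
      exact hcon ⟨b, h, a, ha, h', adj_symm _ hab⟩
  have hrow : ∀ i : ZMod m, (cpt m n i (0 + 1) ∈ B ↔ cpt m n (i + 1) (0 + 1) ∈ B) := fun i =>
    hstep _ (hmem i 0) _ (hmem (i + 1) 0) (cylD_adj_row hm hn i (by omega))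
  have hrow' : ∀ k : ℕ, (cpt m n 0 (0 + 1) ∈ B ↔ cpt m n (k : ZMod m) (0 + 1) ∈ B) := by
    intro k
    induction k with
    | zero => simp
    | succ k ih =>
      rw [ih, hrow]
      push_cast
      rfl
  have hrow2 : ∀ i : ZMod m, (cpt m n i (0 + 1) ∈ B ↔ cpt m n 0 (0 + 1) ∈ B) := by
    intro i
    have := hrow' i.val
    rw [ZMod.natCast_val, ZMod.cast_id] at this
    exact this.symm
  have hcol : ∀ (i : ZMod m) (j : ℕ), j < n →
      (cpt m n i (j + 1) ∈ B ↔ cpt m n 0 (0 + 1) ∈ B) := by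
    intro i j
    induction j with
    | zero => intro _; exact hrow2 i
    | succ j ih =>
      intro hj
      rw [← ih (Nat.lt_of_succ_lt hj)]
      exact (hstep _ (hmem i j) _ (hmem i (j + 1)) (cylD_adj_col hm hn i hj)).symm
  have htop : ∀ (i : ZMod m), (cpt m n i (n + 1) ∈ B ↔ cpt m n 0 (0 + 1) ∈ B) := by
    intro i
    obtain ⟨j, rfl⟩ : ∃ j, n = j + 1 := ⟨n - 1, by omega⟩
    rw [← hcol (i - 1) j (by omega)]
    have h := cylD_adj_top hm hn (i - 1) (j := j) rfl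
    rw [sub_add_cancel] at h
    exact (hstep _ (hmem (i - 1) j) _ (hmem i (j + 1)) h).symm
  have hall : ∀ c : Cyl m n, c ≠ Sum.inl false → (c ∈ B ↔ cpt m n 0 (0 + 1) ∈ B) := by
    intro c hc
    obtain ⟨i, j, hj, rfl⟩ := cylD_surj c hc
    rcases Nat.lt_or_ge j n with h | h
    · exact hcol i j h
    · have : j = n := by omega
      subst this
      exact htop i
  obtain ⟨b, hb⟩ := hne
  have hb' : b ≠ Sum.inl false := by
    have := hB hb
    simpa using this
  have h0 : cpt m n 0 (0 + 1) ∈ B := (hall b hb').1 hb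
  apply hne'
  apply Finset.Subset.antisymm hB
  intro c hc
  have hc' : c ≠ Sum.inl false := by simpa using hc
  exact (hall c hc').2 h0

theorem exists_sphere (N : ℕ) :
    ∃ (C : Type) (_ : Fintype C) (_ : DecidableEq C) (Z : TriSphere C) (o : C)
      (g : ℕ × ℕ → C), Z.Conn (univ \ {o}) ∧
      (∀ p q : ℕ × ℕ, p.1 ≤ N → p.2 ≤ N → q.1 ≤ N → q.2 ≤ N → g p = g q → p = q) ∧
      (∀ p : ℕ × ℕ, p.1 ≤ N → p.2 ≤ N → g p ≠ o) ∧
      (∀ i j, i + 1 ≤ N → j ≤ N → Z.Adj (g (i, j)) (g (i + 1, j))) ∧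
      (∀ i j, i ≤ N → j + 1 ≤ N → Z.Adj (g (i, j)) (g (i, j + 1))) := by
  have hm : 4 ≤ N + 4 := by omega
  have hn : 1 ≤ N + 1 := by omega
  refine ⟨Cyl (N + 4) (N + 1), inferInstance, inferInstance, cylSphere (N + 4) (N + 1) hm hn,
    Sum.inl false, fun p => cpt (N + 4) (N + 1) (p.1 : ZMod (N + 4)) (p.2 + 1),
    cylD_conn hm hn, ?_, ?_, ?_, ?_⟩
  · rintro ⟨a, b⟩ ⟨c, d⟩ h1 h2 h3 h4 h
    simp only at h1 h2 h3 h4 h
    rw [cylD_mid _ _ _ (by omega : b < N + 1), cylD_mid _ _ _ (by omega : d < N + 1)] at h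
    simp only [Sum.inr.injEq, Prod.mk.injEq, Fin.mk.injEq] at h
    obtain ⟨h5, h6⟩ := h
    rw [ZMod.natCast_eq_natCast_iff'] at h5
    rw [Nat.mod_eq_of_lt (by omega), Nat.mod_eq_of_lt (by omega)] at h5
    rw [h5, h6]
  · rintro ⟨a, b⟩ _ _
    exact cylD_ne_zero _ _ _ _
  · intro i j hi hj
    have := cylD_adj_row hm hn (i : ZMod (N + 4)) (j := j) (by omega)
    push_cast
    exact this
  · intro i j hi hj
    exact cylD_adj_col hm hn (i : ZMod (N + 4)) (j := j) (by omega)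

end Pool.MP627f83
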