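import Pool.Agent.Lib.MP_627f83_co.Problem

/-!
# MP_627f83_co: row treewidth of k-matching-planar graphs.  Definitions (FINAL, do not change)

The notions of the problem are in `Problem`; here are the discrete notions used in the proof.  `TriSphere` is a triangulated closed surface
with Euler characteristic `2` (used only through counting), `Model` is the discrete version of a
`k`-matching-planar drawing: every vertex and every edge of the graph (an item) occupies a connected
set of cells, and the items that meet a given item have a vertex cover with at most `s` elements.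
-/

namespace Pool.MP627f83

open Finset
open scoped Classical

/-! ## Triangulated spheres, used only through counting -/

/-- A triangulated closed surface with Euler characteristic `2`: a finite set of triangles such
that every edge is in exactly two triangles, the dual graph is connected (every proper nonempty set
of triangles has an edge in exactly one of its triangles), and `V - E + F = 2`. -/
structure TriSphere (C : Type) [Fintype C] [DecidableEq C] where
  /-- the triangles -/
  tri : Finset (Finset C)
  card_tri : ∀ t ∈ tri, t.card = 3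
  two : ∀ a b, a ≠ b → (∃ t ∈ tri, a ∈ t ∧ b ∈ t) →
    (tri.filter (fun t => a ∈ t ∧ b ∈ t)).card = 2
  bd : ∀ S ⊆ tri, S.Nonempty → S ≠ tri →
    ∃ a b, a ≠ b ∧ (S.filter (fun t => a ∈ t ∧ b ∈ t)).card = 1
  cover : ∀ a, ∃ t ∈ tri, a ∈ t
  euler : 2 * Fintype.card C + 2 * tri.card =
    (univ.filter (fun p : C × C => p.1 ≠ p.2 ∧ ∃ t ∈ tri, p.1 ∈ t ∧ p.2 ∈ t)).card + 4

section Sphere

variable {C : Type} [Fintype C] [DecidableEq C]

/-- Two cells are adjacent if they are distinct and in a common triangle. -/
def TriSphere.Adj (Z : TriSphere C) (a b : C) : Prop := a ≠ b ∧ ∃ t ∈ Z.tri, a ∈ t ∧ b ∈ t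

/-- `A` is connected: nonempty, and every proper nonempty subset has an adjacency to the rest. -/
def TriSphere.Conn (Z : TriSphere C) (A : Finset C) : Prop :=
  A.Nonempty ∧ ∀ B ⊆ A, B.Nonempty → B ≠ A → ∃ a ∈ B, ∃ b ∈ A, b ∉ B ∧ Z.Adj a b

/-- The sets `A` and `B` are adjacent. -/
def TriSphere.Adjs (Z : TriSphere C) (A B : Finset C) : Prop := ∃ a ∈ A, ∃ b ∈ B, Z.Adj a b

/-- The component of `c` in `A` (empty if `c` is not in `A`). -/
noncomputable def TriSphere.comp (Z : TriSphere C) (A : Finset C) (c : C) : Finset C :=
  A.filter (fun x => ∃ B ⊆ A, c ∈ B ∧ x ∈ B ∧ Z.Conn B)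

/-- number of ordered pairs of adjacent cells of `A` (twice the number of edges) -/
noncomputable def TriSphere.e2 (Z : TriSphere C) (A : Finset C) : ℕ :=
  ((A ×ˢ A).filter (fun p : C × C => Z.Adj p.1 p.2)).card

/-- number of triangles inside `A` -/
noncomputable def TriSphere.f (Z : TriSphere C) (A : Finset C) : ℕ :=
  (Z.tri.filter (fun t => t ⊆ A)).card

/-- A partition of the cells into `n` connected pairwise adjacent classes. -/
structure TriSphere.Part (Z : TriSphere C) (n : ℕ) (X : Fin n → Finset C) : Prop where
  conn : ∀ i, Z.Conn (X i)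
  disj : ∀ i j, i ≠ j → Disjoint (X i) (X j)
  cov : ∀ c, ∃ i, c ∈ X i
  adj : ∀ i j, i ≠ j → Z.Adjs (X i) (X j)

/-- A state: the region `Om` and the `n` classes `X i` of its complement form a partition into
connected pairwise adjacent classes. -/
structure TriSphere.State (Z : TriSphere C) (n : ℕ) (Om : Finset C) (X : Fin n → Finset C) :
    Prop where
  conn : Z.Conn Om
  connX : ∀ i, Z.Conn (X i)
  disj : ∀ i, Disjoint Om (X i)
  disjX : ∀ i j, i ≠ j → Disjoint (X i) (X j)
  cov : ∀ c, c ∈ Om ∨ ∃ i, c ∈ X i
  adjX : ∀ i j, i ≠ j → Z.Adjs (X i) (X j)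
  adj : ∀ i, Z.Adjs Om (X i)

end Sphere

/-! ## The discrete model -/

/-- The discrete model.  An item is a vertex or an edge of `G` (or anything else); it has a set of
end vertices, occupies a connected set of cells, and `cov κ` is a set of at most `s` vertices which
contains an end of every item that meets `κ`. -/
structure Model (V C ι : Type) [Fintype V] [DecidableEq V] [Fintype C] [DecidableEq C] where
  /-- the sphere -/
  Z : TriSphere C
  /-- the outer cell -/
  o : C
  /-- the graph -/
  G : SimpleGraph V
  /-- the bound -/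
  s : ℕ
  /-- the cell of a vertex -/
  h : V → C
  /-- ends of an item -/
  ends : ι → Finset V
  /-- cells of an item -/
  cells : ι → Finset C
  /-- a vertex cover of the items that meet the item -/
  cov : ι → Finset V
  cells_conn : ∀ κ, Z.Conn (cells κ)
  h_mem : ∀ κ, ∀ v ∈ ends κ, h v ∈ cells κ
  hit : ∀ κ μ, (∃ c ∈ cells κ, c ∈ cells μ) → ∃ v ∈ ends κ, v ∈ cov μ
  cov_card : ∀ κ, (cov κ).card ≤ s
  vtx : ∀ v, ∃ κ, ends κ = {v} ∧ cells κ = {h v}
  edge : ∀ v w, G.Adj v w → ∃ κ, ends κ = {v, w}
  o_not : ∀ κ, o ∉ cells κ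
  root_conn : Z.Conn (univ \ {o})

section M

variable {V C ι : Type} [Fintype V] [DecidableEq V] [Fintype C] [DecidableEq C]

/-- `K` hits all items that meet `A`. -/
def Model.Hits (m : Model V C ι) (K : Finset V) (A : Finset C) : Prop :=
  ∀ κ, (∃ c ∈ A, c ∈ m.cells κ) → ∃ v ∈ m.ends κ, v ∈ K

/-- The level of a cell: the least size of a hitting set of a connected set of cells that contains
the outer cell and the given cell. -/
noncomputable def Model.lev (m : Model V C ι) (c : C) : ℕ :=
  sInf {n | ∃ (K : Finset V) (A : Finset C), m.Z.Conn A ∧ m.o ∈ A ∧ c ∈ A ∧ m.Hits K A ∧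
    K.card = n}

/-- The level of a vertex. -/
noncomputable def Model.L (m : Model V C ι) (v : V) : ℕ := m.lev (m.h v)

/-- The region of a node. A node is the list of the regions on the way to it (last one first). -/
def Model.Om (m : Model V C ι) : List (Finset C) → Finset C
  | [] => univ \ {m.o}
  | U :: _ => U

/-- The data of a recursive decomposition: for every node `l` the set `Y l = M l ∪ E l` of cells of
its tripod (main part and end part), the covers `CM l` and `CE l` of the two parts, and the set
`T l` of the ancestors whose tripods bound the region of `l`. -/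
structure Sys (V C : Type) where
  M : List (Finset C) → Finset C
  E : List (Finset C) → Finset C
  CM : List (Finset C) → Finset V
  CE : List (Finset C) → Finset V
  T : List (Finset C) → Finset (List (Finset C))

/-- cells of the tripod of a node -/
def Sys.Y (S : Sys V C) (l : List (Finset C)) : Finset C := S.M l ∪ S.E l

/-- cover of the tripod of a node -/
def Sys.CY (S : Sys V C) (l : List (Finset C)) : Finset V := S.CM l ∪ S.CE l

/-- cover of the tripod of a node and of the tripods on the boundary of its region -/
noncomputable def Sys.CC (S : Sys V C) (l : List (Finset C)) : Finset V :=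
  S.CY l ∪ (S.T l).biUnion S.CY

/-- the component of the cell `c` after removal of the tripod of `l` from the region of `l` -/
noncomputable def Sys.cmp (S : Sys V C) (m : Model V C ι) (l : List (Finset C)) (c : C) :
    Finset C := m.Z.comp (m.Om l \ S.Y l) c

/-- The vertices introduced at the node `l`, if `I` is the set of the vertices introduced before.
A free vertex is introduced if its cell is on the tripod, or if it is in the cover `CC l` and has a
neighbour outside its component which is free or not in the cover. -/
noncomputable def Sys.Nf (S : Sys V C) (m : Model V C ι) (l : List (Finset C)) (I : Finset V) :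
    Finset V :=
  univ.filter (fun v => m.h v ∈ m.Om l ∧ v ∉ I ∧ (m.h v ∈ S.Y l ∨
    (v ∈ S.CC l ∧ ∃ w, m.G.Adj v w ∧ m.h w ∉ S.cmp m l (m.h v) ∧
      (w ∉ S.CC l ∨ (m.h w ∈ m.Om l ∧ w ∉ I)))))

/-- The vertices introduced at the proper ancestors of a node. -/
noncomputable def Sys.Intro (S : Sys V C) (m : Model V C ι) : List (Finset C) → Finset V
  | [] => ∅
  | _ :: l => Sys.Intro S m l ∪ S.Nf m l (Sys.Intro S m l)

/-- The vertices introduced at the node `l`. -/
noncomputable def Sys.N (S : Sys V C) (m : Model V C ι) (l : List (Finset C)) : Finset V :=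
  S.Nf m l (S.Intro m l)

/-- The free vertices of a node: their cell is in its region and they are not introduced at a
proper ancestor. -/
noncomputable def Sys.F (S : Sys V C) (m : Model V C ι) (l : List (Finset C)) : Finset V :=
  univ.filter (fun v => m.h v ∈ m.Om l ∧ v ∉ S.Intro m l)

/-- The nodes: `[]` is the root, and the children of `l` are the components of the region of `l`
minus its tripod. -/
inductive Sys.Nd (S : Sys V C) (m : Model V C ι) : List (Finset C) → Prop
  | nil : Sys.Nd S m []
  | cons (l : List (Finset C)) (c : C) : Sys.Nd S m l → c ∈ m.Om l \ S.Y l →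
      Sys.Nd S m (S.cmp m l c :: l)

/-- The properties of the data of a recursive decomposition. -/
structure Sys.Valid (S : Sys V C) (m : Model V C ι) : Prop where
  Y_sub : ∀ l, S.Nd m l → S.Y l ⊆ m.Om l
  Y_ne : ∀ l, S.Nd m l → (S.Y l).Nonempty
  T_nil : S.T [] = ∅
  T_cons : ∀ U l, S.Nd m (U :: l) → S.T (U :: l) ⊆ insert l (S.T l)
  T_card : ∀ l, S.Nd m l → (S.T l).card ≤ 3
  bdry : ∀ l, S.Nd m l → ∀ c ∈ m.Om l, ∀ d, d ∉ m.Om l → m.Z.Adj c d →
    d = m.o ∨ ∃ t ∈ S.T l, d ∈ S.Y t
  M_free : ∀ l, S.Nd m l → ∀ κ, (∃ c ∈ S.M l, c ∈ m.cells κ) → ∀ v ∈ m.ends κ, v ∉ S.Intro m l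
  CM_sub : ∀ l, S.Nd m l → S.CM l ⊆ S.F m l
  CM_hit : ∀ l, S.Nd m l → ∀ κ, (∃ c ∈ S.M l, c ∈ m.cells κ) → m.ends κ ⊆ S.F m l →
    ∃ v ∈ m.ends κ, v ∈ S.CM l
  CM_layer : ∀ l, S.Nd m l → ∀ j, ((S.CM l).filter (fun v => m.L v = j)).card ≤ 6 * m.s
  CE_hit : ∀ l, S.Nd m l → m.Hits (S.CE l) (S.E l)
  CE_card : ∀ l, S.Nd m l → (S.CE l).card ≤ 6 * m.s

end M

end Pool.MP627f83
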