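import Pool.Agent.Lib.MP_627f83_co.Defs
import Pool.Agent.Lib.MP_627f83_co.ConnA

/-!
# LevA: levels: basic facts

* `ends_ne`: `m.hit κ κ` (the cells of `κ` are nonempty).
* `cov_hits`: this is `m.hit`.
* `lev_spec`: `Nat.sInf_mem`; the set is nonempty: `K = univ`, `A = univ` (`univ` is connected: `m.root_conn` and
  `{o}`; `o` is adjacent to some other cell, because by `Z.cover` it is in a triangle, which has 3 cells).
* `lev_le`: `Nat.sInf_le`.
* `L_edge`: optimal pair `(K, A)` for `h v`; take `K ∪ cov κ`, `A ∪ cells κ`, `κ` the item of the edge `{v,w}`.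
-/

namespace Pool.MP627f83

open Finset
open scoped Classical

variable {V C ι : Type} [Fintype V] [DecidableEq V] [Fintype C] [DecidableEq C]

theorem ends_ne (m : Model V C ι) (κ : ι) : ∃ v, v ∈ m.ends κ := by
  obtain ⟨c, hc⟩ := (m.cells_conn κ).1
  obtain ⟨v, hv, -⟩ := m.hit κ κ ⟨c, hc, hc⟩
  exact ⟨v, hv⟩

theorem cov_hits (m : Model V C ι) (κ : ι) : m.Hits (m.cov κ) (m.cells κ) := by
  intro μ hμ
  obtain ⟨c, hc, hc'⟩ := hμ
  exact m.hit μ κ ⟨c, hc', hc⟩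

theorem hits_mono (m : Model V C ι) {K K' : Finset V} {A A' : Finset C} (h : m.Hits K A)
    (hK : K ⊆ K') (hA : A' ⊆ A) : m.Hits K' A' := by
  intro κ hκ
  obtain ⟨c, hc, hc'⟩ := hκ
  obtain ⟨v, hv, hvK⟩ := h κ ⟨c, hA hc, hc'⟩
  exact ⟨v, hv, hK hvK⟩

theorem hits_union (m : Model V C ι) {K K' : Finset V} {A A' : Finset C} (h : m.Hits K A)
    (h' : m.Hits K' A') : m.Hits (K ∪ K') (A ∪ A') := by
  intro κ hκ
  obtain ⟨c, hc, hc'⟩ := hκ
  rcases mem_union.1 hc with h1 | h1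
  · obtain ⟨v, hv, hvK⟩ := h κ ⟨c, h1, hc'⟩
    exact ⟨v, hv, mem_union_left _ hvK⟩
  · obtain ⟨v, hv, hvK⟩ := h' κ ⟨c, h1, hc'⟩
    exact ⟨v, hv, mem_union_right _ hvK⟩

theorem conn_univ (m : Model V C ι) : m.Z.Conn (univ : Finset C) := by
  have h1 : (univ : Finset C) = (univ \ {m.o}) ∪ {m.o} := by
    ext c
    simp only [mem_univ, mem_union, mem_sdiff, mem_singleton, true_and, true_iff]
    exact (em (c = m.o)).symm
  rw [h1]
  refine conn_union m.Z m.root_conn (conn_singleton m.Z m.o) (Or.inr ?_)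
  obtain ⟨t, ht, hot⟩ := m.Z.cover m.o
  have h3 := m.Z.card_tri t ht
  obtain ⟨b, hb, hbo⟩ := exists_mem_ne (s := t) (by omega) m.o
  refine ⟨b, ?_, m.o, mem_singleton_self _, hbo, t, ht, hb, hot⟩
  rw [mem_sdiff, mem_singleton]
  exact ⟨mem_univ b, hbo⟩

theorem lev_spec (m : Model V C ι) (c : C) : ∃ (K : Finset V) (A : Finset C),
    m.Z.Conn A ∧ m.o ∈ A ∧ c ∈ A ∧ m.Hits K A ∧ K.card = m.lev c := by
  have h := Nat.sInf_mem (s := {n | ∃ (K : Finset V) (A : Finset C), m.Z.Conn A ∧ m.o ∈ A ∧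
    c ∈ A ∧ m.Hits K A ∧ K.card = n}) ⟨_, univ, univ, conn_univ m, mem_univ _, mem_univ _, (by
      intro κ _
      obtain ⟨v, hv⟩ := ends_ne m κ
      exact ⟨v, hv, mem_univ v⟩), rfl⟩
  exact h

theorem lev_le (m : Model V C ι) {c : C} {K : Finset V} {A : Finset C} (hA : m.Z.Conn A)
    (ho : m.o ∈ A) (hc : c ∈ A) (hK : m.Hits K A) : m.lev c ≤ K.card :=
  Nat.sInf_le ⟨K, A, hA, ho, hc, hK, rfl⟩

theorem L_edge (m : Model V C ι) {v w : V} (h : m.G.Adj v w) : m.L w ≤ m.L v + m.s := by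
  obtain ⟨K, A, hA, ho, hv, hK, hcard⟩ := lev_spec m (m.h v)
  obtain ⟨κ, hκ⟩ := m.edge v w h
  have hv' : m.h v ∈ m.cells κ := m.h_mem κ v (by rw [hκ]; exact mem_insert_self _ _)
  have hw' : m.h w ∈ m.cells κ := m.h_mem κ w (by
    rw [hκ]
    exact mem_insert_of_mem (mem_singleton_self _))
  have h1 := lev_le m (conn_union m.Z hA (m.cells_conn κ) (Or.inl ⟨m.h v, hv, hv'⟩))
    (mem_union_left _ ho) (mem_union_right _ hw') (hits_union m hK (cov_hits m κ))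
  have h2 : (K ∪ m.cov κ).card ≤ K.card + (m.cov κ).card := card_union_le _ _
  have h3 := m.cov_card κ
  unfold Model.L
  omega

theorem s_pos (m : Model V C ι) (v : V) : 1 ≤ m.s := by
  obtain ⟨κ, -, -⟩ := m.vtx v
  obtain ⟨c, hc⟩ := (m.cells_conn κ).1
  obtain ⟨w, -, hw⟩ := m.hit κ κ ⟨c, hc, hc⟩
  have h1 : 0 < (m.cov κ).card := card_pos.2 ⟨w, hw⟩
  exact h1.trans_le (m.cov_card κ)

end Pool.MP627f83
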