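import Pool.Agent.Lib.MP_627f83_co.Defs
import Pool.Agent.Lib.MP_627f83_co.ConnA
import Pool.Agent.Lib.MP_627f83_co.ConnB
import Pool.Agent.Lib.MP_627f83_co.LevA

/-!
# LevB: Lemma 1 (a): at most i + s cover vertices of level at most i

`Ki = K.filter (fun x => m.L x ≤ i)`. If `Ki = ∅` trivial. Say that a cell `a` is touched if some item `κ` with
`a ∈ cells κ` has an end in `Ki`.
* If `c` is touched by `κ` with end `x ∈ Ki`: optimal pair `(K', A')` for `h x` (`lev_spec`, `K'.card = L x ≤ i`);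
  `A' ∪ cells κ` is connected, contains `o` and `c`, is hit by `K' ∪ cov κ`. So `K.card = lev c ≤ i + s`.
* Otherwise let `A0 = A.filter untouched`, `B = comp A0 c`. `B ≠ A`: otherwise no cell of `A` is touched, so
  `K \ Ki` hits `A` (an item that meets `A` has an end in `K`, not in `Ki`), and it is smaller than
  `K.card = lev c` as `Ki ≠ ∅`: contradiction to `lev_le`. `exists_boundary` gives `b ∈ B`, `a ∈ A`, `a ∉ B`, adjacent; `a` is
  touched (otherwise `a ∈ B` by `comp_adj`), by `κ` with end `x ∈ Ki`. Then `A' ∪ cells κ ∪ B` is connected, contains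
  `o`, `c`, hit by `K' ∪ cov κ ∪ (K \ Ki)`: items that meet `B` have an end in `K` but none in `Ki`. So
  `K.card ≤ i + s + (K.card - Ki.card)`.
-/

namespace Pool.MP627f83

open Finset
open scoped Classical

variable {V C ι : Type} [Fintype V] [DecidableEq V] [Fintype C] [DecidableEq C]

theorem lev_upper (m : Model V C ι) {c : C} {K : Finset V} {A : Finset C} (hA : m.Z.Conn A)
    (ho : m.o ∈ A) (hc : c ∈ A) (hK : m.Hits K A) (hKc : K.card = m.lev c) (i : ℕ) :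
    (K.filter (fun x => m.L x ≤ i)).card ≤ i + m.s := by
  classical
  set Ki := K.filter (fun x => m.L x ≤ i) with hKi
  rcases Ki.eq_empty_or_nonempty with h0 | hne
  · rw [h0]
    simp
  have hsub : Ki ⊆ K := filter_subset _ _
  have hle : Ki.card ≤ K.card := card_le_card hsub
  have key : ∀ x ∈ Ki, ∀ κ, x ∈ m.ends κ → ∃ (K1 : Finset V) (A1 : Finset C), m.Z.Conn A1 ∧
      m.o ∈ A1 ∧ m.cells κ ⊆ A1 ∧ m.Hits K1 A1 ∧ K1.card ≤ i + m.s := by
    intro x hx κ hxκ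
    obtain ⟨K', A', h1, h2, h3, h4, h5⟩ := lev_spec m (m.h x)
    refine ⟨K' ∪ m.cov κ, A' ∪ m.cells κ, conn_union m.Z h1 (m.cells_conn κ)
      (Or.inl ⟨m.h x, h3, m.h_mem κ x hxκ⟩), mem_union_left _ h2, subset_union_right,
      hits_union m h4 (cov_hits m κ), ?_⟩
    have hL : m.L x ≤ i := (mem_filter.mp hx).2
    have h6 : K'.card = m.L x := h5
    have h7 := m.cov_card κ
    have h8 := card_union_le K' (m.cov κ)
    omega
  by_cases ht : ∃ κ, c ∈ m.cells κ ∧ ∃ x ∈ m.ends κ, x ∈ Ki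
  · obtain ⟨κ, hcκ, x, hxκ, hx⟩ := ht
    obtain ⟨K1, A1, h1, h2, h3, h4, h5⟩ := key x hx κ hxκ
    have h6 := lev_le m h1 h2 (h3 hcκ) h4
    omega
  · set A0 := A.filter (fun a => ¬ ∃ κ, a ∈ m.cells κ ∧ ∃ x ∈ m.ends κ, x ∈ Ki) with hA0
    have hcA0 : c ∈ A0 := mem_filter.mpr ⟨hc, ht⟩
    have hcB : c ∈ m.Z.comp A0 c := mem_comp_self m.Z hcA0
    have hBA0 : m.Z.comp A0 c ⊆ A0 := comp_subset m.Z A0 c
    have hBconn : m.Z.Conn (m.Z.comp A0 c) := comp_conn m.Z hcA0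
    have hhit : m.Hits (K \ Ki) (m.Z.comp A0 c) := by
      rintro κ ⟨b, hb, hbκ⟩
      have hb0 := mem_filter.mp (hBA0 hb)
      obtain ⟨v, hv, hvK⟩ := hK κ ⟨b, hb0.1, hbκ⟩
      exact ⟨v, hv, mem_sdiff.mpr ⟨hvK, fun hvKi => hb0.2 ⟨κ, hbκ, v, hv, hvKi⟩⟩⟩
    have hcard : (K \ Ki).card = K.card - Ki.card := card_sdiff_of_subset hsub
    have hpos := hne.card_pos
    have hne' : ¬ A ⊆ m.Z.comp A0 c := by
      intro hAB
      have h1 : m.Hits (K \ Ki) A := hits_mono m hhit (Finset.Subset.refl _) hAB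
      have h2 := lev_le m hA ho hc h1
      omega
    obtain ⟨b, hbA, hbB, a, haA, haB, hab⟩ := exists_boundary m.Z hA ⟨c, hc, hcB⟩ hne'
    have hta : ∃ κ, a ∈ m.cells κ ∧ ∃ x ∈ m.ends κ, x ∈ Ki := by
      by_contra hcon
      exact haB (comp_adj m.Z hbB (mem_filter.mpr ⟨haA, hcon⟩) hab)
    obtain ⟨κ, haκ, x, hxκ, hx⟩ := hta
    obtain ⟨K1, A1, h1, h2, h3, h4, h5⟩ := key x hx κ hxκ
    have hc1 : m.Z.Conn (A1 ∪ m.Z.comp A0 c) := conn_union m.Z h1 hBconn
      (Or.inr ⟨a, h3 haκ, b, hbB, adj_symm m.Z hab⟩)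
    have h6 := lev_le m hc1 (mem_union_left _ h2) (mem_union_right _ hcB)
      (hits_union m h4 hhit)
    have h7 := card_union_le K1 (K \ Ki)
    omega

end Pool.MP627f83
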