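import Pool.Agent.Lib.MP_627f83_co.Defs
import Pool.Agent.Lib.MP_627f83_co.ConnA
import Pool.Agent.Lib.MP_627f83_co.ConnB
import Pool.Agent.Lib.MP_627f83_co.LevA

/-!
# LevC: Lemma 1 (b): lower bound for the cover vertices of level at most i

`Ki = K.filter (fun x => m.L x ≤ i)` is smaller than `K`, so it does not hit `A` (`lev_le`). Let
`A0 = A.filter (fun a => ∀ κ, a ∈ cells κ → ∃ v ∈ ends κ, v ∈ Ki)`; `o ∈ A0` (`m.o_not`); `B = comp A0 o`; `B ≠ A`
(otherwise `Ki` hits `A`). `exists_boundary`: `b ∈ B`, `a ∈ A \ B` adjacent, `a ∉ A0` (`comp_adj`), so there is `κ` with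
`a ∈ cells κ` and no end in `Ki`. As `K` hits `A`, `κ` has an end `y ∈ K`, `y ∉ Ki`, so `i < L y`. `B ∪ cells κ` is
connected (`a ∈ cells κ` is adjacent to `b`), contains `o` and `h y`, is hit by `Ki ∪ cov κ`. So
`i + 1 ≤ L y ≤ Ki.card + s`.
-/

namespace Pool.MP627f83

open Finset
open scoped Classical

variable {V C ι : Type} [Fintype V] [DecidableEq V] [Fintype C] [DecidableEq C]

theorem lev_lower (m : Model V C ι) {c : C} {K : Finset V} {A : Finset C} (hA : m.Z.Conn A)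
    (ho : m.o ∈ A) (hc : c ∈ A) (hK : m.Hits K A) (hKc : K.card = m.lev c) (i : ℕ)
    (hx : ∃ x ∈ K, i < m.L x) :
    i + 1 ≤ (K.filter (fun x => m.L x ≤ i)).card + m.s := by
  set Ki := K.filter (fun x => m.L x ≤ i) with hKi
  have hlt : Ki.card < K.card := by
    refine Finset.card_lt_card ((Finset.filter_ssubset).2 ?_)
    obtain ⟨x, hxK, hxi⟩ := hx
    exact ⟨x, hxK, by omega⟩
  have hnot : ¬ m.Hits Ki A := by
    intro h
    have := lev_le m hA ho hc h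
    omega
  set A0 := A.filter (fun a => ∀ κ, a ∈ m.cells κ → ∃ v ∈ m.ends κ, v ∈ Ki) with hA0
  have hoA0 : m.o ∈ A0 :=
    Finset.mem_filter.2 ⟨ho, fun κ hκ => absurd hκ (m.o_not κ)⟩
  set B := m.Z.comp A0 m.o with hB
  have hBA0 : B ⊆ A0 := comp_subset m.Z A0 m.o
  have hHB : m.Hits Ki B := by
    rintro κ ⟨d, hdB, hdκ⟩
    exact (Finset.mem_filter.1 (hBA0 hdB)).2 κ hdκ
  have hoB : m.o ∈ B := mem_comp_self m.Z hoA0
  have hne : ¬ A ⊆ B := by
    intro h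
    exact hnot (hits_mono m hHB (Finset.Subset.refl _) h)
  obtain ⟨b, hbA, hbB, a, haA, haB, hab⟩ :=
    exists_boundary m.Z hA ⟨m.o, ho, hoB⟩ hne
  have haA0 : a ∉ A0 := fun h => haB (comp_adj m.Z hbB h hab)
  have hex : ∃ κ, a ∈ m.cells κ ∧ ∀ v ∈ m.ends κ, v ∉ Ki := by
    by_contra hcon
    push Not at hcon
    exact haA0 (Finset.mem_filter.2 ⟨haA, fun κ hκ => hcon κ hκ⟩)
  obtain ⟨κ, haκ, hκ⟩ := hex
  obtain ⟨y, hy, hyK⟩ := hK κ ⟨a, haA, haκ⟩
  have hyi : i < m.L y := by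
    by_contra hcon
    exact hκ y hy (Finset.mem_filter.2 ⟨hyK, not_lt.1 hcon⟩)
  have hconn : m.Z.Conn (B ∪ m.cells κ) :=
    conn_union m.Z (comp_conn m.Z hoA0) (m.cells_conn κ) (Or.inr ⟨b, hbB, a, haκ, hab⟩)
  have hle := lev_le m hconn (Finset.mem_union_left _ hoB)
    (Finset.mem_union_right _ (m.h_mem κ y hy)) (hits_union m hHB (cov_hits m κ))
  have hcard : (Ki ∪ m.cov κ).card ≤ Ki.card + m.s :=
    le_trans (Finset.card_union_le _ _) (Nat.add_le_add_left (m.cov_card κ) _)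
  have hLy : m.L y = m.lev (m.h y) := rfl
  omega

end Pool.MP627f83
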