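import Pool.Agent.Lib.MP_627f83_co.Defs
import Pool.Agent.Lib.MP_627f83_co.LevB
import Pool.Agent.Lib.MP_627f83_co.LevC

/-!
# LevD: Lemma 1: at most 2s cover vertices on every level

`j = 0`: `filter (L = 0) ⊆ filter (L ≤ 0)`, `lev_upper` gives `≤ s`. `j ≥ 1`: if no `x ∈ K` has `L x = j` trivial;
otherwise `lev_lower` with `i = j - 1` gives `j ≤ |K_{j-1}| + s`, `lev_upper` gives `|K_j| ≤ j + s`, and `K_j` is the
disjoint union of `K_{j-1}` and `filter (L = j)`.
-/

namespace Pool.MP627f83

open Finset
open scoped Classical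

variable {V C ι : Type} [Fintype V] [DecidableEq V] [Fintype C] [DecidableEq C]

theorem lev_layer (m : Model V C ι) {c : C} {K : Finset V} {A : Finset C} (hA : m.Z.Conn A)
    (ho : m.o ∈ A) (hc : c ∈ A) (hK : m.Hits K A) (hKc : K.card = m.lev c) (j : ℕ) :
    (K.filter (fun x => m.L x = j)).card ≤ 2 * m.s := by
  rcases Nat.eq_zero_or_pos j with rfl | hj
  · have h1 : (K.filter (fun x => m.L x = 0)).card ≤ (K.filter (fun x => m.L x ≤ 0)).card := by
      apply Finset.card_le_card
      intro x hx
      simp only [Finset.mem_filter] at hx ⊢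
      exact ⟨hx.1, by omega⟩
    have h2 := lev_upper m hA ho hc hK hKc 0
    omega
  · by_cases hex : ∃ x ∈ K, m.L x = j
    · obtain ⟨x, hx, hxj⟩ := hex
      have h1 := lev_lower m hA ho hc hK hKc (j - 1) ⟨x, hx, by omega⟩
      have h2 := lev_upper m hA ho hc hK hKc j
      have h3 : (K.filter (fun x => m.L x ≤ j)) =
          (K.filter (fun x => m.L x ≤ j - 1)) ∪ (K.filter (fun x => m.L x = j)) := by
        ext y
        simp only [Finset.mem_filter, Finset.mem_union]
        constructor
        · rintro ⟨a, b⟩
          by_cases hy : m.L y = j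
          · exact Or.inr ⟨a, hy⟩
          · exact Or.inl ⟨a, by omega⟩
        · rintro (⟨a, b⟩ | ⟨a, b⟩)
          · exact ⟨a, by omega⟩
          · exact ⟨a, by omega⟩
      have h4 : Disjoint (K.filter (fun x => m.L x ≤ j - 1)) (K.filter (fun x => m.L x = j)) := by
        rw [Finset.disjoint_left]
        intro y hy hy'
        simp only [Finset.mem_filter] at hy hy'
        omega
      rw [h3, Finset.card_union_of_disjoint h4] at h2
      omega
    · have h0 : (K.filter (fun x => m.L x = j)) = ∅ := by
        rw [Finset.filter_eq_empty_iff]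
        intro x hx hxj
        exact hex ⟨x, hx, hxj⟩
      rw [h0]
      simp

end Pool.MP627f83
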