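import Pool.Agent.Lib.MP_627f83_co.Defs
import Pool.Agent.Lib.MP_627f83_co.ConnA
import Pool.Agent.Lib.MP_627f83_co.ConnB
import Pool.Agent.Lib.MP_627f83_co.LevA
import Pool.Agent.Lib.MP_627f83_co.LevD

/-!
# Leg: Lemma 2: legs

`(K, A)` optimal for `p` (`lev_spec`), layers by `lev_layer`. `Good` = cells of `Om` that are in no item with an end
in `I`.
Auxiliary claim (end part): if `a ∈ Om` is in `cells κ`, `x ∈ ends κ`, `x ∈ I`, then there are `En ⊆ Om`, `S` with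
`a ∈ En`, `En` connected, adjacent to a cell outside `Om`, `Hits S En`, `S.card ≤ 2 s`. Proof: if `cells κ` is not
inside `Om`: `En = comp (cells κ ∩ Om) a`, `S = cov κ`, `comp_exit`. Otherwise `h x ∈ Om` (`h_mem`), by `hex` there is `κ'`
with `x ∈ ends κ'`, `cells κ'` not inside `Om`; `En = cells κ ∪ comp (cells κ' ∩ Om) (h x)`, `S = cov κ ∪ cov κ'`.
* `p` not in `Good`: `Mn = ∅`, `En` from the claim for `a = p` (`K` arbitrary, e.g. the optimal one).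
* `p ∈ Good`: `Mn = comp (A ∩ Good) p`, connected. `o ∈ A`, `o ∉ Om`, so `A` is not inside `Mn`; `exists_boundary`
  gives `b ∈ Mn`, `a ∈ A \ Mn` adjacent, `a ∉ Good` (`comp_adj`). If `a ∉ Om`: `En = ∅`. Otherwise `a` is in an item with an
  end in `I`, `En` from the claim; `Mn ∪ En` is connected by `conn_union`.
-/

namespace Pool.MP627f83

open Finset
open scoped Classical

variable {V C ι : Type} [Fintype V] [DecidableEq V] [Fintype C] [DecidableEq C]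

theorem leg_aux (m : Model V C ι) (Om : Finset C) (I : Finset V)
    (hex : ∀ x ∈ I, m.h x ∈ Om → ∃ κ, x ∈ m.ends κ ∧ ∃ c ∈ m.cells κ, c ∉ Om)
    {a : C} (ha : a ∈ Om) {κ : ι} (haκ : a ∈ m.cells κ) {x : V} (hx : x ∈ m.ends κ)
    (hxI : x ∈ I) :
    ∃ (En : Finset C) (S : Finset V), En ⊆ Om ∧ a ∈ En ∧ m.Z.Conn En ∧
      (∃ c ∈ En, ∃ d, d ∉ Om ∧ m.Z.Adj c d) ∧ m.Hits S En ∧ S.card ≤ 2 * m.s := by
  by_cases hsub : m.cells κ ⊆ Om
  · have hxO : m.h x ∈ Om := hsub (m.h_mem κ x hx)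
    obtain ⟨κ', hxκ', c', hc', hc'O⟩ := hex x hxI hxO
    have hne : ¬ m.cells κ' ⊆ Om := fun h => hc'O (h hc')
    obtain ⟨c, hc, d, hd, hdO, hcd⟩ :=
      comp_exit m.Z (m.cells_conn κ') (m.h_mem κ' x hxκ') hxO hne
    have hmem : m.h x ∈ m.cells κ' ∩ Om := Finset.mem_inter.2 ⟨m.h_mem κ' x hxκ', hxO⟩
    refine ⟨m.cells κ ∪ m.Z.comp (m.cells κ' ∩ Om) (m.h x), m.cov κ ∪ m.cov κ',
      Finset.union_subset hsub ((comp_subset m.Z _ _).trans Finset.inter_subset_right),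
      Finset.mem_union_left _ haκ, ?_, ⟨c, Finset.mem_union_right _ hc, d, hdO, hcd⟩, ?_, ?_⟩
    · exact conn_union m.Z (m.cells_conn κ) (comp_conn m.Z hmem)
        (Or.inl ⟨m.h x, m.h_mem κ x hx, mem_comp_self m.Z hmem⟩)
    · exact hits_union m (cov_hits m κ) (hits_mono m (cov_hits m κ') (Finset.Subset.refl _)
        ((comp_subset m.Z _ _).trans Finset.inter_subset_left))
    · refine (Finset.card_union_le _ _).trans ?_
      have h1 := m.cov_card κ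
      have h2 := m.cov_card κ'
      omega
  · obtain ⟨c, hc, d, hd, hdO, hcd⟩ := comp_exit m.Z (m.cells_conn κ) haκ ha hsub
    have hmem : a ∈ m.cells κ ∩ Om := Finset.mem_inter.2 ⟨haκ, ha⟩
    refine ⟨m.Z.comp (m.cells κ ∩ Om) a, m.cov κ,
      (comp_subset m.Z _ _).trans Finset.inter_subset_right, mem_comp_self m.Z hmem,
      comp_conn m.Z hmem, ⟨c, hc, d, hdO, hcd⟩,
      hits_mono m (cov_hits m κ) (Finset.Subset.refl _)
        ((comp_subset m.Z _ _).trans Finset.inter_subset_left), ?_⟩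
    have h1 := m.cov_card κ
    omega

theorem leg_exists (m : Model V C ι) (Om : Finset C) (ho : m.o ∉ Om) (I : Finset V)
    (hex : ∀ x ∈ I, m.h x ∈ Om → ∃ κ, x ∈ m.ends κ ∧ ∃ c ∈ m.cells κ, c ∉ Om)
    (p : C) (hp : p ∈ Om) :
    ∃ (Mn En : Finset C) (K S : Finset V), Mn ⊆ Om ∧ En ⊆ Om ∧ p ∈ Mn ∪ En ∧
      m.Z.Conn (Mn ∪ En) ∧ (∃ c ∈ Mn ∪ En, ∃ d, d ∉ Om ∧ m.Z.Adj c d) ∧
      (∀ κ, (∃ c ∈ Mn, c ∈ m.cells κ) → ∀ v ∈ m.ends κ, v ∉ I) ∧
      m.Hits K Mn ∧ (∀ j, (K.filter (fun v => m.L v = j)).card ≤ 2 * m.s) ∧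
      m.Hits S En ∧ S.card ≤ 2 * m.s := by
  obtain ⟨K, A, hA, hoA, hpA, hK, hKc⟩ := lev_spec m p
  have hlay := lev_layer m hA hoA hpA hK hKc
  by_cases hg : ∀ κ, p ∈ m.cells κ → ∀ v ∈ m.ends κ, v ∉ I
  · obtain ⟨Good, hGood⟩ : ∃ Good : Finset C, ∀ c, c ∈ Good ↔
        (c ∈ Om ∧ ∀ κ, c ∈ m.cells κ → ∀ v ∈ m.ends κ, v ∉ I) :=
      ⟨Om.filter (fun c => ∀ κ, c ∈ m.cells κ → ∀ v ∈ m.ends κ, v ∉ I),
        fun c => by rw [Finset.mem_filter]⟩
    have hpG : p ∈ A ∩ Good := Finset.mem_inter.2 ⟨hpA, (hGood p).2 ⟨hp, hg⟩⟩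
    have hMA : m.Z.comp (A ∩ Good) p ⊆ A :=
      (comp_subset m.Z _ _).trans Finset.inter_subset_left
    have hMG : m.Z.comp (A ∩ Good) p ⊆ Good :=
      (comp_subset m.Z _ _).trans Finset.inter_subset_right
    have hMO : m.Z.comp (A ∩ Good) p ⊆ Om := fun c hc => ((hGood c).1 (hMG hc)).1
    have hne : ¬ A ⊆ m.Z.comp (A ∩ Good) p := fun h => ho (hMO (h hoA))
    have hpM : p ∈ m.Z.comp (A ∩ Good) p := mem_comp_self m.Z hpG
    obtain ⟨b, hbA, hbM, a, haA, haM, hba⟩ := exists_boundary m.Z hA ⟨p, hpA, hpM⟩ hne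
    have haG : a ∉ Good := fun h =>
      haM (comp_adj m.Z hbM (Finset.mem_inter.2 ⟨haA, h⟩) hba)
    have hMfree : ∀ κ, (∃ c ∈ m.Z.comp (A ∩ Good) p, c ∈ m.cells κ) →
        ∀ v ∈ m.ends κ, v ∉ I := by
      rintro κ ⟨c, hc, hcκ⟩
      exact ((hGood c).1 (hMG hc)).2 κ hcκ
    have hKM : m.Hits K (m.Z.comp (A ∩ Good) p) :=
      hits_mono m hK (Finset.Subset.refl _) hMA
    by_cases haO : a ∈ Om
    · have hbad : ∃ κ, a ∈ m.cells κ ∧ ∃ v ∈ m.ends κ, v ∈ I := by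
        by_contra hcon
        push Not at hcon
        exact haG ((hGood a).2 ⟨haO, hcon⟩)
      obtain ⟨κ, haκ, x, hx, hxI⟩ := hbad
      obtain ⟨En, S, hE1, hE2, hE3, ⟨c, hc, d, hd, hcd⟩, hE5, hE6⟩ :=
        leg_aux m Om I hex haO haκ hx hxI
      refine ⟨m.Z.comp (A ∩ Good) p, En, K, S, hMO, hE1, Finset.mem_union_left _ hpM, ?_,
        ⟨c, Finset.mem_union_right _ hc, d, hd, hcd⟩, hMfree, hKM, hlay, hE5, hE6⟩
      exact conn_union m.Z (comp_conn m.Z hpG) hE3 (Or.inr ⟨b, hbM, a, hE2, hba⟩)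
    · refine ⟨m.Z.comp (A ∩ Good) p, ∅, K, ∅, hMO, Finset.empty_subset _,
        Finset.mem_union_left _ hpM, ?_, ⟨b, Finset.mem_union_left _ hbM, a, haO, hba⟩,
        hMfree, hKM, hlay, ?_, by simp⟩
      · rw [Finset.union_empty]
        exact comp_conn m.Z hpG
      · rintro κ ⟨c, hc, _⟩
        simp at hc
  · push Not at hg
    obtain ⟨κ, hpκ, x, hx, hxI⟩ := hg
    obtain ⟨En, S, hE1, hE2, hE3, ⟨c, hc, d, hd, hcd⟩, hE5, hE6⟩ :=
      leg_aux m Om I hex hp hpκ hx hxI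
    refine ⟨∅, En, K, S, Finset.empty_subset _, hE1, Finset.mem_union_right _ hE2, ?_,
      ⟨c, Finset.mem_union_right _ hc, d, hd, hcd⟩, ?_, ?_, hlay, hE5, hE6⟩
    · rw [Finset.empty_union]
      exact hE3
    · rintro κ' ⟨c, hc, _⟩
      simp at hc
    · rintro κ' ⟨c, hc, _⟩
      simp at hc

end Pool.MP627f83
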