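import Pool.Agent.Lib.MP_627f83_co.Defs
import Pool.Agent.Lib.MP_627f83_co.ConnA

/-!
# SplitA: splitting a region, one or two classes

Every `p ∈ Om` has a colour: an `i` with `Z.Adjs (leg p) (X i)` (the cell `d` of `hleg` is in some class by
`h.cov`). `n = 1`: `P = {p}` for any `p`. `n = 2`: if some `p` has `leg p` adjacent to both classes take `P = {p}`
(optional). Otherwise let `B = {p ∈ Om : Adjs (leg p) (X 0)}`. Let `z0 ∈ Om` be adjacent to a cell of `X 0` and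
`z1 ∈ Om` adjacent to a cell of `X 1` (`h.adj`). If `z0 ∉ B`: then `leg z0` is adjacent to `X 1` and, since
`z0 ∈ leg z0`, also to `X 0`: `P = {z0}`. If `z1 ∈ B`: the same, `P = {z1}`. Otherwise `B` is a proper nonempty
subset of `Om`, `h.conn` gives adjacent `a ∈ B`, `b ∈ Om \ B`; `leg b` is adjacent to `X 1`; `P = {a, b}`; the union
of the two legs is connected (`conn_union`, `a ∈ leg a`, `b ∈ leg b` adjacent).
-/

namespace Pool.MP627f83

open Finset
open scoped Classical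

variable {C : Type} [Fintype C] [DecidableEq C] (Z : TriSphere C)

private theorem splitA_colour {n : ℕ} {Om : Finset C} {X : Fin n → Finset C}
    (h : Z.State n Om X) (leg : C → Finset C)
    (hleg : ∀ p ∈ Om, leg p ⊆ Om ∧ p ∈ leg p ∧ Z.Conn (leg p) ∧
      ∃ c ∈ leg p, ∃ d, d ∉ Om ∧ Z.Adj c d) {p : C} (hp : p ∈ Om) :
    ∃ i, Z.Adjs (leg p) (X i) := by
  obtain ⟨_, _, _, c, hc, d, hd, hcd⟩ := hleg p hp
  rcases h.cov d with h1 | ⟨i, hi⟩
  · exact absurd h1 hd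
  · exact ⟨i, c, hc, d, hi, hcd⟩

theorem split_one {Om : Finset C} {X : Fin 1 → Finset C} (h : Z.State 1 Om X)
    (leg : C → Finset C)
    (hleg : ∀ p ∈ Om, leg p ⊆ Om ∧ p ∈ leg p ∧ Z.Conn (leg p) ∧
      ∃ c ∈ leg p, ∃ d, d ∉ Om ∧ Z.Adj c d) :
    ∃ P ⊆ Om, P.Nonempty ∧ P.card ≤ 3 ∧ Z.Conn (P.biUnion leg) ∧
      ∀ i, Z.Adjs (P.biUnion leg) (X i) := by
  obtain ⟨p, hp⟩ := h.conn.1
  refine ⟨{p}, singleton_subset_iff.2 hp, singleton_nonempty p, by simp, ?_, ?_⟩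
  · rw [singleton_biUnion]
    exact (hleg p hp).2.2.1
  · intro i
    rw [singleton_biUnion]
    obtain ⟨j, hj⟩ := splitA_colour Z h leg hleg hp
    rwa [Subsingleton.elim i j]

theorem split_two {Om : Finset C} {X : Fin 2 → Finset C} (h : Z.State 2 Om X)
    (leg : C → Finset C)
    (hleg : ∀ p ∈ Om, leg p ⊆ Om ∧ p ∈ leg p ∧ Z.Conn (leg p) ∧
      ∃ c ∈ leg p, ∃ d, d ∉ Om ∧ Z.Adj c d) :
    ∃ P ⊆ Om, P.Nonempty ∧ P.card ≤ 3 ∧ Z.Conn (P.biUnion leg) ∧
      ∀ i, Z.Adjs (P.biUnion leg) (X i) := by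
  obtain ⟨z0, hz0, x0, hx0, ha0⟩ := h.adj 0
  obtain ⟨z1, hz1, x1, hx1, ha1⟩ := h.adj 1
  have h0 : Z.Adjs (leg z0) (X 0) := ⟨z0, (hleg z0 hz0).2.1, x0, hx0, ha0⟩
  have h1 : Z.Adjs (leg z1) (X 1) := ⟨z1, (hleg z1 hz1).2.1, x1, hx1, ha1⟩
  set B : Finset C := Om.filter (fun p => Z.Adjs (leg p) (X 0)) with hB
  by_cases hz : z1 ∈ B
  · have h2 : Z.Adjs (leg z1) (X 0) := (mem_filter.1 hz).2
    refine ⟨{z1}, singleton_subset_iff.2 hz1, singleton_nonempty z1, by simp, ?_, ?_⟩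
    · rw [singleton_biUnion]
      exact (hleg z1 hz1).2.2.1
    · intro i
      rw [singleton_biUnion]
      fin_cases i
      · exact h2
      · exact h1
  · have hne : B ≠ Om := fun he => hz (by rw [he]; exact hz1)
    have hBn : B.Nonempty := ⟨z0, mem_filter.2 ⟨hz0, h0⟩⟩
    obtain ⟨a, ha, b, hb, hbB, hab⟩ := h.conn.2 B (filter_subset _ _) hBn hne
    have haO : a ∈ Om := (mem_filter.1 ha).1
    have ha0' : Z.Adjs (leg a) (X 0) := (mem_filter.1 ha).2
    have hb1 : Z.Adjs (leg b) (X 1) := by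
      obtain ⟨j, hj⟩ := splitA_colour Z h leg hleg hb
      fin_cases j
      · exact absurd (mem_filter.2 ⟨hb, hj⟩) hbB
      · exact hj
    refine ⟨{a, b}, ?_, ⟨a, by simp⟩, (card_le_two).trans (by norm_num), ?_, ?_⟩
    · intro x hx
      rcases mem_insert.1 hx with rfl | hx
      · exact haO
      · rw [mem_singleton.1 hx]; exact hb
    · rw [biUnion_insert, singleton_biUnion]
      exact conn_union Z (hleg a haO).2.2.1 (hleg b hb).2.2.1
        (Or.inr ⟨a, (hleg a haO).2.1, b, (hleg b hb).2.1, hab⟩)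
    · intro i
      rw [biUnion_insert, singleton_biUnion]
      fin_cases i
      · exact adjs_mono Z subset_union_left (Subset.refl _) ha0'
      · exact adjs_mono Z subset_union_right (Subset.refl _) hb1

end Pool.MP627f83
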