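import Pool.Agent.Lib.MP_627f83_co.Defs
import Pool.Agent.Lib.MP_627f83_co.TopB

/-!
# TopE: Sperner parity on the sphere

For a colouring `g : C → Fin 3` the number of triangles with all three colours is even. Use
`two_mul_cross` with `A = ` cells of colour 0 and `B = ` cells of colour 1: `tcount A B` (triangles that meet
colour 0, colour 1 and the rest = colour 2) is `2 (crossN - mixedN)`, and the triangles counted by `tcount` are
exactly the trichromatic ones.
-/

namespace Pool.MP627f83

open Finset
open scoped Classical

variable {C : Type} [Fintype C] [DecidableEq C] (Z : TriSphere C)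

theorem sperner (g : C → Fin 3) :
    Even (Z.tri.filter (fun t => ∀ i, ∃ a ∈ t, g a = i)).card := by
  have hd : Disjoint (univ.filter (fun a => g a = 0)) (univ.filter (fun a => g a = 1)) := by
    rw [Finset.disjoint_left]
    intro a ha hb
    simp only [mem_filter, mem_univ, true_and] at ha hb
    rw [ha] at hb
    exact absurd hb (by decide)
  have h2 := two_mul_cross Z hd
  have he : (Z.tri.filter (fun t => ∀ i, ∃ a ∈ t, g a = i)).card =
      tcount Z (univ.filter (fun a => g a = 0)) (univ.filter (fun a => g a = 1)) := by
    unfold tcount
    congr 1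
    apply Finset.filter_congr
    intro t _
    simp only [mem_filter, mem_univ, true_and]
    constructor
    · intro h
      refine ⟨h 0, h 1, ?_⟩
      obtain ⟨c, hc, hc2⟩ := h 2
      refine ⟨c, hc, ?_, ?_⟩ <;> rw [hc2] <;> decide
    · rintro ⟨h0, h1, c, hc, hc0, hc1⟩ i
      have hi : i = 0 ∨ i = 1 ∨ i = 2 := by
        revert i; decide
      rcases hi with rfl | rfl | rfl
      · exact h0
      · exact h1
      · refine ⟨c, hc, ?_⟩
        have key : ∀ x : Fin 3, x ≠ 0 → x ≠ 1 → x = 2 := by decide
        exact key _ hc0 hc1
  rw [he, Nat.even_iff]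
  omega

end Pool.MP627f83
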