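import Pool.Agent.Lib.MP_627f83_co.Defs
import Pool.Agent.Lib.MP_627f83_co.ConnA
import Pool.Agent.Lib.MP_627f83_co.TopD
import Pool.Agent.Lib.MP_627f83_co.TopE

/-!
# SplitB: splitting a region with three classes (Sperner)

Colour `g : C → Fin 3`: a cell of `X i` has colour `i`, a cell `p` of `Om` has a colour `i` with
`Z.Adjs (leg p) (X i)` (exists as in SplitA). The four classes `Om, X 0, X 1, X 2` (in this order as
`Fin 4 → Finset C`) form a `Part 4`, so by `part_four` exactly one triangle meets `X 0`, `X 1`, `X 2`, and it is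
the only trichromatic triangle disjoint from `Om`. By `sperner` the number of trichromatic triangles is even,
so there is a trichromatic triangle `t` that meets `Om`. `P = t ∩ Om`. The corners of `t` are pairwise adjacent
(`TriSphere.Adj`), so `P.biUnion leg` is connected (`conn_biUnion`), and for every colour `i` the corner of
colour `i` is in `P` (then its leg is adjacent to `X i`) or in `X i` (then it is adjacent to a corner in `P`).
-/

namespace Pool.MP627f83

open Finset
open scoped Classical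

variable {C : Type} [Fintype C] [DecidableEq C] (Z : TriSphere C)

theorem SplitB_part {Om : Finset C} {X : Fin 3 → Finset C} (h : Z.State 3 Om X) :
    Z.Part 4 (Fin.cons Om X : Fin 4 → Finset C) := by
  refine ⟨?_, ?_, ?_, ?_⟩
  · intro i
    refine Fin.cases ?_ ?_ i
    · simpa using h.conn
    · intro j
      simpa using h.connX j
  · intro i j
    refine Fin.cases ?_ ?_ i
    · refine Fin.cases ?_ ?_ j
      · intro hne
        exact absurd rfl hne
      · intro j' _
        simpa using h.disj j'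
    · intro i'
      refine Fin.cases ?_ ?_ j
      · intro _
        simpa using (h.disj i').symm
      · intro j' hne
        simp only [Fin.cons_succ]
        exact h.disjX i' j' (fun e => hne (by rw [e]))
  · intro c
    rcases h.cov c with h1 | ⟨i, hi⟩
    · exact ⟨0, by simpa using h1⟩
    · exact ⟨i.succ, by simpa using hi⟩
  · intro i j
    refine Fin.cases ?_ ?_ i
    · refine Fin.cases ?_ ?_ j
      · intro hne
        exact absurd rfl hne
      · intro j' _
        simpa using h.adj j'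
    · intro i'
      refine Fin.cases ?_ ?_ j
      · intro _
        simpa using adjs_symm Z (h.adj i')
      · intro j' hne
        simp only [Fin.cons_succ]
        exact h.adjX i' j' (fun e => hne (by rw [e]))

theorem split_three {Om : Finset C} {X : Fin 3 → Finset C} (h : Z.State 3 Om X)
    (leg : C → Finset C)
    (hleg : ∀ p ∈ Om, leg p ⊆ Om ∧ p ∈ leg p ∧ Z.Conn (leg p) ∧
      ∃ c ∈ leg p, ∃ d, d ∉ Om ∧ Z.Adj c d) :
    ∃ P ⊆ Om, P.Nonempty ∧ P.card ≤ 3 ∧ Z.Conn (P.biUnion leg) ∧
      ∀ i, Z.Adjs (P.biUnion leg) (X i) := by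
  have hcol : ∀ c, ∃ i : Fin 3, (c ∈ Om → Z.Adjs (leg c) (X i)) ∧ (c ∉ Om → c ∈ X i) := by
    intro c
    by_cases hc : c ∈ Om
    · obtain ⟨_, _, _, a, ha, d, hd, had⟩ := hleg c hc
      rcases h.cov d with h1 | ⟨i, hi⟩
      · exact absurd h1 hd
      · exact ⟨i, fun _ => ⟨a, ha, d, hi, had⟩, fun h2 => absurd hc h2⟩
    · rcases h.cov c with h1 | ⟨i, hi⟩
      · exact absurd h1 hc
      · exact ⟨i, fun h2 => absurd h2 hc, fun _ => hi⟩
  choose g hg1 hg2 using hcol
  have hgX : ∀ c i, c ∈ X i → g c = i := by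
    intro c i hc
    by_contra hne
    have hcO : c ∉ Om := fun h1 => disjoint_left.mp (h.disj i) h1 hc
    exact disjoint_left.mp (h.disjX (g c) i hne) (hg2 c hcO) hc
  obtain ⟨t, ht, htri, p, hpt, hpO⟩ : ∃ t ∈ Z.tri, (∀ i, ∃ a ∈ t, g a = i) ∧
      ∃ p ∈ t, p ∈ Om := by
    by_contra hcon
    push Not at hcon
    have h4 := part_four Z (SplitB_part Z h)
    have e : Z.tri.filter (fun t => ∀ i, ∃ a ∈ t, g a = i) =
        Z.tri.filter (fun t => (∃ a ∈ t, a ∈ (Fin.cons Om X : Fin 4 → Finset C) 1) ∧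
          (∃ a ∈ t, a ∈ (Fin.cons Om X : Fin 4 → Finset C) 2) ∧
          ∃ a ∈ t, a ∈ (Fin.cons Om X : Fin 4 → Finset C) 3) := by
      apply filter_congr
      intro t ht
      have e1 : (Fin.cons Om X : Fin 4 → Finset C) 1 = X 0 := rfl
      have e2 : (Fin.cons Om X : Fin 4 → Finset C) 2 = X 1 := rfl
      have e3 : (Fin.cons Om X : Fin 4 → Finset C) 3 = X 2 := rfl
      rw [e1, e2, e3]
      constructor
      · intro h1
        have h2 := hcon t ht h1
        refine ⟨?_, ?_, ?_⟩
        · obtain ⟨a, ha, hga⟩ := h1 0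
          exact ⟨a, ha, by rw [← hga]; exact hg2 a (h2 a ha)⟩
        · obtain ⟨a, ha, hga⟩ := h1 1
          exact ⟨a, ha, by rw [← hga]; exact hg2 a (h2 a ha)⟩
        · obtain ⟨a, ha, hga⟩ := h1 2
          exact ⟨a, ha, by rw [← hga]; exact hg2 a (h2 a ha)⟩
      · rintro ⟨⟨a, ha, haX⟩, ⟨b, hb, hbX⟩, c, hc, hcX⟩ i
        have hi : i = 0 ∨ i = 1 ∨ i = 2 := by
          revert i; decide
        rcases hi with rfl | rfl | rfl
        · exact ⟨a, ha, hgX a 0 haX⟩
        · exact ⟨b, hb, hgX b 1 hbX⟩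
        · exact ⟨c, hc, hgX c 2 hcX⟩
    have h5 := sperner Z g
    rw [e, h4] at h5
    exact absurd h5 (by decide)
  refine ⟨t ∩ Om, inter_subset_right, ⟨p, mem_inter.mpr ⟨hpt, hpO⟩⟩, ?_, ?_, ?_⟩
  · rw [← Z.card_tri t ht]
    exact card_le_card inter_subset_left
  · refine conn_biUnion Z _ ⟨p, mem_inter.mpr ⟨hpt, hpO⟩⟩ leg ?_ ?_
    · intro q hq
      exact (hleg q (mem_inter.mp hq).2).2.2.1
    · intro a ha b hb hab
      obtain ⟨hat, haO⟩ := mem_inter.mp ha
      obtain ⟨hbt, hbO⟩ := mem_inter.mp hb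
      exact Or.inr ⟨a, (hleg a haO).2.1, b, (hleg b hbO).2.1, hab, t, ht, hat, hbt⟩
  · intro i
    obtain ⟨a, hat, hga⟩ := htri i
    by_cases haO : a ∈ Om
    · have h1 := hg1 a haO
      rw [hga] at h1
      exact adjs_mono Z (subset_biUnion_of_mem leg (mem_inter.mpr ⟨hat, haO⟩)) (Subset.refl _) h1
    · have h1 := hg2 a haO
      rw [hga] at h1
      refine ⟨p, mem_biUnion.mpr ⟨p, mem_inter.mpr ⟨hpt, hpO⟩, (hleg p hpO).2.1⟩, a, h1, ?_, t,
        ht, hpt, hat⟩
      rintro rfl
      exact haO hpO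

end Pool.MP627f83
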