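import Pool.Agent.Lib.MP_627f83_co.Defs
import Pool.Agent.Lib.MP_627f83_co.SplitA
import Pool.Agent.Lib.MP_627f83_co.SplitB

/-!
# SplitC: splitting a region, n = 1, 2, 3

`interval_cases n` and the three cases.
-/

namespace Pool.MP627f83

open Finset
open scoped Classical

variable {C : Type} [Fintype C] [DecidableEq C] (Z : TriSphere C)

theorem split {n : ℕ} (hn : 1 ≤ n) (hn3 : n ≤ 3) {Om : Finset C} {X : Fin n → Finset C}
    (h : Z.State n Om X)
    (leg : C → Finset C)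
    (hleg : ∀ p ∈ Om, leg p ⊆ Om ∧ p ∈ leg p ∧ Z.Conn (leg p) ∧
      ∃ c ∈ leg p, ∃ d, d ∉ Om ∧ Z.Adj c d) :
    ∃ P ⊆ Om, P.Nonempty ∧ P.card ≤ 3 ∧ Z.Conn (P.biUnion leg) ∧
      ∀ i, Z.Adjs (P.biUnion leg) (X i) := by
  obtain rfl | rfl | rfl : n = 1 ∨ n = 2 ∨ n = 3 := by omega
  · exact split_one Z h leg hleg
  · exact split_two Z h leg hleg
  · exact split_three Z h leg hleg

end Pool.MP627f83
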