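import Pool.Agent.Lib.MP_627f83_co.Defs
import Pool.Agent.Lib.MP_627f83_co.Leg
import Pool.Agent.Lib.MP_627f83_co.SplitC

/-!
# ExA: the tripod of one node

`leg p = Mn p ∪ En p` from `leg_exists` (choose), `P` from `split`; `M = P.biUnion Mn`, `E = P.biUnion En`,
`K = P.biUnion K_p`, `CE = P.biUnion S_p`. `P.card ≤ 3` gives the bounds `6 s`. `P` is nonempty, so `M ∪ E` is.
-/

namespace Pool.MP627f83

open Finset
open scoped Classical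

variable {V C ι : Type} [Fintype V] [DecidableEq V] [Fintype C] [DecidableEq C]

theorem node_step (m : Model V C ι) (Om : Finset C) (ho : m.o ∉ Om) (I : Finset V)
    (hex : ∀ x ∈ I, m.h x ∈ Om → ∃ κ, x ∈ m.ends κ ∧ ∃ c ∈ m.cells κ, c ∉ Om)
    {n : ℕ} (hn : 1 ≤ n) (hn3 : n ≤ 3) {X : Fin n → Finset C} (hX : m.Z.State n Om X) :
    ∃ (M E : Finset C) (K S : Finset V), M ∪ E ⊆ Om ∧ (M ∪ E).Nonempty ∧ m.Z.Conn (M ∪ E) ∧
      (∀ i, m.Z.Adjs (M ∪ E) (X i)) ∧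
      (∀ κ, (∃ c ∈ M, c ∈ m.cells κ) → ∀ v ∈ m.ends κ, v ∉ I) ∧
      m.Hits K M ∧ (∀ j, (K.filter (fun v => m.L v = j)).card ≤ 6 * m.s) ∧
      m.Hits S E ∧ S.card ≤ 6 * m.s := by
  have hleg := fun p (hp : p ∈ Om) => leg_exists m Om ho I hex p hp
  choose! Mn En Kp Sp hM1 hE1 hp1 hc1 hd1 hI1 hK1 hL1 hS1 hSc using hleg
  obtain ⟨P, hPO, hPne, hP3, hPc, hPX⟩ := split m.Z hn hn3 hX (fun p => Mn p ∪ En p)
    (fun p hp => ⟨Finset.union_subset (hM1 p hp) (hE1 p hp), hp1 p hp, hc1 p hp, hd1 p hp⟩)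
  have hU : P.biUnion (fun p => Mn p ∪ En p) = P.biUnion Mn ∪ P.biUnion En := by
    ext c
    simp only [Finset.mem_biUnion, Finset.mem_union]
    constructor
    · rintro ⟨p, hp, h | h⟩
      · exact Or.inl ⟨p, hp, h⟩
      · exact Or.inr ⟨p, hp, h⟩
    · rintro (⟨p, hp, h⟩ | ⟨p, hp, h⟩)
      · exact ⟨p, hp, Or.inl h⟩
      · exact ⟨p, hp, Or.inr h⟩
  rw [hU] at hPc
  refine ⟨P.biUnion Mn, P.biUnion En, P.biUnion Kp, P.biUnion Sp, ?_, hPc.1, hPc, ?_, ?_, ?_, ?_,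
    ?_, ?_⟩
  · rw [← hU]
    intro c hc
    obtain ⟨p, hp, h⟩ := Finset.mem_biUnion.1 hc
    exact (Finset.union_subset (hM1 p (hPO hp)) (hE1 p (hPO hp))) h
  · intro i
    have := hPX i
    rwa [hU] at this
  · rintro κ ⟨c, hc, hcκ⟩ v hv
    obtain ⟨p, hp, h⟩ := Finset.mem_biUnion.1 hc
    exact hI1 p (hPO hp) κ ⟨c, h, hcκ⟩ v hv
  · rintro κ ⟨c, hc, hcκ⟩
    obtain ⟨p, hp, h⟩ := Finset.mem_biUnion.1 hc
    obtain ⟨v, hv, hvK⟩ := hK1 p (hPO hp) κ ⟨c, h, hcκ⟩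
    exact ⟨v, hv, Finset.mem_biUnion.2 ⟨p, hp, hvK⟩⟩
  · intro j
    have h1 : (P.biUnion Kp).filter (fun v => m.L v = j) ⊆
        P.biUnion (fun p => (Kp p).filter (fun v => m.L v = j)) := by
      intro v hv
      simp only [Finset.mem_filter, Finset.mem_biUnion] at hv ⊢
      obtain ⟨⟨p, hp, h⟩, hj⟩ := hv
      exact ⟨p, hp, h, hj⟩
    calc ((P.biUnion Kp).filter (fun v => m.L v = j)).card
        ≤ (P.biUnion (fun p => (Kp p).filter (fun v => m.L v = j))).card := Finset.card_le_card h1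
      _ ≤ P.card * (2 * m.s) := Finset.card_biUnion_le_card_mul _ _ _
          (fun p hp => hL1 p (hPO hp) j)
      _ ≤ 3 * (2 * m.s) := Nat.mul_le_mul_right _ hP3
      _ = 6 * m.s := by ring
  · rintro κ ⟨c, hc, hcκ⟩
    obtain ⟨p, hp, h⟩ := Finset.mem_biUnion.1 hc
    obtain ⟨v, hv, hvK⟩ := hS1 p (hPO hp) κ ⟨c, h, hcκ⟩
    exact ⟨v, hv, Finset.mem_biUnion.2 ⟨p, hp, hvK⟩⟩
  · calc (P.biUnion Sp).card ≤ P.card * (2 * m.s) := Finset.card_biUnion_le_card_mul _ _ _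
          (fun p hp => hSc p (hPO hp))
      _ ≤ 3 * (2 * m.s) := Nat.mul_le_mul_right _ hP3
      _ = 6 * m.s := by ring

end Pool.MP627f83
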