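import Pool.Agent.Lib.MP_627f83_co.Defs

/-!
# ExDefs: definitions for the existence part (FINAL)

`StateOK`: the region of `l` is the region of a state with at most three classes; `lab j` is the label of the
class `X j`: `none` for the class whose only cell next to the region is `o`, or a node `t ∈ T l` whose tripod
contains the cells of `X j` next to the region. `ValidUpTo n`: the properties of `Sys.Valid` for nodes of length
`< n`, together with `StateOK` and connectivity of the tripods (adjacent to all classes).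
-/

namespace Pool.MP627f83

open Finset
open scoped Classical

variable {V C ι : Type} [Fintype V] [DecidableEq V] [Fintype C] [DecidableEq C]

/-- the region of `l` has a state whose classes are labelled by `T l` -/
def StateOK (m : Model V C ι) (S : Sys V C) (l : List (Finset C)) : Prop :=
  ∃ n, 1 ≤ n ∧ n ≤ 3 ∧ ∃ (X : Fin n → Finset C) (lab : Fin n → Option (List (Finset C))),
    m.Z.State n (m.Om l) X ∧
    (∀ j, ∀ d ∈ X j, (∃ a ∈ m.Om l, m.Z.Adj a d) →
      (lab j = none ∧ d = m.o) ∨ ∃ t, lab j = some t ∧ d ∈ S.Y t) ∧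
    (∀ t, t ∈ S.T l ↔ ∃ j, lab j = some t) ∧
    m.Z.Conn (S.Y l) ∧ S.Y l ⊆ m.Om l ∧ ∀ j, m.Z.Adjs (S.Y l) (X j)

/-- the conditions on the data of one node -/
structure NodeOK (m : Model V C ι) (S : Sys V C) (l : List (Finset C)) : Prop where
  st : StateOK m S l
  T_sub : ∀ U l', l = U :: l' → S.T l ⊆ insert l' (S.T l')
  T_nil : l = [] → S.T l = ∅
  M_free : ∀ κ, (∃ c ∈ S.M l, c ∈ m.cells κ) → ∀ v ∈ m.ends κ, v ∉ S.Intro m l
  CM_sub : S.CM l ⊆ S.F m l
  CM_hit : ∀ κ, (∃ c ∈ S.M l, c ∈ m.cells κ) → m.ends κ ⊆ S.F m l → ∃ v ∈ m.ends κ, v ∈ S.CM l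
  CM_layer : ∀ j, ((S.CM l).filter (fun v => m.L v = j)).card ≤ 6 * m.s
  CE_hit : m.Hits (S.CE l) (S.E l)
  CE_card : (S.CE l).card ≤ 6 * m.s

/-- two systems agree on all lists of length `< n` -/
def AgreeUpTo (S S' : Sys V C) (n : ℕ) : Prop :=
  ∀ l : List (Finset C), l.length < n → S.M l = S'.M l ∧ S.E l = S'.E l ∧ S.CM l = S'.CM l ∧
    S.CE l = S'.CE l ∧ S.T l = S'.T l

end Pool.MP627f83
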