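import Pool.Agent.Lib.MP_627f83_co.Defs
import Pool.Agent.Lib.MP_627f83_co.ExDefs

/-!
# ExB: agreement of systems

Both systems agree on lists of length `< n`. Then `Nd` agrees for lists of length `≤ n` (`Nd (U :: l)` uses `Y l`
only). For nodes `l` of length `< n` that are `NodeOK` (all nodes of length `< n` are), `T l` consists of
suffixes of `l` (induction with `T_sub`), hence of lists of length `< n`, so `CC l`, `Nf l I`, `cmp l` agree; so `Intro`
and `F` agree for nodes of length `≤ n`, and `NodeOK`, `StateOK` transfer for nodes of length `< n`.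
-/

namespace Pool.MP627f83

open Finset
open scoped Classical

variable {V C ι : Type} [Fintype V] [DecidableEq V] [Fintype C] [DecidableEq C]

theorem ExB_T_suffix (m : Model V C ι) (S : Sys V C) {n : ℕ}
    (hok : ∀ l, S.Nd m l → l.length < n → NodeOK m S l) {l : List (Finset C)} (hl : S.Nd m l) :
    l.length < n → ∀ t, t ∈ S.T l → t <:+ l ∧ t ≠ l := by
  induction hl with
  | nil =>
    intro hn t ht
    rw [(hok [] Sys.Nd.nil hn).T_nil rfl] at ht
    exact absurd ht (Finset.notMem_empty _)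
  | cons l c hl hc ih =>
    intro hn t ht
    have h1 := (hok _ (Sys.Nd.cons l c hl hc) hn).T_sub _ _ rfl ht
    have h2 : t <:+ l := by
      rcases Finset.mem_insert.mp h1 with h3 | h3
      · rw [h3]
      · refine (ih ?_ t h3).1
        simp only [List.length_cons] at hn
        omega
    refine ⟨h2.trans (List.suffix_cons _ _), ?_⟩
    intro h4
    have h5 := h2.length_le
    rw [h4] at h5
    simp only [List.length_cons] at h5
    omega

theorem T_suffix_of_ok (m : Model V C ι) (S : Sys V C)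
    (h : ∀ l, S.Nd m l → NodeOK m S l) {l : List (Finset C)} (hl : S.Nd m l)
    {t : List (Finset C)} (ht : t ∈ S.T l) : t <:+ l ∧ t ≠ l :=
  ExB_T_suffix m S (n := l.length + 1) (fun l' h' _ => h l' h') hl (Nat.lt_succ_self _) t ht

theorem ExB_Y {S S' : Sys V C} {n : ℕ} (h : AgreeUpTo S S' n) {l : List (Finset C)}
    (hl : l.length < n) : S.Y l = S'.Y l := by
  obtain ⟨h1, h2, -, -, -⟩ := h l hl
  simp only [Sys.Y, h1, h2]

theorem ExB_CY {S S' : Sys V C} {n : ℕ} (h : AgreeUpTo S S' n) {l : List (Finset C)}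
    (hl : l.length < n) : S.CY l = S'.CY l := by
  obtain ⟨-, -, h1, h2, -⟩ := h l hl
  simp only [Sys.CY, h1, h2]

theorem ExB_T {S S' : Sys V C} {n : ℕ} (h : AgreeUpTo S S' n) {l : List (Finset C)}
    (hl : l.length < n) : S.T l = S'.T l := (h l hl).2.2.2.2

theorem ExB_cmp (m : Model V C ι) {S S' : Sys V C} {n : ℕ} (h : AgreeUpTo S S' n)
    {l : List (Finset C)} (hl : l.length < n) (c : C) : S.cmp m l c = S'.cmp m l c := by
  simp only [Sys.cmp, ExB_Y h hl]

theorem ExB_symm {S S' : Sys V C} {n : ℕ} (h : AgreeUpTo S S' n) : AgreeUpTo S' S n := by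
  intro l hl
  obtain ⟨h1, h2, h3, h4, h5⟩ := h l hl
  exact ⟨h1.symm, h2.symm, h3.symm, h4.symm, h5.symm⟩

theorem ExB_nd (m : Model V C ι) {S S' : Sys V C} {n : ℕ} (h : AgreeUpTo S S' n)
    {l : List (Finset C)} (hl : S.Nd m l) : l.length ≤ n → S'.Nd m l := by
  induction hl with
  | nil => intro _; exact Sys.Nd.nil
  | cons l c hl hc ih =>
    intro hn
    simp only [List.length_cons] at hn
    have hlt : l.length < n := by omega
    rw [ExB_cmp m h hlt c]
    refine Sys.Nd.cons l c (ih (by omega)) ?_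
    rw [← ExB_Y h hlt]
    exact hc

theorem agree_nd (m : Model V C ι) {S S' : Sys V C} {n : ℕ} (h : AgreeUpTo S S' n)
    {l : List (Finset C)} (hl : l.length ≤ n) : S.Nd m l ↔ S'.Nd m l :=
  ⟨fun h1 => ExB_nd m h h1 hl, fun h1 => ExB_nd m (ExB_symm h) h1 hl⟩

theorem ExB_CC (m : Model V C ι) {S S' : Sys V C} {n : ℕ} (h : AgreeUpTo S S' n)
    (hok : ∀ l, S.Nd m l → l.length < n → NodeOK m S l)
    {l : List (Finset C)} (hl : S.Nd m l) (hn : l.length < n) : S.CC l = S'.CC l := by
  have h1 : (S.T l).biUnion S.CY = (S.T l).biUnion S'.CY := by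
    apply Finset.biUnion_congr rfl
    intro t ht
    refine ExB_CY h ?_
    have h2 := (ExB_T_suffix m S hok hl hn t ht).1.length_le
    omega
  unfold Sys.CC
  rw [h1, ExB_CY h hn, ExB_T h hn]

theorem ExB_Nf (m : Model V C ι) {S S' : Sys V C} {n : ℕ} (h : AgreeUpTo S S' n)
    (hok : ∀ l, S.Nd m l → l.length < n → NodeOK m S l)
    {l : List (Finset C)} (hl : S.Nd m l) (hn : l.length < n) (I : Finset V) :
    S.Nf m l I = S'.Nf m l I := by
  simp only [Sys.Nf, ExB_CC m h hok hl hn, ExB_Y h hn, ExB_cmp m h hn]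

theorem ExB_intro (m : Model V C ι) {S S' : Sys V C} {n : ℕ} (h : AgreeUpTo S S' n)
    (hok : ∀ l, S.Nd m l → l.length < n → NodeOK m S l)
    {l : List (Finset C)} (hl : S.Nd m l) : l.length ≤ n → S.Intro m l = S'.Intro m l := by
  induction hl with
  | nil => intro _; simp only [Sys.Intro]
  | cons l c hl hc ih =>
    intro hn
    simp only [List.length_cons] at hn
    have hlt : l.length < n := by omega
    simp only [Sys.Intro]
    rw [ih (by omega), ExB_Nf m h hok hl hlt]

theorem agree_intro (m : Model V C ι) {S S' : Sys V C} {n : ℕ} (h : AgreeUpTo S S' n)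
    (hok : ∀ l, S.Nd m l → l.length < n → NodeOK m S l)
    {l : List (Finset C)} (hl : S.Nd m l) (hn : l.length ≤ n) : S.Intro m l = S'.Intro m l :=
  ExB_intro m h hok hl hn

theorem agree_ok (m : Model V C ι) {S S' : Sys V C} {n : ℕ} (h : AgreeUpTo S S' n)
    (hok : ∀ l, S.Nd m l → l.length < n → NodeOK m S l)
    {l : List (Finset C)} (hl : S.Nd m l) (hn : l.length < n) : NodeOK m S' l := by
  have hk := hok l hl hn
  have hI := agree_intro m h hok hl hn.le
  have hF : S.F m l = S'.F m l := by simp only [Sys.F, hI]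
  obtain ⟨e1, e2, e3, e4, e5⟩ := h l hn
  have eY := ExB_Y h hn
  refine ⟨?_, ?_, ?_, ?_, ?_, ?_, ?_, ?_, ?_⟩
  · obtain ⟨k, h1, h3, X, lab, hst, hb, hT, hc, hs, ha⟩ := hk.st
    refine ⟨k, h1, h3, X, lab, hst, ?_, ?_, ?_, ?_, ?_⟩
    · intro j d hd hx
      rcases hb j d hd hx with h6 | ⟨t, ht, hdt⟩
      · exact Or.inl h6
      · refine Or.inr ⟨t, ht, ?_⟩
        have htT : t ∈ S.T l := (hT t).mpr ⟨j, ht⟩
        have hlen := (ExB_T_suffix m S hok hl hn t htT).1.length_le
        rw [← ExB_Y h (show t.length < n by omega)]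
        exact hdt
    · intro t
      rw [← e5]
      exact hT t
    · rw [← eY]; exact hc
    · rw [← eY]; exact hs
    · rw [← eY]; exact ha
  · intro U l' hl'
    have h6 := hk.T_sub U l' hl'
    have h7 : l'.length < n := by
      rw [hl', List.length_cons] at hn
      omega
    rw [← e5, ← ExB_T h h7]
    exact h6
  · intro h0
    rw [← e5]
    exact hk.T_nil h0
  · rw [← e1, ← hI]
    exact hk.M_free
  · rw [← e3, ← hF]
    exact hk.CM_sub
  · rw [← e1, ← e3, ← hF]
    exact hk.CM_hit
  · rw [← e3]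
    exact hk.CM_layer
  · rw [← e4, ← e2]
    exact hk.CE_hit
  · rw [← e4]
    exact hk.CE_card

end Pool.MP627f83
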