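import Pool.Agent.Lib.MP_627f83_co.Defs
import Pool.Agent.Lib.MP_627f83_co.ExDefs
import Pool.Agent.Lib.MP_627f83_co.Child
import Pool.Agent.Lib.MP_627f83_co.ConnB

/-!
# ExC: the state of a child node

From `StateOK l` and `child` (for `Y l`): for the component `U = cmp l c` there is a state with classes `X'` and for
every `X' j` either an `i` (then the cells of `X' j` next to `U` are in `X i` and next to `Om l`, label `lab i`) or
they are in `Y l` (label `some l`). `T'` = the set of labels (`Finset.univ.image lab'` without `none`), at most 3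
elements.
-/

namespace Pool.MP627f83

open Finset
open scoped Classical

variable {V C ι : Type} [Fintype V] [DecidableEq V] [Fintype C] [DecidableEq C]

theorem child_state (m : Model V C ι) (S : Sys V C) {l : List (Finset C)}
    (h : StateOK m S l) {c : C} (hc : c ∈ m.Om l \ S.Y l) :
    ∃ n, 1 ≤ n ∧ n ≤ 3 ∧ ∃ (X : Fin n → Finset C) (lab : Fin n → Option (List (Finset C)))
      (T' : Finset (List (Finset C))),
      m.Z.State n (S.cmp m l c) X ∧
      (∀ j, ∀ d ∈ X j, (∃ a ∈ S.cmp m l c, m.Z.Adj a d) →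
        (lab j = none ∧ d = m.o) ∨ ∃ t, lab j = some t ∧ d ∈ S.Y t) ∧
      (∀ t, t ∈ T' ↔ ∃ j, lab j = some t) ∧ T' ⊆ insert l (S.T l) := by
  obtain ⟨n, h1, h3, X, lab, hst, hlab, hT, hYc, hYs, hYX⟩ := h
  obtain ⟨n', h1', h3', X', hst', H⟩ := child m.Z h3 hst hYs hYc hYX hc
  have key : ∀ j, ∃ o : Option (List (Finset C)),
      (∀ d ∈ X' j, (∃ a ∈ S.cmp m l c, m.Z.Adj a d) →
        (o = none ∧ d = m.o) ∨ ∃ t, o = some t ∧ d ∈ S.Y t) ∧
      (∀ t, o = some t → t ∈ insert l (S.T l)) := by
    intro j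
    rcases H j with ⟨i, hi⟩ | hi
    · refine ⟨lab i, ?_, ?_⟩
      · intro d hd ha
        have hdX := hi d hd ha
        obtain ⟨a, haU, had⟩ := ha
        have haO : a ∈ m.Om l := (mem_sdiff.1 (comp_subset m.Z _ _ haU)).1
        exact hlab i d hdX ⟨a, haO, had⟩
      · intro t ht
        exact mem_insert_of_mem ((hT t).2 ⟨i, ht⟩)
    · refine ⟨some l, ?_, ?_⟩
      · intro d hd ha
        exact Or.inr ⟨l, rfl, hi d hd ha⟩
      · intro t ht
        have : l = t := Option.some.inj ht
        rw [← this]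
        exact mem_insert_self _ _
  choose lab' hlab' using key
  refine ⟨n', h1', h3', X', lab',
    (insert l (S.T l)).filter (fun t => ∃ j, lab' j = some t), hst', ?_, ?_, ?_⟩
  · intro j d hd ha
    exact (hlab' j).1 d hd ha
  · intro t
    constructor
    · intro ht
      exact (mem_filter.1 ht).2
    · rintro ⟨j, hj⟩
      exact mem_filter.2 ⟨(hlab' j).2 t hj, j, hj⟩
  · exact filter_subset _ _

end Pool.MP627f83
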