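import Pool.Agent.Lib.MP_627f83_co.Defs
import Pool.Agent.Lib.MP_627f83_co.ExDefs
import Pool.Agent.Lib.MP_627f83_co.ConnB

/-!
# ExD: exit property of introduced vertices

Induction on the list. `l = U :: a`, `U = cmp a c`. If `x ∈ Intro a`: the region of `l` is inside the region of `a`,
so `h x ∈ Om a` and by induction there is a neighbour `w` with `h w ∉ Om a`, hence `h w ∉ U`. If `x ∈ Nf a (Intro a)`:
`h x ∈ U` is not in `Y a` (`comp_subset`), so the second clause of `Nf` gives a neighbour `w` with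
`h w ∉ cmp a (h x) = U` (`comp_eq`). The second statement: the item of the edge `{x,w}` contains `h w`.
-/

namespace Pool.MP627f83

open Finset
open scoped Classical

variable {V C ι : Type} [Fintype V] [DecidableEq V] [Fintype C] [DecidableEq C]

theorem exit_nb (m : Model V C ι) (S : Sys V C) {l : List (Finset C)} (hl : S.Nd m l) {x : V}
    (hx : x ∈ S.Intro m l) (hO : m.h x ∈ m.Om l) : ∃ w, m.G.Adj x w ∧ m.h w ∉ m.Om l := by
  induction hl with
  | nil => simp [Sys.Intro] at hx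
  | cons a c ha hc ih =>
    have hU : m.Om (S.cmp m a c :: a) = S.cmp m a c := rfl
    rw [hU] at hO ⊢
    have hsub : S.cmp m a c ⊆ m.Om a \ S.Y a := comp_subset m.Z _ _
    have hOa := mem_sdiff.1 (hsub hO)
    have hx' : x ∈ S.Intro m a ∪ S.Nf m a (S.Intro m a) := hx
    rcases mem_union.1 hx' with hx1 | hx1
    · obtain ⟨w, hw, hwO⟩ := ih hx1 hOa.1
      exact ⟨w, hw, fun hc' => hwO (mem_sdiff.1 (hsub hc')).1⟩
    · have h2 := (mem_filter.1 hx1).2
      obtain ⟨_, _, h3⟩ := h2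
      rcases h3 with h3 | ⟨_, w, hw, hwn, _⟩
      · exact absurd h3 hOa.2
      · have he : S.cmp m a (m.h x) = S.cmp m a c := comp_eq m.Z hO
        rw [he] at hwn
        exact ⟨w, hw, hwn⟩

theorem exit_item (m : Model V C ι) (S : Sys V C) {l : List (Finset C)} (hl : S.Nd m l) {x : V}
    (hx : x ∈ S.Intro m l) (hO : m.h x ∈ m.Om l) :
    ∃ κ, x ∈ m.ends κ ∧ ∃ c ∈ m.cells κ, c ∉ m.Om l := by
  obtain ⟨w, hw, hwO⟩ := exit_nb m S hl hx hO
  obtain ⟨κ, hκ⟩ := m.edge x w hw
  refine ⟨κ, ?_, m.h w, ?_, hwO⟩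
  · rw [hκ]; simp
  · exact m.h_mem κ w (by rw [hκ]; simp)

end Pool.MP627f83
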