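import Pool.Agent.Lib.MP_627f83_co.Defs
import Pool.Agent.Lib.MP_627f83_co.ExA
import Pool.Agent.Lib.MP_627f83_co.ExB
import Pool.Agent.Lib.MP_627f83_co.ExC
import Pool.Agent.Lib.MP_627f83_co.ExD

/-!
# ExE: one more level of the recursion

Induction on `n`: there is `S` such that all nodes of length `< n` are `NodeOK`.
`n = 0`: any system. Step: given `S` for `n`, define `S'` by changing `S` only at lists of length `n`: for a node `l` of
length `n` choose `(M, E, CM, CE, T)`:
* `n = 0`: state with one class `X 0 = {o}`, label `none`, `T = ∅` (`Om [] = univ \ {o}`, `m.root_conn`, `conn_singleton`,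
  adjacency from `conn_univ` or `exists_boundary`).
* `n ≥ 1`: `l = cmp a c :: a` with `a` a node of length `n - 1`, `NodeOK` gives `StateOK a`, `child_state` gives the state
  of `l` and `T`.
Then `node_step` with `I = S.Intro m l` (`exit_item`; `o ∉ Om l` because `Om l ⊆ Om []`), `CM = K ∩ S.F m l`. Check: an
item that meets `M` and has all ends in `F l` has an end in `K`, hence in `CM`. `agree_intro` gives
`S'.Intro m l = S.Intro m l`, `agree_ok` transfers the old nodes, `agree_nd` the nodes. (The lists `t ∈ T` have length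
`< n`, so `S'.Y t = S.Y t`: `T ⊆ insert a (S.T a)` and `T_suffix`-argument, or `agree_ok`.)
-/

namespace Pool.MP627f83

open Finset
open scoped Classical

variable {V C ι : Type} [Fintype V] [DecidableEq V] [Fintype C] [DecidableEq C]

theorem ExE_o_not (m : Model V C ι) (S : Sys V C) {l : List (Finset C)} (hl : S.Nd m l) :
    m.o ∉ m.Om l := by
  induction hl with
  | nil => simp [Model.Om]
  | cons l c hl hc ih =>
    intro h
    apply ih
    have h1 : S.cmp m l c ⊆ m.Om l \ S.Y l := comp_subset m.Z _ _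
    exact (Finset.mem_sdiff.mp (h1 h)).1

/-- the conditions on the data of a new node, in terms of the old system -/
def ExE_P (m : Model V C ι) (S : Sys V C) (n : ℕ) (l : List (Finset C))
    (D : Finset C × Finset C × Finset V × Finset V × Finset (List (Finset C))) : Prop :=
  (∃ k, 1 ≤ k ∧ k ≤ 3 ∧ ∃ (X : Fin k → Finset C) (lab : Fin k → Option (List (Finset C))),
    m.Z.State k (m.Om l) X ∧
    (∀ j, ∀ d ∈ X j, (∃ a ∈ m.Om l, m.Z.Adj a d) →
      (lab j = none ∧ d = m.o) ∨ ∃ t, lab j = some t ∧ t.length < n ∧ d ∈ S.Y t) ∧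
    (∀ t, t ∈ D.2.2.2.2 ↔ ∃ j, lab j = some t) ∧
    m.Z.Conn (D.1 ∪ D.2.1) ∧ D.1 ∪ D.2.1 ⊆ m.Om l ∧ ∀ j, m.Z.Adjs (D.1 ∪ D.2.1) (X j)) ∧
  (∀ U l', l = U :: l' → D.2.2.2.2 ⊆ insert l' (S.T l')) ∧
  (l = [] → D.2.2.2.2 = ∅) ∧
  (∀ κ, (∃ c ∈ D.1, c ∈ m.cells κ) → ∀ v ∈ m.ends κ, v ∉ S.Intro m l) ∧
  (D.2.2.1 ⊆ S.F m l) ∧
  (∀ κ, (∃ c ∈ D.1, c ∈ m.cells κ) → m.ends κ ⊆ S.F m l → ∃ v ∈ m.ends κ, v ∈ D.2.2.1) ∧
  (∀ j, ((D.2.2.1).filter (fun v => m.L v = j)).card ≤ 6 * m.s) ∧
  (m.Hits D.2.2.2.1 D.2.1) ∧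
  (D.2.2.2.1.card ≤ 6 * m.s)

theorem ExE_step (m : Model V C ι) (S : Sys V C) (n : ℕ)
    (hok : ∀ l, S.Nd m l → l.length < n → NodeOK m S l)
    {l : List (Finset C)} (hl : S.Nd m l) (hn : l.length = n) : ∃ D, ExE_P m S n l D := by
  have hst : ∃ k, 1 ≤ k ∧ k ≤ 3 ∧ ∃ (X : Fin k → Finset C)
      (lab : Fin k → Option (List (Finset C))) (T' : Finset (List (Finset C))),
      m.Z.State k (m.Om l) X ∧
      (∀ j, ∀ d ∈ X j, (∃ a ∈ m.Om l, m.Z.Adj a d) →
        (lab j = none ∧ d = m.o) ∨ ∃ t, lab j = some t ∧ t.length < n ∧ d ∈ S.Y t) ∧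
      (∀ t, t ∈ T' ↔ ∃ j, lab j = some t) ∧
      (∀ U l', l = U :: l' → T' ⊆ insert l' (S.T l')) ∧ (l = [] → T' = ∅) := by
    cases hl with
    | nil =>
      refine ⟨1, le_refl _, by norm_num, fun _ => {m.o}, fun _ => none, ∅, ?_, ?_, ?_, ?_, ?_⟩
      · refine ⟨m.root_conn, fun _ => conn_singleton m.Z m.o, ?_, ?_, ?_, ?_, ?_⟩
        · intro _
          rw [Finset.disjoint_singleton_right]
          simp [Model.Om]
        · intro i j hij
          exact absurd (Subsingleton.elim i j) hij
        · intro c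
          by_cases hc : c = m.o
          · exact Or.inr ⟨0, by rw [hc]; exact Finset.mem_singleton_self _⟩
          · exact Or.inl (by simp [Model.Om, hc])
        · intro i j hij
          exact absurd (Subsingleton.elim i j) hij
        · intro _
          obtain ⟨t, ht, hot⟩ := m.Z.cover m.o
          have h3 := m.Z.card_tri t ht
          obtain ⟨a, ha, hao⟩ : ∃ a ∈ t, a ≠ m.o := by
            by_contra hcon
            push Not at hcon
            have h4 : t ⊆ {m.o} := fun x hx => Finset.mem_singleton.mpr (hcon x hx)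
            have h5 := Finset.card_le_card h4
            rw [Finset.card_singleton] at h5
            omega
          exact ⟨a, by simp [Model.Om, hao], m.o, Finset.mem_singleton_self _,
            hao, t, ht, ha, hot⟩
      · intro j d hd _
        exact Or.inl ⟨rfl, Finset.mem_singleton.mp hd⟩
      · intro t
        simp
      · intro U l' h
        exact Finset.empty_subset _
      · intro _
        rfl
    | cons a c ha hc =>
      have hlen : a.length < n := by
        rw [← hn, List.length_cons]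
        exact Nat.lt_succ_self _
      obtain ⟨k, hk1, hk3, X, lab, T', hX, hb, hT, hsub⟩ :=
        child_state m S (hok a ha hlen).st hc
      refine ⟨k, hk1, hk3, X, lab, T', hX, ?_, hT, ?_, ?_⟩
      · intro j d hd hx
        rcases hb j d hd hx with h1 | ⟨t, ht, hdt⟩
        · exact Or.inl h1
        · refine Or.inr ⟨t, ht, ?_, hdt⟩
          rcases Finset.mem_insert.mp (hsub ((hT t).mpr ⟨j, ht⟩)) with h2 | h2
          · rw [h2]; exact hlen
          · have h3 := (ExB_T_suffix m S hok ha hlen t h2).1.length_le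
            omega
      · intro U l' h
        obtain ⟨h1, h2⟩ := List.cons.inj h
        rw [← h2]
        exact hsub
      · intro h
        exact absurd h (List.cons_ne_nil _ _)
  obtain ⟨k, hk1, hk3, X, lab, T', hX, hb, hT, hsub, hnil⟩ := hst
  obtain ⟨M, E, K, Sx, hsubO, _, hconn, hadj, hfree, hK, hKl, hE, hEc⟩ :=
    node_step m (m.Om l) (ExE_o_not m S hl) (S.Intro m l)
      (fun x hx hO => exit_item m S hl hx hO) hk1 hk3 hX
  refine ⟨(M, E, K ∩ S.F m l, Sx, T'), ?_, ?_, ?_, ?_, ?_, ?_, ?_, ?_, ?_⟩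
  · exact ⟨k, hk1, hk3, X, lab, hX, hb, hT, hconn, hsubO, hadj⟩
  · exact hsub
  · exact hnil
  · exact hfree
  · exact Finset.inter_subset_right
  · intro κ hκ hF
    obtain ⟨v, hv, hvK⟩ := hK κ hκ
    exact ⟨v, hv, Finset.mem_inter.mpr ⟨hvK, hF hv⟩⟩
  · intro j
    refine le_trans (Finset.card_le_card ?_) (hKl j)
    exact Finset.filter_subset_filter _ Finset.inter_subset_left
  · exact hE
  · exact hEc

theorem exists_upTo (m : Model V C ι) (n : ℕ) :
    ∃ S : Sys V C, ∀ l, S.Nd m l → l.length < n → NodeOK m S l := by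
  induction n with
  | zero =>
    exact ⟨⟨fun _ => ∅, fun _ => ∅, fun _ => ∅, fun _ => ∅, fun _ => ∅⟩,
      fun l _ h => absurd h (Nat.not_lt_zero _)⟩
  | succ n ih =>
    obtain ⟨S, hok⟩ := ih
    have key : ∀ l : List (Finset C), ∃ D, S.Nd m l → l.length = n → ExE_P m S n l D := by
      intro l
      by_cases h : S.Nd m l ∧ l.length = n
      · obtain ⟨D, hD⟩ := ExE_step m S n hok h.1 h.2
        exact ⟨D, fun _ _ => hD⟩
      · exact ⟨(∅, ∅, ∅, ∅, ∅), fun h1 h2 => absurd ⟨h1, h2⟩ h⟩
    choose g hg using key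
    let S' : Sys V C :=
      ⟨fun l => if l.length = n then (g l).1 else S.M l,
       fun l => if l.length = n then (g l).2.1 else S.E l,
       fun l => if l.length = n then (g l).2.2.1 else S.CM l,
       fun l => if l.length = n then (g l).2.2.2.1 else S.CE l,
       fun l => if l.length = n then (g l).2.2.2.2 else S.T l⟩
    have hag : AgreeUpTo S S' n := by
      intro l hl
      have hne : ¬ l.length = n := hl.ne
      exact ⟨(if_neg hne).symm, (if_neg hne).symm, (if_neg hne).symm, (if_neg hne).symm,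
        (if_neg hne).symm⟩
    refine ⟨S', ?_⟩
    intro l hl' hln
    have hl : S.Nd m l := (agree_nd m hag (by omega)).mpr hl'
    rcases Nat.lt_or_ge l.length n with hlt | hge
    · exact agree_ok m hag hok hl hlt
    · have hn : l.length = n := by omega
      have hI := agree_intro m hag hok hl hn.le
      have hF : S.F m l = S'.F m l := by simp only [Sys.F, hI]
      obtain ⟨⟨k, hk1, hk3, X, lab, hX, hb, hT, hconn, hsubO, hadj⟩, hsub, hnil, hfree, hCMF,
        hCMh, hCMl, hCE, hCEc⟩ := hg l hl hn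
      have e1 : S'.M l = (g l).1 := if_pos hn
      have e2 : S'.E l = (g l).2.1 := if_pos hn
      have e3 : S'.CM l = (g l).2.2.1 := if_pos hn
      have e4 : S'.CE l = (g l).2.2.2.1 := if_pos hn
      have e5 : S'.T l = (g l).2.2.2.2 := if_pos hn
      have eY : S'.Y l = (g l).1 ∪ (g l).2.1 := by simp only [Sys.Y, e1, e2]
      refine ⟨?_, ?_, ?_, ?_, ?_, ?_, ?_, ?_, ?_⟩
      · refine ⟨k, hk1, hk3, X, lab, hX, ?_, ?_, ?_, ?_, ?_⟩
        · intro j d hd hx
          rcases hb j d hd hx with h6 | ⟨t, ht, htn, hdt⟩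
          · exact Or.inl h6
          · refine Or.inr ⟨t, ht, ?_⟩
            rw [← ExB_Y hag htn]
            exact hdt
        · intro t
          rw [e5]
          exact hT t
        · rw [eY]; exact hconn
        · rw [eY]; exact hsubO
        · rw [eY]; exact hadj
      · intro U l' hUl
        have h7 : l'.length < n := by
          rw [hUl, List.length_cons] at hn
          omega
        rw [e5, ← ExB_T hag h7]
        exact hsub U l' hUl
      · intro h0
        rw [e5]
        exact hnil h0
      · rw [e1, ← hI]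
        exact hfree
      · rw [e3, ← hF]
        exact hCMF
      · rw [e1, e3, ← hF]
        exact hCMh
      · rw [e3]
        exact hCMl
      · rw [e4, e2]
        exact hCE
      · rw [e4]
        exact hCEc

end Pool.MP627f83
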