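import Pool.Agent.Lib.MP_627f83_co.Defs
import Pool.Agent.Lib.MP_627f83_co.ExE

/-!
# ExF: existence of a valid system

Regions of nodes strictly decrease (`Y l` is nonempty inside `Om l` and the child is inside `Om l \ Y l`), so for a
system with `NodeOK` up to length `n = card C + 2` every node has length `≤ card C`; precisely: by induction on the
list, a node `l` of length `≤ n` has `(Om l).card + l.length ≤ card C`, so no node has length `≥ n` (a list of
length `≥ n` has a suffix of length exactly `n - 1`, which would be a node). Hence all nodes are `NodeOK`. `Sys.Valid`: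
`Y_sub`, `Y_ne` from `StateOK` (`Conn` includes nonempty), `T_card`: `T l` is the set of labels of at most 3 classes;
`bdry`: `d ∉ Om l` is in some class by `State.cov`, the label is `none` (`d = o`) or some `t ∈ T l`.
-/

namespace Pool.MP627f83

open Finset
open scoped Classical

variable {V C ι : Type} [Fintype V] [DecidableEq V] [Fintype C] [DecidableEq C]

theorem ExF_len (m : Model V C ι) (S : Sys V C)
    (hS : ∀ l, S.Nd m l → l.length < Fintype.card C + 2 → NodeOK m S l)
    {l : List (Finset C)} (h : S.Nd m l) : (m.Om l).card + l.length ≤ Fintype.card C := by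
  induction h with
  | nil =>
    simpa using Finset.card_le_univ (m.Om [])
  | cons l c hl hc ih =>
    have hok := hS l hl (by omega)
    obtain ⟨n, _, _, X, lab, _, _, _, hY, hYs, _⟩ := hok.st
    have h1 : (S.cmp m l c).card ≤ (m.Om l \ S.Y l).card :=
      Finset.card_le_card (Finset.filter_subset _ _)
    rw [Finset.card_sdiff_of_subset hYs] at h1
    have h2 : 0 < (S.Y l).card := hY.1.card_pos
    have h3 : (S.Y l).card ≤ (m.Om l).card := Finset.card_le_card hYs
    have h4 : m.Om (S.cmp m l c :: l) = S.cmp m l c := rfl
    rw [h4, List.length_cons]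
    omega

theorem sys_exists (m : Model V C ι) : ∃ S : Sys V C, S.Valid m := by
  obtain ⟨S, hS⟩ := exists_upTo m (Fintype.card C + 2)
  have hall : ∀ l, S.Nd m l → NodeOK m S l := fun l hl =>
    hS l hl (by have := ExF_len m S hS hl; omega)
  refine ⟨S, ?_⟩
  constructor
  · intro l hl
    obtain ⟨n, _, _, X, lab, _, _, _, hY, hYs, _⟩ := (hall l hl).st
    exact hYs
  · intro l hl
    obtain ⟨n, _, _, X, lab, _, _, _, hY, hYs, _⟩ := (hall l hl).st
    exact hY.1
  · exact (hall [] Sys.Nd.nil).T_nil rfl
  · intro U l hl
    exact (hall _ hl).T_sub U l rfl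
  · intro l hl
    obtain ⟨n, _, hn3, X, lab, _, _, hT, _, _, _⟩ := (hall l hl).st
    have h1 : S.T l ⊆ (univ : Finset (Fin n)).image (fun j => (lab j).getD []) := by
      intro t ht
      obtain ⟨j, hj⟩ := (hT t).1 ht
      rw [Finset.mem_image]
      exact ⟨j, Finset.mem_univ _, by simp [hj]⟩
    have h2 := Finset.card_le_card h1
    have h3 : ((univ : Finset (Fin n)).image (fun j => (lab j).getD [])).card ≤ n := by
      refine Finset.card_image_le.trans ?_
      simp
    omega
  · intro l hl c hc d hd hcd
    obtain ⟨n, _, hn3, X, lab, hst, hlab, hT, _, _, _⟩ := (hall l hl).st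
    rcases hst.cov d with h | ⟨j, hj⟩
    · exact absurd h hd
    · rcases hlab j d hj ⟨c, hc, hcd⟩ with h | ⟨t, ht, hdt⟩
      · exact Or.inl h.2
      · exact Or.inr ⟨t, (hT t).2 ⟨j, ht⟩, hdt⟩
  · intro l hl
    exact (hall l hl).M_free
  · intro l hl
    exact (hall l hl).CM_sub
  · intro l hl
    exact (hall l hl).CM_hit
  · intro l hl
    exact (hall l hl).CM_layer
  · intro l hl
    exact (hall l hl).CE_hit
  · intro l hl
    exact (hall l hl).CE_card

end Pool.MP627f83
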