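import Pool.Agent.Lib.MP_627f83_co.Defs
import Pool.Agent.Lib.MP_627f83_co.ConnB

/-!
# RA: nodes, regions, persistence

Elementary facts about nodes (lists) of a valid system. `Nd (U :: l)` means `Nd l` and `U = cmp l c` with
`c ∈ Om l \ Y l` (cases on the inductive predicate). Regions decrease along suffixes. `T_suffix` by induction from
`T_cons`. `persist`: induction on the list `l` along the suffix `a`: `t ∈ T (U :: l) ⊆ insert l (T l)`.
`nd_finite`: nodes have length `≤ card C` since the regions strictly decrease (`Y_ne`), and lists of bounded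
length over a finite type are finite (`List.finite_length_le`).
-/

namespace Pool.MP627f83

open Finset
open scoped Classical

variable {V C ι : Type} [Fintype V] [DecidableEq V] [Fintype C] [DecidableEq C]

theorem nd_tail (m : Model V C ι) {S : Sys V C} {U : Finset C} {l : List (Finset C)}
    (h : S.Nd m (U :: l)) : S.Nd m l := by
  cases h with
  | cons l c hl hc => exact hl

theorem nd_cons (m : Model V C ι) {S : Sys V C} {U : Finset C} {l : List (Finset C)}
    (h : S.Nd m (U :: l)) : ∃ c ∈ m.Om l \ S.Y l, U = S.cmp m l c := by
  cases h with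
  | cons l c hl hc => exact ⟨c, hc, rfl⟩

theorem cmp_eq_of_mem (m : Model V C ι) {S : Sys V C} {U : Finset C} {l : List (Finset C)}
    (h : S.Nd m (U :: l)) {c : C} (hc : c ∈ U) : S.cmp m l c = U ∧ c ∈ m.Om l ∧ c ∉ S.Y l := by
  obtain ⟨d, hd, rfl⟩ := nd_cons m h
  have h1 : c ∈ m.Om l \ S.Y l := comp_subset m.Z _ _ hc
  refine ⟨comp_eq m.Z hc, ?_, ?_⟩
  · exact (Finset.mem_sdiff.mp h1).1
  · exact (Finset.mem_sdiff.mp h1).2

theorem nd_suffix (m : Model V C ι) {S : Sys V C} {a l : List (Finset C)} (h : S.Nd m l)
    (ha : a <:+ l) : S.Nd m a := by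
  induction l with
  | nil =>
    have : a = [] := List.suffix_nil.mp ha
    rw [this]; exact h
  | cons U l ih =>
    rcases List.suffix_cons_iff.mp ha with h1 | h1
    · rw [h1]; exact h
    · exact ih (nd_tail m h) h1

private theorem Om_sub_tail (m : Model V C ι) {S : Sys V C} {U : Finset C} {l : List (Finset C)}
    (h : S.Nd m (U :: l)) : U ⊆ m.Om l := by
  intro c hc
  exact (cmp_eq_of_mem m h hc).2.1

theorem Om_mono (m : Model V C ι) {S : Sys V C} {a l : List (Finset C)} (h : S.Nd m l)
    (ha : a <:+ l) : m.Om l ⊆ m.Om a := by
  induction l with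
  | nil =>
    have : a = [] := List.suffix_nil.mp ha
    rw [this]
  | cons U l ih =>
    rcases List.suffix_cons_iff.mp ha with h1 | h1
    · rw [h1]
    · exact (Om_sub_tail m h).trans (ih (nd_tail m h) h1)

theorem Intro_mono (m : Model V C ι) {S : Sys V C} {a l : List (Finset C)}
    (ha : a <:+ l) : S.Intro m a ⊆ S.Intro m l := by
  induction l with
  | nil =>
    have : a = [] := List.suffix_nil.mp ha
    rw [this]
  | cons U l ih =>
    rcases List.suffix_cons_iff.mp ha with h1 | h1
    · rw [h1]
    · refine (ih h1).trans ?_
      show S.Intro m l ⊆ S.Intro m l ∪ S.Nf m l (S.Intro m l)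
      exact Finset.subset_union_left

theorem N_sub_Intro (m : Model V C ι) {S : Sys V C} {a l : List (Finset C)}
    (ha : a <:+ l) (hne : a ≠ l) : S.N m a ⊆ S.Intro m l := by
  cases l with
  | nil => exact absurd (List.suffix_nil.mp ha) hne
  | cons U l =>
    rcases List.suffix_cons_iff.mp ha with h1 | h1
    · exact absurd h1 hne
    · induction l generalizing U with
      | nil =>
        have h2 : a = [] := List.suffix_nil.mp h1
        subst h2
        show S.Nf m [] (S.Intro m []) ⊆ S.Intro m [] ∪ S.Nf m [] (S.Intro m [])
        exact Finset.subset_union_right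
      | cons W l ih =>
        rcases List.suffix_cons_iff.mp h1 with h2 | h2
        · subst h2
          show S.Nf m (W :: l) (S.Intro m (W :: l)) ⊆
            S.Intro m (W :: l) ∪ S.Nf m (W :: l) (S.Intro m (W :: l))
          exact Finset.subset_union_right
        · have hne2 : a ≠ W :: l := by
            intro hh
            rw [hh] at h2
            have := h2.length_le
            simp at this
          have h3 := ih W h1 hne2 h2
          refine h3.trans ?_
          show S.Intro m (W :: l) ⊆ S.Intro m (W :: l) ∪ S.Nf m (W :: l) (S.Intro m (W :: l))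
          exact Finset.subset_union_left

theorem Intro_top (m : Model V C ι) {S : Sys V C} {l : List (Finset C)} {v : V}
    (hv : v ∈ S.Intro m l) : ∃ a, a <:+ l ∧ a ≠ l ∧ v ∈ S.N m a := by
  induction l with
  | nil =>
    have : v ∈ (∅ : Finset V) := hv
    simp at this
  | cons U l ih =>
    have hv2 : v ∈ S.Intro m l ∪ S.Nf m l (S.Intro m l) := hv
    rcases Finset.mem_union.mp hv2 with h1 | h1
    · obtain ⟨a, ha, hne, hva⟩ := ih h1
      refine ⟨a, ha.trans (List.suffix_cons U l), ?_, hva⟩
      intro hh
      rw [hh] at ha
      have := ha.length_le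
      simp at this
    · refine ⟨l, List.suffix_cons U l, ?_, h1⟩
      intro hh
      have := congrArg List.length hh
      simp at this

theorem T_suffix (m : Model V C ι) {S : Sys V C} (hS : S.Valid m) {l t : List (Finset C)}
    (h : S.Nd m l) (ht : t ∈ S.T l) : t <:+ l ∧ t ≠ l := by
  induction l with
  | nil =>
    rw [hS.T_nil] at ht
    simp at ht
  | cons U l ih =>
    have h1 := hS.T_cons U l h ht
    rcases Finset.mem_insert.mp h1 with h2 | h2
    · subst h2
      refine ⟨List.suffix_cons U t, ?_⟩
      intro hh
      have := congrArg List.length hh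
      simp at this
    · obtain ⟨h3, h4⟩ := ih (nd_tail m h) h2
      refine ⟨h3.trans (List.suffix_cons U l), ?_⟩
      intro hh
      rw [hh] at h3
      have := h3.length_le
      simp at this

theorem persist (m : Model V C ι) {S : Sys V C} (hS : S.Valid m) {l t a : List (Finset C)}
    (h : S.Nd m l) (ht : t ∈ insert l (S.T l)) (hta : t <:+ a) (hal : a <:+ l) :
    t ∈ insert a (S.T a) := by
  induction l with
  | nil =>
    have : a = [] := List.suffix_nil.mp hal
    rw [this]; exact ht
  | cons U l ih =>
    rcases List.suffix_cons_iff.mp hal with h1 | h1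
    · rw [h1]; exact ht
    · refine ih (nd_tail m h) ?_ h1
      rcases Finset.mem_insert.mp ht with h2 | h2
      · exfalso
        rw [h2] at hta
        have h3 := hta.length_le
        have h4 := h1.length_le
        simp at h3
        omega
      · exact hS.T_cons U l h h2

private theorem nd_card (m : Model V C ι) {S : Sys V C} (hS : S.Valid m) {l : List (Finset C)}
    (h : S.Nd m l) : l.length + (m.Om l).card ≤ Fintype.card C := by
  induction l with
  | nil =>
    simp only [List.length_nil, zero_add]
    exact Finset.card_le_univ _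
  | cons U l ih =>
    have h1 := ih (nd_tail m h)
    have h2 : U ⊂ m.Om l := by
      refine ⟨Om_sub_tail m h, ?_⟩
      intro hsub
      obtain ⟨c, hc⟩ := hS.Y_ne l (nd_tail m h)
      have hc2 : c ∈ U := hsub (hS.Y_sub l (nd_tail m h) hc)
      exact (cmp_eq_of_mem m h hc2).2.2 hc
    have h3 := Finset.card_lt_card h2
    have h4 : (m.Om (U :: l)) = U := rfl
    rw [h4, List.length_cons]
    omega

theorem nd_finite (m : Model V C ι) {S : Sys V C} (hS : S.Valid m) : {l | S.Nd m l}.Finite := by
  refine (List.finite_length_le (Finset C) (Fintype.card C)).subset ?_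
  intro l hl
  have := nd_card m hS hl
  show l.length ≤ Fintype.card C
  omega

end Pool.MP627f83
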