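import Pool.Agent.Lib.MP_627f83_co.Defs
import Pool.Agent.Lib.MP_627f83_co.ConnB
import Pool.Agent.Lib.MP_627f83_co.RA

/-!
# RB: introduced vertices, tops

* `N_sub_F`, `N_sub_CC`: `v ∈ N l` with `h v ∈ Y l`: take the item `κ` with `ends = {v}`, `cells = {h v}`; if `h v ∈ M l`
  use `CM_hit` (ends in `F l`), if `h v ∈ E l` use `CE_hit`; in the second clause of `Nf` it is explicit.
* `F_or`: a vertex with `h v ∈ Om l` is in `F l` or in `Intro l` (definition).
* `F_child`: `F (U :: l) ⊆ F l`, disjoint from `N l`.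
* `N_unique`: if `v ∈ N l` and `v ∈ N l'`: both regions contain `h v`; nodes whose regions contain a common cell are
  comparable (one is a suffix of the other): induction, children of the same node with a common cell are equal by
  `cmp_eq_of_mem`. If `l` is a proper suffix of `l'` then `v ∈ N l ⊆ Intro l'`, contradiction to `N_sub_F`.
* `exists_top`: follow the cell `h v`: strong induction on the size of the region: node `l` with `h v ∈ Om l` and
  `v ∉ Intro l`. If `h v ∈ Y l` then `v ∈ N l`. Otherwise if `v ∈ N l` done, else pass to the child `cmp l (h v) :: l`.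
  Start: `[]`, `h v ≠ o` since `h v` is in the cells of the vertex item and `o_not`.
-/

namespace Pool.MP627f83

open Finset
open scoped Classical

variable {V C ι : Type} [Fintype V] [DecidableEq V] [Fintype C] [DecidableEq C]

theorem N_sub_F (m : Model V C ι) {S : Sys V C} (l : List (Finset C)) : S.N m l ⊆ S.F m l := by
  intro v hv
  simp only [Sys.N, Sys.Nf, Finset.mem_filter, Finset.mem_univ, true_and] at hv
  simp only [Sys.F, Finset.mem_filter, Finset.mem_univ, true_and]
  exact ⟨hv.1, hv.2.1⟩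

theorem N_sub_CC (m : Model V C ι) {S : Sys V C} (hS : S.Valid m) {l : List (Finset C)}
    (h : S.Nd m l) : S.N m l ⊆ S.CC l := by
  intro v hv
  have hF : v ∈ S.F m l := N_sub_F m l hv
  simp only [Sys.N, Sys.Nf, Finset.mem_filter, Finset.mem_univ, true_and] at hv
  rcases hv.2.2 with hY | hC
  · obtain ⟨κ, hκ, hc⟩ := m.vtx v
    have hcell : m.h v ∈ m.cells κ := by rw [hc]; exact Finset.mem_singleton_self _
    have hcy : v ∈ S.CY l := by
      simp only [Sys.Y, Finset.mem_union] at hY
      simp only [Sys.CY, Finset.mem_union]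
      rcases hY with hM | hE
      · obtain ⟨w, hw, hwC⟩ := hS.CM_hit l h κ ⟨m.h v, hM, hcell⟩ (by
          rw [hκ]; exact Finset.singleton_subset_iff.2 hF)
        rw [hκ, Finset.mem_singleton] at hw
        subst hw
        exact Or.inl hwC
      · obtain ⟨w, hw, hwC⟩ := hS.CE_hit l h κ ⟨m.h v, hE, hcell⟩
        rw [hκ, Finset.mem_singleton] at hw
        subst hw
        exact Or.inr hwC
    exact Finset.mem_union_left _ hcy
  · exact hC.1

theorem F_child (m : Model V C ι) {S : Sys V C} {U : Finset C} {l : List (Finset C)}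
    (h : S.Nd m (U :: l)) {v : V} (hv : v ∈ S.F m (U :: l)) :
    v ∈ S.F m l ∧ v ∉ S.N m l ∧ m.h v ∈ U := by
  simp only [Sys.F, Finset.mem_filter, Finset.mem_univ, true_and] at hv
  obtain ⟨hU, hI⟩ := hv
  have hU' : m.h v ∈ U := hU
  have hI' : v ∉ S.Intro m l ∪ S.N m l := hI
  rw [Finset.mem_union, not_or] at hI'
  refine ⟨?_, hI'.2, hU'⟩
  simp only [Sys.F, Finset.mem_filter, Finset.mem_univ, true_and]
  exact ⟨(cmp_eq_of_mem m h hU').2.1, hI'.1⟩

theorem F_suffix (m : Model V C ι) {S : Sys V C} {a l : List (Finset C)}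
    (h : S.Nd m l) (ha : a <:+ l) : S.F m l ⊆ S.F m a := by
  intro v hv
  simp only [Sys.F, Finset.mem_filter, Finset.mem_univ, true_and] at hv ⊢
  exact ⟨Om_mono m h ha hv.1, fun hI => hv.2 (Intro_mono m ha hI)⟩

theorem RB_suffix_cases {α : Type} {l l' : List α} (h : l <:+ l') :
    l = l' ∨ ∃ u, (u :: l) <:+ l' := by
  obtain ⟨t, rfl⟩ := h
  rcases List.eq_nil_or_concat t with rfl | ⟨t', u, rfl⟩
  · exact Or.inl rfl
  · exact Or.inr ⟨u, t', by simp⟩

theorem nd_comparable (m : Model V C ι) {S : Sys V C} {l l' : List (Finset C)} {c : C}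
    (h : S.Nd m l) (h' : S.Nd m l') (hc : c ∈ m.Om l) (hc' : c ∈ m.Om l') :
    l <:+ l' ∨ l' <:+ l := by
  induction l with
  | nil => exact Or.inl (List.nil_suffix)
  | cons U l₁ ih =>
    have hcU : c ∈ U := hc
    have h1 := cmp_eq_of_mem m h hcU
    rcases ih (nd_tail m h) h1.2.1 with hs | hs
    · rcases RB_suffix_cases hs with he | ⟨U', hU'⟩
      · exact Or.inr (he ▸ List.suffix_cons U l₁)
      · have hn := nd_suffix m h' hU'
        have hcU' : c ∈ U' := Om_mono m h' hU' hc'
        have h2 := cmp_eq_of_mem m hn hcU'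
        have : U = U' := h1.1.symm.trans h2.1
        subst this
        exact Or.inl hU'
    · exact Or.inr (hs.trans (List.suffix_cons U l₁))

theorem N_unique (m : Model V C ι) {S : Sys V C} {l l' : List (Finset C)} {v : V}
    (h : S.Nd m l) (h' : S.Nd m l') (hv : v ∈ S.N m l) (hv' : v ∈ S.N m l') : l = l' := by
  have hF := N_sub_F m l hv
  have hF' := N_sub_F m l' hv'
  simp only [Sys.F, Finset.mem_filter, Finset.mem_univ, true_and] at hF hF'
  by_contra hne
  rcases nd_comparable m h h' hF.1 hF'.1 with hs | hs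
  · exact hF'.2 (N_sub_Intro m hs hne hv)
  · exact hF.2 (N_sub_Intro m hs (Ne.symm hne) hv')

theorem RB_top_aux (m : Model V C ι) {S : Sys V C} (hS : S.Valid m) (v : V) (n : ℕ) :
    ∀ l, S.Nd m l → (m.Om l).card ≤ n → m.h v ∈ m.Om l → v ∉ S.Intro m l →
      ∃ l, S.Nd m l ∧ v ∈ S.N m l := by
  induction n with
  | zero =>
    intro l _ hn hO _
    have : (m.Om l).card = 0 := Nat.le_zero.1 hn
    rw [Finset.card_eq_zero] at this
    rw [this] at hO
    exact absurd hO (Finset.notMem_empty _)
  | succ n ih =>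
    intro l hl hn hO hI
    by_cases hN : v ∈ S.N m l
    · exact ⟨l, hl, hN⟩
    by_cases hY : m.h v ∈ S.Y l
    · exfalso
      apply hN
      simp only [Sys.N, Sys.Nf, Finset.mem_filter, Finset.mem_univ, true_and]
      exact ⟨hO, hI, Or.inl hY⟩
    have hmem : m.h v ∈ m.Om l \ S.Y l := Finset.mem_sdiff.2 ⟨hO, hY⟩
    have hchild : S.Nd m (S.cmp m l (m.h v) :: l) := Sys.Nd.cons l (m.h v) hl hmem
    have hin : m.h v ∈ m.Om (S.cmp m l (m.h v) :: l) := by
      show m.h v ∈ S.cmp m l (m.h v)
      exact mem_comp_self m.Z hmem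
    have hI' : v ∉ S.Intro m (S.cmp m l (m.h v) :: l) := by
      show v ∉ S.Intro m l ∪ S.N m l
      rw [Finset.mem_union, not_or]
      exact ⟨hI, hN⟩
    refine ih _ hchild ?_ hin hI'
    have hsub : m.Om (S.cmp m l (m.h v) :: l) ⊆ m.Om l \ S.Y l := by
      show S.cmp m l (m.h v) ⊆ _
      exact comp_subset m.Z _ _
    have hlt : (m.Om l \ S.Y l).card < (m.Om l).card := by
      apply Finset.card_lt_card
      refine Finset.ssubset_iff_subset_ne.2 ⟨Finset.sdiff_subset, fun he => ?_⟩
      obtain ⟨y, hy⟩ := hS.Y_ne l hl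
      have hyO := hS.Y_sub l hl hy
      rw [← he] at hyO
      exact (Finset.mem_sdiff.1 hyO).2 hy
    have := Finset.card_le_card hsub
    omega

theorem exists_top (m : Model V C ι) {S : Sys V C} (hS : S.Valid m) (v : V) :
    ∃ l, S.Nd m l ∧ v ∈ S.N m l := by
  refine RB_top_aux m hS v (m.Om []).card [] Sys.Nd.nil le_rfl ?_ ?_
  · obtain ⟨κ, _, hc⟩ := m.vtx v
    have hne : m.h v ≠ m.o := by
      intro he
      apply m.o_not κ
      rw [hc, ← he]
      exact Finset.mem_singleton_self _
    show m.h v ∈ univ \ {m.o}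
    simp [hne]
  · show v ∉ (∅ : Finset V)
    exact Finset.notMem_empty _

end Pool.MP627f83
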