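import Pool.Agent.Lib.MP_627f83_co.Defs

/-!
# RFDefs: definitions: top, candidates, part (FINAL)


-/

namespace Pool.MP627f83

open Finset
open scoped Classical

variable {V C ι : Type} [Fintype V] [DecidableEq V] [Fintype C] [DecidableEq C]

/-- the node where `v` is introduced -/
noncomputable def top (m : Model V C ι) (S : Sys V C) (v : V) : List (Finset C) :=
  if h : ∃ l, S.Nd m l ∧ v ∈ S.N m l then h.choose else []

/-- `t` is a candidate for the part of `v` -/
def Cand (m : Model V C ι) (S : Sys V C) (v : V) (t : List (Finset C)) : Prop :=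
  t ∈ insert (top m S v) (S.T (top m S v)) ∧
    (v ∈ S.CY t ∨ ∃ w, w ∈ S.CY t ∧ w ∈ S.N m (top m S v) ∧ m.G.Adj v w)

/-- the part of `v`: the oldest candidate -/
noncomputable def part (m : Model V C ι) (S : Sys V C) (v : V) : List (Finset C) :=
  if h : ∃ t, Cand m S v t ∧ ∀ t', Cand m S v t' → t <:+ t' then h.choose else []

/-- the interface of a node: introduced vertices with a free neighbour -/
noncomputable def Kset (m : Model V C ι) (S : Sys V C) (l : List (Finset C)) : Finset V :=
  (S.Intro m l).filter (fun v => ∃ b ∈ S.F m l, m.G.Adj v b)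

/-- the bag of a node -/
noncomputable def Bag (m : Model V C ι) (S : Sys V C) (l : List (Finset C)) : Finset V :=
  S.N m l ∪ Kset m S l

/-- the bag of a node in the quotient graph -/
noncomputable def BH (m : Model V C ι) (S : Sys V C) (l : List (Finset C)) :
    Finset (List (Finset C)) :=
  insert l (S.T l) ∪ (Bag m S l).image (part m S)

end Pool.MP627f83
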