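import Pool.Agent.Lib.MP_627f83_co.Defs
import Pool.Agent.Lib.MP_627f83_co.RA
import Pool.Agent.Lib.MP_627f83_co.RB
import Pool.Agent.Lib.MP_627f83_co.RFDefs

/-!
# RF: tops and parts: basic facts

* `top_spec`: `exists_top`; `top_eq`: `N_unique`.
* `exists_cand`: `v ∈ N (top v) ⊆ CC (top v)`, so `v ∈ CY t` for some `t ∈ insert (top v) (T (top v))`.
* `part_spec`: all candidates are suffixes of `top v` (`T_suffix`), so they are totally ordered by the suffix
  relation; take one of least length.
* `part_mem`: if `t` is a candidate then `part v` is a suffix of `t` and in `insert (top v) (T (top v))`; `persist` with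
  `a = t` gives `part v ∈ insert t (T t)`.
-/

namespace Pool.MP627f83

open Finset
open scoped Classical

variable {V C ι : Type} [Fintype V] [DecidableEq V] [Fintype C] [DecidableEq C]

theorem top_spec (m : Model V C ι) {S : Sys V C} (hS : S.Valid m) (v : V) :
    S.Nd m (top m S v) ∧ v ∈ S.N m (top m S v) := by
  have h := exists_top m hS v
  unfold top
  rw [dif_pos h]
  exact h.choose_spec

theorem top_eq (m : Model V C ι) {S : Sys V C} (hS : S.Valid m) {v : V} {l : List (Finset C)}
    (h : S.Nd m l) (hv : v ∈ S.N m l) : top m S v = l :=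
  N_unique m (top_spec m hS v).1 h (top_spec m hS v).2 hv

theorem RF_suffix_top (m : Model V C ι) {S : Sys V C} (hS : S.Valid m) {v : V}
    {t : List (Finset C)} (ht : Cand m S v t) : t <:+ top m S v := by
  rcases Finset.mem_insert.1 ht.1 with h | h
  · rw [h]
  · exact (T_suffix m hS (top_spec m hS v).1 h).1

theorem RF_exists_cand (m : Model V C ι) {S : Sys V C} (hS : S.Valid m) (v : V) :
    ∃ t, Cand m S v t := by
  have h := top_spec m hS v
  have hc := N_sub_CC m hS h.1 h.2
  unfold Sys.CC at hc
  rcases Finset.mem_union.1 hc with h1 | h1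
  · exact ⟨top m S v, Finset.mem_insert_self _ _, Or.inl h1⟩
  · obtain ⟨t, ht, hv⟩ := Finset.mem_biUnion.1 h1
    exact ⟨t, Finset.mem_insert_of_mem ht, Or.inl hv⟩

theorem RF_exists_least (m : Model V C ι) {S : Sys V C} (hS : S.Valid m) (v : V) :
    ∃ t, Cand m S v t ∧ ∀ t', Cand m S v t' → t <:+ t' := by
  have hne : ∃ n, ∃ t, Cand m S v t ∧ t.length = n := by
    obtain ⟨t, ht⟩ := RF_exists_cand m hS v
    exact ⟨_, t, ht, rfl⟩
  obtain ⟨t, ht, hlen⟩ := Nat.find_spec hne
  refine ⟨t, ht, fun t' ht' => ?_⟩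
  apply List.suffix_of_suffix_length_le (RF_suffix_top m hS ht) (RF_suffix_top m hS ht')
  rw [hlen]
  exact Nat.find_min' hne ⟨t', ht', rfl⟩

theorem part_spec (m : Model V C ι) {S : Sys V C} (hS : S.Valid m) (v : V) :
    Cand m S v (part m S v) ∧ ∀ t, Cand m S v t → part m S v <:+ t := by
  have h := RF_exists_least m hS v
  unfold part
  rw [dif_pos h]
  exact h.choose_spec

theorem part_mem (m : Model V C ι) {S : Sys V C} (hS : S.Valid m) {v : V}
    {t : List (Finset C)} (ht : Cand m S v t) : part m S v ∈ insert t (S.T t) :=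
  persist m hS (top_spec m hS v).1 (part_spec m hS v).1.1 ((part_spec m hS v).2 t ht)
    (RF_suffix_top m hS ht)

theorem part_mem_top (m : Model V C ι) {S : Sys V C} (hS : S.Valid m) (v : V) :
    part m S v ∈ insert (top m S v) (S.T (top m S v)) :=
  (part_spec m hS v).1.1

end Pool.MP627f83
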