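import Pool.Agent.Lib.MP_627f83_co.Defs
import Pool.Agent.Lib.MP_627f83_co.ConnA
import Pool.Agent.Lib.MP_627f83_co.RA
import Pool.Agent.Lib.MP_627f83_co.RB

/-!
# RC: H1 and F1

`F1` for the child `U :: l` uses `H1` at the suffixes of `l`; `H1` for the child uses `F1` for the child and `H1` for `l`.
So prove `F1_of_H1` first, then `H1` by induction on the node, then `F1`.
* `F1_of_H1`: `κ` the item of the edge `{v,w}`; `cells κ` is connected, contains `h v ∈ U` and `h w ∉ U`:
  `exists_boundary` gives `c ∈ U`, `g ∈ cells κ`, `g ∉ U`, adjacent. `bdry` for the node `U :: l`: `g = o` impossible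
  (`o_not`), so `g ∈ Y t` with `t ∈ T (U :: l) ⊆ insert l (T l)`; `t` is a suffix of `l`, a node. If `g ∈ E t`: `CE_hit` gives
  `v` or `w` in `CE t ⊆ CY t ⊆ CC l`. If `g ∈ M t`: by `M_free` `v, w ∉ Intro t`; `h v ∈ U ⊆ Om t`, so `v ∈ F t`; by
  `H1 t`: `w ∈ F t`; `CM_hit` gives `v` or `w` in `CM t`.
* `H1` for `U :: l`: `v ∈ F (U :: l)` so `v ∈ F l`, `v ∉ N l`. By `H1 l`: `w ∈ Intro l` (done) or `w ∈ F l`. If `w ∈ N l` done.
  Otherwise if `h w ∈ U` then `w ∈ F (U :: l)`. If `h w ∉ U`: `F1_of_H1`: `v ∈ CC l`: then the second clause of `Nf` holds for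
  `v` (neighbour `w`, `h w ∉ cmp l (h v) = U`, `w ∈ F l`), so `v ∈ N l`, contradiction. `w ∈ CC l`: `h w ∉ Y l` (else
  `w ∈ N l`); `h v ∉ cmp l (h w)` (otherwise both components are equal to `U` and `h w ∈ U`), `v ∈ F l`: `w ∈ N l`,
  contradiction.
-/

namespace Pool.MP627f83

open Finset
open scoped Classical

variable {V C ι : Type} [Fintype V] [DecidableEq V] [Fintype C] [DecidableEq C]

theorem F1_of_H1 (m : Model V C ι) {S : Sys V C} (hS : S.Valid m) {U : Finset C}
    {l : List (Finset C)} (h : S.Nd m (U :: l))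
    (H : ∀ a, a <:+ l → ∀ v w, m.G.Adj v w → v ∈ S.F m a → w ∈ S.F m a ∨ w ∈ S.Intro m a)
    {v w : V} (hvw : m.G.Adj v w) (hv : m.h v ∈ U) (hw : m.h w ∉ U) :
    v ∈ S.CC l ∨ w ∈ S.CC l := by
  obtain ⟨κ, hκ⟩ := m.edge v w hvw
  have hvκ : v ∈ m.ends κ := by rw [hκ]; simp
  have hwκ : w ∈ m.ends κ := by rw [hκ]; simp
  have hends : ∀ x, x ∈ m.ends κ → x = v ∨ x = w := by
    intro x hx
    rw [hκ] at hx
    simpa using hx
  obtain ⟨c, hc1, hc2, g, hg1, hg2, hadj⟩ := exists_boundary m.Z (m.cells_conn κ) (B := U)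
    ⟨m.h v, m.h_mem κ v hvκ, hv⟩ (fun hsub => hw (hsub (m.h_mem κ w hwκ)))
  have hl := nd_tail m h
  rcases hS.bdry (U :: l) h c hc2 g hg2 hadj with ho | ⟨t, ht, hgt⟩
  · rw [ho] at hg1
    exact absurd hg1 (m.o_not κ)
  · have htl : t ∈ insert l (S.T l) := hS.T_cons U l h ht
    have hsuf : t <:+ l := by
      rcases Finset.mem_insert.1 htl with h1 | h1
      · rw [h1]
      · exact (T_suffix m hS hl h1).1
    have htn : S.Nd m t := nd_suffix m hl hsuf
    have hCY : ∀ x, x ∈ S.CY t → x ∈ S.CC l := by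
      intro x hx
      unfold Sys.CC
      rcases Finset.mem_insert.1 htl with h1 | h1
      · rw [h1] at hx
        exact Finset.mem_union_left _ hx
      · exact Finset.mem_union_right _ (Finset.mem_biUnion.2 ⟨t, h1, hx⟩)
    have hfin : ∀ x, x ∈ m.ends κ → x ∈ S.CY t → v ∈ S.CC l ∨ w ∈ S.CC l := by
      intro x hx hxc
      rcases hends x hx with h1 | h1
      · left; rw [← h1]; exact hCY x hxc
      · right; rw [← h1]; exact hCY x hxc
    unfold Sys.Y at hgt
    rcases Finset.mem_union.1 hgt with hM | hE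
    · have hfree := hS.M_free t htn κ ⟨g, hM, hg1⟩
      have hvF : v ∈ S.F m t := by
        unfold Sys.F
        rw [Finset.mem_filter]
        refine ⟨Finset.mem_univ _, ?_, hfree v hvκ⟩
        have hsub := Om_mono m h (hsuf.trans (List.suffix_cons U l))
        exact hsub hv
      have hwF : w ∈ S.F m t := by
        rcases H t hsuf v w hvw hvF with h1 | h1
        · exact h1
        · exact absurd h1 (hfree w hwκ)
      have hends2 : m.ends κ ⊆ S.F m t := by
        intro x hx
        rcases hends x hx with h1 | h1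
        · rw [h1]; exact hvF
        · rw [h1]; exact hwF
      obtain ⟨x, hx, hxC⟩ := hS.CM_hit t htn κ ⟨g, hM, hg1⟩ hends2
      exact hfin x hx (by unfold Sys.CY; exact Finset.mem_union_left _ hxC)
    · obtain ⟨x, hx, hxC⟩ := hS.CE_hit t htn κ ⟨g, hE, hg1⟩
      exact hfin x hx (by unfold Sys.CY; exact Finset.mem_union_right _ hxC)

theorem RC_mem_N (m : Model V C ι) {S : Sys V C} {l : List (Finset C)} {v : V}
    (hv : v ∈ S.F m l) (h : m.h v ∈ S.Y l ∨
      (v ∈ S.CC l ∧ ∃ w, m.G.Adj v w ∧ m.h w ∉ S.cmp m l (m.h v) ∧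
        (w ∉ S.CC l ∨ (m.h w ∈ m.Om l ∧ w ∉ S.Intro m l)))) : v ∈ S.N m l := by
  unfold Sys.F at hv
  rw [Finset.mem_filter] at hv
  unfold Sys.N Sys.Nf
  rw [Finset.mem_filter]
  exact ⟨Finset.mem_univ _, hv.2.1, hv.2.2, h⟩

theorem H1 (m : Model V C ι) {S : Sys V C} (hS : S.Valid m) {l : List (Finset C)}
    (h : S.Nd m l) {v w : V} (hvw : m.G.Adj v w) (hv : v ∈ S.F m l) :
    w ∈ S.F m l ∨ w ∈ S.Intro m l := by
  suffices hmain : ∀ l : List (Finset C), S.Nd m l → ∀ a, a <:+ l → ∀ v w, m.G.Adj v w →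
      v ∈ S.F m a → w ∈ S.F m a ∨ w ∈ S.Intro m a from
    hmain l h l (List.suffix_refl l) v w hvw hv
  intro l
  induction l with
  | nil =>
    intro _ a ha v w _ _
    have ha' : a = [] := List.suffix_nil.1 ha
    subst ha'
    left
    unfold Sys.F
    rw [Finset.mem_filter]
    refine ⟨Finset.mem_univ _, ?_, ?_⟩
    · obtain ⟨κ, _, hκ⟩ := m.vtx w
      change m.h w ∈ univ \ {m.o}
      rw [Finset.mem_sdiff, Finset.mem_singleton]
      refine ⟨Finset.mem_univ _, fun ho => ?_⟩
      have := m.o_not κ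
      rw [hκ, Finset.mem_singleton] at this
      exact this ho.symm
    · simp [Sys.Intro]
  | cons U l ih =>
    intro hnd a ha v w hvw hv
    have hl := nd_tail m hnd
    have IH := ih hl
    rcases List.suffix_cons_iff.1 ha with h1 | h1
    · subst h1
      have hIntro : S.Intro m (U :: l) = S.Intro m l ∪ S.N m l := rfl
      have hvU : m.h v ∈ U := (F_child m hnd hv).2.2
      have hvF : v ∈ S.F m l := (F_child m hnd hv).1
      have hvN : v ∉ S.N m l := (F_child m hnd hv).2.1
      rcases IH l (List.suffix_refl l) v w hvw hvF with hw | hw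
      · by_cases hwN : w ∈ S.N m l
        · right
          rw [hIntro]
          exact Finset.mem_union_right _ hwN
        · have hwF := hw
          unfold Sys.F at hwF
          rw [Finset.mem_filter] at hwF
          have hvF' := hvF
          unfold Sys.F at hvF'
          rw [Finset.mem_filter] at hvF'
          by_cases hwU : m.h w ∈ U
          · left
            unfold Sys.F
            rw [Finset.mem_filter]
            refine ⟨Finset.mem_univ _, hwU, ?_⟩
            rw [hIntro, Finset.mem_union]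
            rintro (h2 | h2)
            · exact hwF.2.2 h2
            · exact hwN h2
          · exfalso
            have hcv := cmp_eq_of_mem m hnd hvU
            rcases F1_of_H1 m hS hnd IH hvw hvU hwU with h2 | h2
            · apply hvN
              apply RC_mem_N m hvF
              right
              refine ⟨h2, w, hvw, ?_, Or.inr hwF.2⟩
              rw [hcv.1]
              exact hwU
            · apply hwN
              apply RC_mem_N m hw
              by_cases hwY : m.h w ∈ S.Y l
              · exact Or.inl hwY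
              · right
                refine ⟨h2, v, hvw.symm, ?_, Or.inr hvF'.2⟩
                intro hmem
                -- `h v` is in the component of `h w`, which is then `U`
                have hnd2 : S.Nd m (S.cmp m l (m.h w) :: l) :=
                  Sys.Nd.cons l (m.h w) hl (Finset.mem_sdiff.2 ⟨hwF.2.1, hwY⟩)
                have h3 := cmp_eq_of_mem m hnd2 hmem
                rw [hcv.1] at h3
                apply hwU
                rw [h3.1]
                exact mem_comp_self m.Z (Finset.mem_sdiff.2 ⟨hwF.2.1, hwY⟩)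
      · right
        rw [hIntro]
        exact Finset.mem_union_left _ hw
    · exact IH a h1 v w hvw hv

theorem F1 (m : Model V C ι) {S : Sys V C} (hS : S.Valid m) {U : Finset C}
    {l : List (Finset C)} (h : S.Nd m (U :: l)) {v w : V} (hvw : m.G.Adj v w)
    (hv : m.h v ∈ U) (hw : m.h w ∉ U) : v ∈ S.CC l ∨ w ∈ S.CC l :=
  F1_of_H1 m hS h (fun _ ha _ _ hvw' hv' => H1 m hS (nd_suffix m (nd_tail m h) ha) hvw' hv')
    hvw hv hw

end Pool.MP627f83
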