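import Pool.Agent.Lib.MP_627f83_co.Defs
import Pool.Agent.Lib.MP_627f83_co.RA
import Pool.Agent.Lib.MP_627f83_co.RB
import Pool.Agent.Lib.MP_627f83_co.RC

/-!
# RD: K1 and covers of later tripods

* `K1`: `F1` for the edge `b v` (`h b ∈ U`): `v ∈ CC l` (done) or `b ∈ CC l`. In the second case `b ∈ F l`, `b ∉ N l`; if
  `v ∉ CC l` then the second clause of `Nf` holds for `b` (neighbour `v`, `h v ∉ U = cmp l (h b)`), contradiction.
* `CE_of_later`: `t` strictly below `a` (`a` proper suffix of `t`) and `w ∈ CY t`. If `w ∈ N a` then `w ∈ Intro t`, so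
  `w ∉ F t`, `w ∉ CM t` (`CM_sub`), so `w ∈ CE t`. If `h w ∉ Om t` then `w ∉ F t`, the same.
-/

namespace Pool.MP627f83

open Finset
open scoped Classical

variable {V C ι : Type} [Fintype V] [DecidableEq V] [Fintype C] [DecidableEq C]

theorem K1 (m : Model V C ι) {S : Sys V C} (hS : S.Valid m) {U : Finset C}
    {l : List (Finset C)} (h : S.Nd m (U :: l)) {v b : V}
    (hv : v ∈ S.Intro m (U :: l)) (hvU : m.h v ∉ U) (hb : b ∈ S.F m (U :: l))
    (hvb : m.G.Adj v b) : v ∈ S.CC l := by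
  obtain ⟨hbF, hbN, hbU⟩ := F_child m h hb
  rcases F1 m hS h hvb.symm hbU hvU with hb' | hv'
  · by_contra hvC
    apply hbN
    have hbF' : m.h b ∈ m.Om l ∧ b ∉ S.Intro m l := by
      simpa [Sys.F] using hbF
    have hc := (cmp_eq_of_mem m h hbU).1
    unfold Sys.N Sys.Nf
    rw [Finset.mem_filter]
    refine ⟨Finset.mem_univ _, hbF'.1, hbF'.2, Or.inr ⟨hb', v, hvb.symm, ?_, Or.inl hvC⟩⟩
    rw [hc]
    exact hvU
  · exact hv'

theorem CE_of_notF (m : Model V C ι) {S : Sys V C} (hS : S.Valid m) {t : List (Finset C)}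
    (ht : S.Nd m t) {w : V} (hw : w ∈ S.CY t) (hF : w ∉ S.F m t) : w ∈ S.CE t := by
  unfold Sys.CY at hw
  rcases Finset.mem_union.1 hw with h1 | h1
  · exact absurd (hS.CM_sub t ht h1) hF
  · exact h1

theorem CE_of_later (m : Model V C ι) {S : Sys V C} (hS : S.Valid m) {a t : List (Finset C)}
    (ht : S.Nd m t) (hat : a <:+ t) (hne : a ≠ t) {w : V} (hw : w ∈ S.CY t)
    (hN : w ∈ S.N m a) : w ∈ S.CE t := by
  apply CE_of_notF m hS ht hw
  intro hF
  have h1 : w ∈ S.Intro m t := N_sub_Intro m hat hne hN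
  have h2 : m.h w ∈ m.Om t ∧ w ∉ S.Intro m t := by
    simpa [Sys.F] using hF
  exact h2.2 h1

end Pool.MP627f83
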