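import Pool.Agent.Lib.MP_627f83_co.Defs
import Pool.Agent.Lib.MP_627f83_co.RA
import Pool.Agent.Lib.MP_627f83_co.RB
import Pool.Agent.Lib.MP_627f83_co.RC
import Pool.Agent.Lib.MP_627f83_co.RD

/-!
# RE: K2: aliens

`CEs l = (insert l (T l)).biUnion CE`, at most `4 * 6 s` vertices.
`U :: l` a node, `v ∈ Intro (U :: l)`, `h v ∈ U`, `v ∉ CC l`. `v ∈ N a` for a proper suffix `a` of `U :: l`, so `a <:+ l`,
`a ≠ l` (since `N l ⊆ CC l`). There is the child `U' :: a` of `a` with `U' :: a <:+ l`, and `U ⊆ U'`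
(`Om_mono`), `h v ∈ U'`, so `h v ∉ Y a` and the second clause of `Nf` gives `w` with `Adj v w`,
`h w ∉ cmp a (h v) = U'`, and `w ∉ CC a` or `w ∈ F a`. As `h w ∉ U`, `F1` for `U :: l` gives `w ∈ CC l`, so `w ∈ CY t`,
`t ∈ insert l (T l)`.
* `w ∉ CC a`: then `t ∉ insert a (T a)`, so by `persist` `t` is not a suffix of `a`; `t` and `a` are suffixes of `l`, so `a` is
  a proper suffix of `t`; then `U' :: a <:+ t`, `Om t ⊆ U'`, `h w ∉ Om t`, `w ∉ F t`, `w ∈ CE t`. First alternative.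
* `w ∈ CC a`, `w ∈ F a`: `w ∈ N a`: either `h w ∈ Y a` or second clause of `Nf` with the neighbour `v`:
  `h v ∉ cmp a (h w)` (otherwise `cmp a (h w) = cmp a (h v) = U'` contains `h w`), `v ∈ F a`. Then if `t` is a suffix of `a`:
  `t ∈ insert a (T a)` by `persist`: third alternative. Otherwise `a` is a proper suffix of `t`, `w ∈ N a`:
  `CE_of_later`: second alternative.
`alien_unique`: uniqueness of `a` in the first alternative: let `(v,a)`, `(v',a')` both be as in the first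
alternative with the same `w`; the suffixes `a, a'` of `l` are comparable, say `a` proper suffix of `a'`. `v' ∉ Intro a'`
(`N_sub_F`), `h v' ∈ U ⊆ U'` where `U' :: a <:+ a'`; `v' ∈ F a`. `F1` for `U' :: a` and the edge `v' w` (`h w ∉ U'`): `v' ∈ CC a`
(as `w ∉ CC a`); second clause of `Nf`: `v' ∈ N a ⊆ Intro a'`, contradiction.
-/

namespace Pool.MP627f83

open Finset
open scoped Classical

variable {V C ι : Type} [Fintype V] [DecidableEq V] [Fintype C] [DecidableEq C]

/-- union of the end covers -/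
noncomputable def CEs (S : Sys V C) (l : List (Finset C)) : Finset V :=
  (insert l (S.T l)).biUnion S.CE

theorem re_child {l a : List (Finset C)} (h : a <:+ l) (hne : a ≠ l) :
    ∃ U', (U' :: a) <:+ l := by
  obtain ⟨p, rfl⟩ := h
  rcases List.eq_nil_or_concat p with rfl | ⟨q, x, rfl⟩
  · simp at hne
  · exact ⟨x, q, by simp⟩

theorem re_mem_N (m : Model V C ι) {S : Sys V C} {l : List (Finset C)} {v : V} :
    v ∈ S.N m l ↔ m.h v ∈ m.Om l ∧ v ∉ S.Intro m l ∧ (m.h v ∈ S.Y l ∨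
    (v ∈ S.CC l ∧ ∃ w, m.G.Adj v w ∧ m.h w ∉ S.cmp m l (m.h v) ∧
      (w ∉ S.CC l ∨ (m.h w ∈ m.Om l ∧ w ∉ S.Intro m l)))) := by
  unfold Sys.N Sys.Nf
  rw [Finset.mem_filter]
  simp only [Finset.mem_univ, true_and]

theorem re_mem_F (m : Model V C ι) {S : Sys V C} {l : List (Finset C)} {v : V} :
    v ∈ S.F m l ↔ m.h v ∈ m.Om l ∧ v ∉ S.Intro m l := by
  unfold Sys.F
  rw [Finset.mem_filter]
  simp only [Finset.mem_univ, true_and]

theorem re_mem_CC {S : Sys V C} {l : List (Finset C)} {w : V} :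
    w ∈ S.CC l ↔ ∃ t ∈ insert l (S.T l), w ∈ S.CY t := by
  unfold Sys.CC
  simp only [Finset.mem_union, Finset.mem_biUnion, Finset.mem_insert]
  constructor
  · rintro (h | ⟨t, ht, hw⟩)
    · exact ⟨l, Or.inl rfl, h⟩
    · exact ⟨t, Or.inr ht, hw⟩
  · rintro ⟨t, rfl | ht, hw⟩
    · exact Or.inl hw
    · exact Or.inr ⟨t, ht, hw⟩

theorem re_suffix (m : Model V C ι) {S : Sys V C} (hS : S.Valid m) {l t : List (Finset C)}
    (h : S.Nd m l) (ht : t ∈ insert l (S.T l)) : t <:+ l := by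
  rcases Finset.mem_insert.1 ht with rfl | ht
  · exact List.suffix_rfl
  · exact (T_suffix m hS h ht).1

theorem CEs_card (m : Model V C ι) {S : Sys V C} (hS : S.Valid m) {l : List (Finset C)}
    (h : S.Nd m l) : (CEs S l).card ≤ 24 * m.s := by
  unfold CEs
  have h1 : ∀ t ∈ insert l (S.T l), (S.CE t).card ≤ 6 * m.s := by
    intro t ht
    exact hS.CE_card t (nd_suffix m h (re_suffix m hS h ht))
  have h2 : (insert l (S.T l)).card ≤ 4 := by
    refine (Finset.card_insert_le _ _).trans ?_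
    have := hS.T_card l h
    omega
  calc ((insert l (S.T l)).biUnion S.CE).card
      ≤ ∑ t ∈ insert l (S.T l), (S.CE t).card := Finset.card_biUnion_le
    _ ≤ ∑ t ∈ insert l (S.T l), 6 * m.s := Finset.sum_le_sum h1
    _ = (insert l (S.T l)).card * (6 * m.s) := by simp
    _ ≤ 4 * (6 * m.s) := Nat.mul_le_mul_right _ h2
    _ = 24 * m.s := by ring

/-- `a` is a node where a vertex of the region `U` was introduced because of its neighbour `w`
outside, and `w` is not in the cover of `a` -/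
def AlienB1 (m : Model V C ι) (S : Sys V C) (U : Finset C) (l a : List (Finset C)) (w : V) :
    Prop :=
  a <:+ l ∧ a ≠ l ∧ w ∉ S.CC a ∧ ∃ v, v ∈ S.N m a ∧ m.h v ∈ U ∧ m.G.Adj v w ∧
    m.h w ∉ S.cmp m a (m.h v)

theorem alien (m : Model V C ι) {S : Sys V C} (hS : S.Valid m) {U : Finset C}
    {l : List (Finset C)} (h : S.Nd m (U :: l)) {v : V} (hv : v ∈ S.Intro m (U :: l))
    (hvU : m.h v ∈ U) (hvC : v ∉ S.CC l) :
    ∃ a w, S.Nd m a ∧ a <:+ l ∧ a ≠ l ∧ v ∈ S.N m a ∧ m.G.Adj v w ∧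
      ((w ∈ CEs S l ∧ AlienB1 m S U l a w) ∨
       (w ∈ S.N m a ∧ w ∈ CEs S l) ∨
       (w ∈ S.N m a ∧ ∃ t ∈ insert l (S.T l), t ∈ insert a (S.T a) ∧ w ∈ S.CY t)) := by
  obtain ⟨a, hal', hne', hvN⟩ := Intro_top m hv
  have hal : a <:+ l := by
    rcases List.suffix_cons_iff.1 hal' with h1 | h1
    · exact absurd h1 hne'
    · exact h1
  have hl : S.Nd m l := nd_tail m h
  have hane : a ≠ l := by
    rintro rfl
    exact hvC (N_sub_CC m hS hl hvN)
  obtain ⟨U', hU'⟩ := re_child hal hane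
  have hndU' : S.Nd m (U' :: a) := nd_suffix m hl hU'
  have hnda : S.Nd m a := nd_tail m hndU'
  have hsub : U ⊆ U' := Om_mono m h (hU'.trans (List.suffix_cons U l))
  have hvU' : m.h v ∈ U' := hsub hvU
  obtain ⟨hcmp, hOma, hYa⟩ := cmp_eq_of_mem m hndU' hvU'
  have hvN' := hvN
  rw [re_mem_N] at hvN'
  obtain ⟨h1, h2, h3 | ⟨h4, w, hvw, hwc, hw⟩⟩ := hvN'
  · exact absurd h3 hYa
  have hwU' : m.h w ∉ U' := by
    intro hcon
    rw [hcmp] at hwc
    exact hwc hcon
  have hwU : m.h w ∉ U := fun hcon => hwU' (hsub hcon)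
  have hwC : w ∈ S.CC l := (F1 m hS h hvw hvU hwU).resolve_left hvC
  obtain ⟨t, ht, hwt⟩ := re_mem_CC.1 hwC
  have htl : t <:+ l := re_suffix m hS hl ht
  have htnd : S.Nd m t := nd_suffix m hl htl
  refine ⟨a, w, hnda, hal, hane, hvN, hvw, ?_⟩
  by_cases hwa : w ∈ S.CC a
  · have hwF : m.h w ∈ m.Om a ∧ w ∉ S.Intro m a := hw.resolve_left (not_not.2 hwa)
    have hwN : w ∈ S.N m a := by
      rw [re_mem_N]
      refine ⟨hwF.1, hwF.2, ?_⟩
      by_cases hwY : m.h w ∈ S.Y a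
      · exact Or.inl hwY
      · refine Or.inr ⟨hwa, v, hvw.symm, ?_, Or.inr ⟨h1, h2⟩⟩
        intro hcon
        have hce := comp_eq m.Z hcon
        apply hwc
        unfold Sys.cmp
        rw [hce]
        exact mem_comp_self _ (Finset.mem_sdiff.2 ⟨hwF.1, hwY⟩)
    by_cases hta : t <:+ a
    · exact Or.inr (Or.inr ⟨hwN, t, ht, persist m hS hl ht hta hal, hwt⟩)
    · have hat : a <:+ t := (List.suffix_or_suffix_of_suffix hal htl).resolve_right hta
      have hne : a ≠ t := by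
        rintro rfl
        exact hta List.suffix_rfl
      refine Or.inr (Or.inl ⟨hwN, ?_⟩)
      exact Finset.mem_biUnion.2 ⟨t, ht, CE_of_later m hS htnd hat hne hwt hwN⟩
  · have hta : ¬ t <:+ a := by
      intro hta
      exact hwa (re_mem_CC.2 ⟨t, persist m hS hl ht hta hal, hwt⟩)
    have hUt : U' :: a <:+ t := by
      rcases List.suffix_or_suffix_of_suffix hU' htl with h5 | h5
      · exact h5
      · rcases List.suffix_cons_iff.1 h5 with h6 | h6
        · rw [h6]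
        · exact absurd h6 hta
    have hOt : m.Om t ⊆ U' := Om_mono m htnd hUt
    have hwF : w ∉ S.F m t := by
      intro hF
      exact hwU' (hOt ((re_mem_F m).1 hF).1)
    refine Or.inl ⟨?_, hal, hane, hwa, v, hvN, hvU, hvw, hwc⟩
    exact Finset.mem_biUnion.2 ⟨t, ht, CE_of_notF m hS htnd hwt hwF⟩

theorem re_unique_aux (m : Model V C ι) {S : Sys V C} (hS : S.Valid m) {U : Finset C}
    {l : List (Finset C)} (h : S.Nd m (U :: l)) {a a' : List (Finset C)} {w : V}
    (ha : AlienB1 m S U l a w) (ha' : AlienB1 m S U l a' w) (haa : a <:+ a') : a = a' := by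
  by_contra hne
  obtain ⟨hal, hane, hwa, v, hvN, hvU, hvw, hwc⟩ := ha
  obtain ⟨hal', hane', hwa', v', hvN', hvU', hvw', hwc'⟩ := ha'
  have hl : S.Nd m l := nd_tail m h
  obtain ⟨W, hW⟩ := re_child haa hne
  have hWl : W :: a <:+ l := hW.trans hal'
  have hndW : S.Nd m (W :: a) := nd_suffix m hl hWl
  have hsub : U ⊆ W := Om_mono m h (hWl.trans (List.suffix_cons U l))
  have hvW : m.h v ∈ W := hsub hvU
  have hvW' : m.h v' ∈ W := hsub hvU'
  have hc := (cmp_eq_of_mem m hndW hvW).1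
  obtain ⟨hc', hO', hY'⟩ := cmp_eq_of_mem m hndW hvW'
  have hwW : m.h w ∉ W := by
    rw [hc] at hwc
    exact hwc
  have hvI : v' ∉ S.Intro m a' := ((re_mem_N m).1 hvN').2.1
  have hvC : v' ∈ S.CC a := (F1 m hS hndW hvw' hvW' hwW).resolve_right hwa
  apply hvI
  apply N_sub_Intro m haa hne
  rw [re_mem_N]
  refine ⟨hO', fun hcon => hvI (Intro_mono m haa hcon), Or.inr ⟨hvC, w, hvw', ?_, Or.inl hwa⟩⟩
  rw [hc']
  exact hwW

theorem alien_unique (m : Model V C ι) {S : Sys V C} (hS : S.Valid m) {U : Finset C}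
    {l : List (Finset C)} (h : S.Nd m (U :: l)) {a a' : List (Finset C)} {w : V}
    (ha : AlienB1 m S U l a w) (ha' : AlienB1 m S U l a' w) : a = a' := by
  rcases List.suffix_or_suffix_of_suffix ha.1 ha'.1 with h1 | h1
  · exact re_unique_aux m hS h ha ha' h1
  · exact (re_unique_aux m hS h ha' ha h1).symm

end Pool.MP627f83
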