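import Pool.Agent.Lib.MP_627f83_co.Defs
import Pool.Agent.Lib.MP_627f83_co.RA
import Pool.Agent.Lib.MP_627f83_co.RB
import Pool.Agent.Lib.MP_627f83_co.RC
import Pool.Agent.Lib.MP_627f83_co.RD
import Pool.Agent.Lib.MP_627f83_co.RE
import Pool.Agent.Lib.MP_627f83_co.RFDefs
import Pool.Agent.Lib.MP_627f83_co.RF

/-!
# RG: the quotient bags are small

`U :: l` a node. `Q = ⋃_{t ∈ insert l (T l)} insert t (T t)`: at most `4 * 4 = 16` nodes.
* `v ∈ N (U :: l)`: `top v = U :: l`, `part v ∈ insert (U :: l) (T (U :: l))` (`part_mem_top`): already counted in the first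
  part of `BH`.
* `v ∈ Kset (U :: l)`, `v ∈ CC l`, say `v ∈ CY t`, `t ∈ insert l (T l)`. `a = top v` is a proper suffix of `U :: l`
  (`Intro_top`, `top_eq`), so a suffix of `l`; `t` is a suffix of `l`. If `t` is a suffix of `a`: `t ∈ insert a (T a)` by `persist`,
  `t` is a candidate, `part v ∈ insert t (T t) ⊆ Q`. Otherwise `a` is a proper suffix of `t`, `CE_of_later`: `v ∈ CEs l`: at most
  `24 s` vertices.
* `v ∈ Kset (U :: l)`, `v ∉ CC l`: by `K1` `h v ∈ U`; `alien`. First alternative: `w ∈ CEs l`, and `a` is determined by `w`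
  (`alien_unique`); `part v ∈ insert a (T a)` (`top v = a`), so at most `24 s * 4` parts. Second: `w ∈ CEs l`, `a = top w`: at most
  `24 s * 4` parts. Third: `t` is a candidate for `v` (`w ∈ CY t`, `w ∈ N a`, `a = top v`), `part v ∈ insert t (T t) ⊆ Q`.
Total `4 + 16 + 24 s + 96 s + 96 s = 20 + 216 s`. The root: `Kset [] = ∅`, `BH [] ⊆ {[]}` (`T [] = ∅`).
-/

namespace Pool.MP627f83

open Finset
open scoped Classical

variable {V C ι : Type} [Fintype V] [DecidableEq V] [Fintype C] [DecidableEq C]

theorem RG_card4 (m : Model V C ι) {S : Sys V C} (hS : S.Valid m) {l : List (Finset C)}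
    (h : S.Nd m l) : (insert l (S.T l)).card ≤ 4 := by
  have h1 := Finset.card_insert_le l (S.T l)
  have h2 := hS.T_card l h
  omega

/-- the parts coming from the cover of the boundary -/
noncomputable def RG_Q (S : Sys V C) (l : List (Finset C)) : Finset (List (Finset C)) :=
  (insert l (S.T l)).biUnion (fun t => insert t (S.T t))

theorem RG_nd_of_mem (m : Model V C ι) {S : Sys V C} (hS : S.Valid m) {l t : List (Finset C)}
    (h : S.Nd m l) (ht : t ∈ insert l (S.T l)) : t <:+ l ∧ S.Nd m t := by
  have hs : t <:+ l := by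
    rcases Finset.mem_insert.1 ht with h1 | h1
    · rw [h1]
    · exact (T_suffix m hS h h1).1
  exact ⟨hs, nd_suffix m h hs⟩

theorem RG_Q_card (m : Model V C ι) {S : Sys V C} (hS : S.Valid m) {l : List (Finset C)}
    (h : S.Nd m l) : (RG_Q S l).card ≤ 16 := by
  have h1 : (RG_Q S l).card ≤ (insert l (S.T l)).card * 4 := by
    apply Finset.card_biUnion_le_card_mul
    intro t ht
    exact RG_card4 m hS (RG_nd_of_mem m hS h ht).2
  have h2 := RG_card4 m hS h
  omega

/-- the node of an alien determined by `w` -/
noncomputable def RG_al (m : Model V C ι) (S : Sys V C) (U : Finset C) (l : List (Finset C))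
    (w : V) : List (Finset C) :=
  if h : ∃ a, AlienB1 m S U l a w then h.choose else []

theorem RG_al_nd (m : Model V C ι) {S : Sys V C} {U : Finset C} {l : List (Finset C)}
    (h : S.Nd m (U :: l)) (w : V) : S.Nd m (RG_al m S U l w) := by
  unfold RG_al
  split
  · rename_i h1
    exact nd_suffix m (nd_tail m h) h1.choose_spec.1
  · exact Sys.Nd.nil

theorem RG_al_eq (m : Model V C ι) {S : Sys V C} (hS : S.Valid m) {U : Finset C}
    {l a : List (Finset C)} (h : S.Nd m (U :: l)) {w : V} (ha : AlienB1 m S U l a w) :
    RG_al m S U l w = a := by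
  unfold RG_al
  have h1 : ∃ a, AlienB1 m S U l a w := ⟨a, ha⟩
  rw [dif_pos h1]
  exact alien_unique m hS h h1.choose_spec ha

theorem RG_part_Q (m : Model V C ι) {S : Sys V C} (hS : S.Valid m) {l t : List (Finset C)}
    {v : V} (ht : t ∈ insert l (S.T l)) (hc : Cand m S v t) : part m S v ∈ RG_Q S l := by
  unfold RG_Q
  exact Finset.mem_biUnion.2 ⟨t, ht, part_mem m hS hc⟩

/-- the node of a vertex of the interface -/
theorem RG_Kset (m : Model V C ι) {S : Sys V C} (hS : S.Valid m) {U : Finset C}
    {l : List (Finset C)} (h : S.Nd m (U :: l)) {v : V} (hv : v ∈ Kset m S (U :: l)) :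
    part m S v ∈ RG_Q S l ∪ (CEs S l).image (part m S) ∪
      (CEs S l).biUnion (fun w => insert (RG_al m S U l w) (S.T (RG_al m S U l w))) ∪
      (CEs S l).biUnion (fun w => insert (top m S w) (S.T (top m S w))) := by
  have hl : S.Nd m l := nd_tail m h
  obtain ⟨hvI, b, hb, hvb⟩ := Finset.mem_filter.1 hv
  by_cases hC : v ∈ S.CC l
  · -- in the cover
    have h1 : ∃ t ∈ insert l (S.T l), v ∈ S.CY t := by
      unfold Sys.CC at hC
      rcases Finset.mem_union.1 hC with h2 | h2
      · exact ⟨l, Finset.mem_insert_self _ _, h2⟩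
      · obtain ⟨t, ht, h3⟩ := Finset.mem_biUnion.1 h2
        exact ⟨t, Finset.mem_insert_of_mem ht, h3⟩
    obtain ⟨t, ht, hvt⟩ := h1
    obtain ⟨a, ha, hne, hva⟩ := Intro_top m hvI
    have hal : a <:+ l := by
      rcases List.suffix_cons_iff.1 ha with h2 | h2
      · exact absurd h2 hne
      · exact h2
    have hand : S.Nd m a := nd_suffix m hl hal
    have htop : top m S v = a := top_eq m hS hand hva
    obtain ⟨htl, htnd⟩ := RG_nd_of_mem m hS hl ht
    by_cases hta : t <:+ a
    · have h2 := persist m hS hl ht hta hal
      have h3 : Cand m S v t := by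
        unfold Cand
        rw [htop]
        exact ⟨h2, Or.inl hvt⟩
      have h4 := RG_part_Q m hS ht h3
      simp only [Finset.mem_union]
      exact Or.inl (Or.inl (Or.inl h4))
    · have hat : a <:+ t := by
        rcases List.suffix_or_suffix_of_suffix hal htl with h2 | h2
        · exact h2
        · exact absurd h2 hta
      have hne' : a ≠ t := by
        rintro rfl
        exact hta (List.suffix_refl _)
      have h2 := CE_of_later m hS htnd hat hne' hvt hva
      have h3 : v ∈ CEs S l := by
        unfold CEs
        exact Finset.mem_biUnion.2 ⟨t, ht, h2⟩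
      simp only [Finset.mem_union]
      exact Or.inl (Or.inl (Or.inr (Finset.mem_image_of_mem _ h3)))
  · have hvU : m.h v ∈ U := by
      by_contra hcon
      exact hC (K1 m hS h hvI hcon hb hvb)
    obtain ⟨a, w, hand, hal, hane, hva, hvw, h1⟩ := alien m hS h hvI hvU hC
    have htop : top m S v = a := top_eq m hS hand hva
    rcases h1 with ⟨hw, hA⟩ | ⟨hwN, hw⟩ | ⟨hwN, t, ht, hta, hwt⟩
    · have h2 : part m S v ∈ insert (RG_al m S U l w) (S.T (RG_al m S U l w)) := by
        rw [RG_al_eq m hS h hA]
        have h3 := part_mem_top m hS v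
        rw [htop] at h3
        exact h3
      simp only [Finset.mem_union]
      exact Or.inl (Or.inr (Finset.mem_biUnion.2 ⟨w, hw, h2⟩))
    · have h2 : part m S v ∈ insert (top m S w) (S.T (top m S w)) := by
        rw [top_eq m hS hand hwN]
        have h3 := part_mem_top m hS v
        rw [htop] at h3
        exact h3
      simp only [Finset.mem_union]
      exact Or.inr (Finset.mem_biUnion.2 ⟨w, hw, h2⟩)
    · have h3 : Cand m S v t := by
        unfold Cand
        rw [htop]
        exact ⟨hta, Or.inr ⟨w, hwt, hwN, hvw⟩⟩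
      have h4 := RG_part_Q m hS ht h3
      simp only [Finset.mem_union]
      exact Or.inl (Or.inl (Or.inl h4))

theorem BH_card (m : Model V C ι) {S : Sys V C} (hS : S.Valid m) {l : List (Finset C)}
    (h : S.Nd m l) : (BH m S l).card ≤ 20 + 216 * m.s := by
  cases l with
  | nil =>
    have h1 : BH m S [] ⊆ {[]} := by
      intro x hx
      unfold BH at hx
      rcases Finset.mem_union.1 hx with h2 | h2
      · rw [hS.T_nil] at h2
        simpa using h2
      · obtain ⟨v, hv, rfl⟩ := Finset.mem_image.1 h2
        unfold Bag at hv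
        rcases Finset.mem_union.1 hv with h3 | h3
        · have h4 : top m S v = [] := top_eq m hS h h3
          have h5 := part_mem_top m hS v
          rw [h4, hS.T_nil] at h5
          simpa using h5
        · unfold Kset at h3
          have h4 := (Finset.mem_filter.1 h3).1
          unfold Sys.Intro at h4
          simp at h4
    have h2 := Finset.card_le_card h1
    rw [Finset.card_singleton] at h2
    omega
  | cons U l =>
    have hl : S.Nd m l := nd_tail m h
    have h1 : BH m S (U :: l) ⊆ insert (U :: l) (S.T (U :: l)) ∪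
        (RG_Q S l ∪ (CEs S l).image (part m S) ∪
        (CEs S l).biUnion (fun w => insert (RG_al m S U l w) (S.T (RG_al m S U l w))) ∪
        (CEs S l).biUnion (fun w => insert (top m S w) (S.T (top m S w)))) := by
      intro x hx
      unfold BH at hx
      rcases Finset.mem_union.1 hx with h2 | h2
      · exact Finset.mem_union_left _ h2
      · obtain ⟨v, hv, rfl⟩ := Finset.mem_image.1 h2
        unfold Bag at hv
        rcases Finset.mem_union.1 hv with h3 | h3
        · have h4 : top m S v = U :: l := top_eq m hS h h3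
          have h5 := part_mem_top m hS v
          rw [h4] at h5
          exact Finset.mem_union_left _ h5
        · exact Finset.mem_union_right _ (RG_Kset m hS h h3)
    have h2 := Finset.card_le_card h1
    have h3 := RG_card4 m hS h
    have h4 := RG_Q_card m hS hl
    have h5 := CEs_card m hS hl
    have h6 : ((CEs S l).image (part m S)).card ≤ 24 * m.s := le_trans Finset.card_image_le h5
    have h7 : ((CEs S l).biUnion
        (fun w => insert (RG_al m S U l w) (S.T (RG_al m S U l w)))).card ≤ 24 * m.s * 4 := by
      refine le_trans (Finset.card_biUnion_le_card_mul _ _ 4 ?_) (Nat.mul_le_mul_right 4 h5)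
      intro w _
      exact RG_card4 m hS (RG_al_nd m h w)
    have h8 : ((CEs S l).biUnion
        (fun w => insert (top m S w) (S.T (top m S w)))).card ≤ 24 * m.s * 4 := by
      refine le_trans (Finset.card_biUnion_le_card_mul _ _ 4 ?_) (Nat.mul_le_mul_right 4 h5)
      intro w _
      exact RG_card4 m hS (top_spec m hS w).1
    have h9 := Finset.card_union_le (insert (U :: l) (S.T (U :: l)))
      (RG_Q S l ∪ (CEs S l).image (part m S) ∪
        (CEs S l).biUnion (fun w => insert (RG_al m S U l w) (S.T (RG_al m S U l w))) ∪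
        (CEs S l).biUnion (fun w => insert (top m S w) (S.T (top m S w))))
    have h10 := Finset.card_union_le (RG_Q S l ∪ (CEs S l).image (part m S) ∪
        (CEs S l).biUnion (fun w => insert (RG_al m S U l w) (S.T (RG_al m S U l w))))
        ((CEs S l).biUnion (fun w => insert (top m S w) (S.T (top m S w))))
    have h11 := Finset.card_union_le (RG_Q S l ∪ (CEs S l).image (part m S))
        ((CEs S l).biUnion (fun w => insert (RG_al m S U l w) (S.T (RG_al m S U l w))))
    have h12 := Finset.card_union_le (RG_Q S l) ((CEs S l).image (part m S))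
    omega

end Pool.MP627f83
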