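import Pool.Agent.Lib.MP_627f83_co.Defs
import Pool.Agent.Lib.MP_627f83_co.RA
import Pool.Agent.Lib.MP_627f83_co.RB
import Pool.Agent.Lib.MP_627f83_co.RC
import Pool.Agent.Lib.MP_627f83_co.RFDefs
import Pool.Agent.Lib.MP_627f83_co.RF

/-!
# RH: the quotient bags form a tree decomposition

* `Kset_child`: `Kset (U :: l) ⊆ Bag l`: `v ∈ Intro (U :: l) = Intro l ∪ N l`; if `v ∈ Intro l`, its neighbour
  `b ∈ F (U :: l) ⊆ F l`, so `v ∈ Kset l`.
* `BH_suffix`: members of `insert l (T l)` are suffixes of `l`; for `v ∈ Bag l` `top v` is a suffix of `l` and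
  `part v ∈ insert (top v) (T (top v))`.
* `BH_parent`: `t ∈ BH (U :: l)`, `t ≠ U :: l`: if `t ∈ T (U :: l) ⊆ insert l (T l)` fine; if `t = part v` with `v ∈ Kset (U :: l)`: `v ∈ Bag l`;
  if `v ∈ N (U :: l)`: `top v = U :: l`, `t ∈ insert (U :: l) (T (U :: l))`, so `t ∈ T (U :: l)`.
* `edge_bag`: `vw` an edge, `a = top v`, `b = top w`. They are comparable: take the longest common suffix... simpler: prove
  by induction on the node `l`: if `v, w ∈ F l` then some node `l'` below `l` has `v, w ∈ Bag l'`? Suggested proof: strong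
  induction on `(Om l).card` for nodes `l` with `v ∈ F l`, `w ∈ F l`. If `v ∈ N l`: either `w ∈ N l` (both in `Bag l`) or
  `w ∈ F l \ N l`: then `top w` is below `l`: `w ∈ F (top w)` and `v ∈ N l ⊆ Intro (top w)`, so `v ∈ Kset (top w)`:
  `Bag (top w)` contains both (`top w ≠ l`, `l` suffix of `top w` because both regions contain `h w` (`nd_comparable`) and
  if `top w` were a proper suffix of `l` then `w ∈ Intro l`). Symmetric if `w ∈ N l`. If none is in `N l`: both `h v`, `h w` are
  outside `Y l`, `v ∈ F (cmp l (h v) :: l)`, and by `H1` for this child `w ∈ F` of it or `w ∈ Intro` of it; the latter would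
  mean `w ∈ Intro l ∪ N l`, impossible; so both are in `F` of the child: induction. Start with `l = []`.
-/

namespace Pool.MP627f83

open Finset
open scoped Classical

variable {V C ι : Type} [Fintype V] [DecidableEq V] [Fintype C] [DecidableEq C]

theorem self_mem_BH (m : Model V C ι) (S : Sys V C) (l : List (Finset C)) : l ∈ BH m S l :=
  mem_union_left _ (mem_insert_self _ _)

theorem part_mem_BH (m : Model V C ι) (S : Sys V C) {l : List (Finset C)} {v : V}
    (hv : v ∈ Bag m S l) : part m S v ∈ BH m S l :=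
  mem_union_right _ (mem_image_of_mem _ hv)

theorem RH_T_BH (m : Model V C ι) (S : Sys V C) {l t : List (Finset C)}
    (ht : t ∈ insert l (S.T l)) : t ∈ BH m S l :=
  mem_union_left _ ht

theorem RH_insert_suffix (m : Model V C ι) {S : Sys V C} (hS : S.Valid m)
    {l t : List (Finset C)} (h : S.Nd m l) (ht : t ∈ insert l (S.T l)) : t <:+ l := by
  rw [mem_insert] at ht
  rcases ht with rfl | ht
  · exact List.suffix_refl _
  · exact (T_suffix m hS h ht).1

theorem BH_suffix (m : Model V C ι) {S : Sys V C} (hS : S.Valid m) {l t : List (Finset C)}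
    (h : S.Nd m l) (ht : t ∈ BH m S l) : t <:+ l := by
  unfold BH at ht
  rw [mem_union] at ht
  rcases ht with ht | ht
  · exact RH_insert_suffix m hS h ht
  · rw [mem_image] at ht
    obtain ⟨v, hv, rfl⟩ := ht
    unfold Bag at hv
    rw [mem_union] at hv
    rcases hv with hv | hv
    · have h1 := part_mem_top m hS v
      rw [top_eq m hS h hv] at h1
      exact RH_insert_suffix m hS h h1
    · unfold Kset at hv
      rw [mem_filter] at hv
      obtain ⟨a, ha, -, hva⟩ := Intro_top m hv.1
      have hna := nd_suffix m h ha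
      have h1 := part_mem_top m hS v
      rw [top_eq m hS hna hva] at h1
      exact (RH_insert_suffix m hS hna h1).trans ha

theorem BH_parent (m : Model V C ι) {S : Sys V C} (hS : S.Valid m) {U : Finset C}
    {l t : List (Finset C)} (h : S.Nd m (U :: l)) (ht : t ∈ BH m S (U :: l))
    (hne : t ≠ U :: l) : t ∈ BH m S l := by
  have key : t ∈ insert (U :: l) (S.T (U :: l)) → t ∈ BH m S l := by
    intro h1
    rw [mem_insert] at h1
    rcases h1 with h1 | h1
    · exact absurd h1 hne
    · exact RH_T_BH m S (hS.T_cons U l h h1)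
  unfold BH at ht
  rw [mem_union] at ht
  rcases ht with ht | ht
  · exact key ht
  · rw [mem_image] at ht
    obtain ⟨v, hv, rfl⟩ := ht
    unfold Bag at hv
    rw [mem_union] at hv
    rcases hv with hv | hv
    · have h1 := part_mem_top m hS v
      rw [top_eq m hS h hv] at h1
      exact key h1
    · unfold Kset at hv
      rw [mem_filter] at hv
      obtain ⟨hv1, b, hb, hadj⟩ := hv
      apply part_mem_BH
      unfold Bag
      have h2 : v ∈ S.Intro m l ∪ S.Nf m l (S.Intro m l) := hv1
      rw [mem_union] at h2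
      rcases h2 with h2 | h2
      · apply mem_union_right
        unfold Kset
        rw [mem_filter]
        exact ⟨h2, b, (F_child m h hb).1, hadj⟩
      · exact mem_union_left _ h2

theorem RH_mem_F (m : Model V C ι) (S : Sys V C) (l : List (Finset C)) (v : V) :
    v ∈ S.F m l ↔ m.h v ∈ m.Om l ∧ v ∉ S.Intro m l := by
  unfold Sys.F
  simp

theorem RH_Y_N (m : Model V C ι) (S : Sys V C) {l : List (Finset C)} {v : V}
    (hv : v ∈ S.F m l) (hY : m.h v ∈ S.Y l) : v ∈ S.N m l := by
  rw [RH_mem_F] at hv
  unfold Sys.N Sys.Nf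
  rw [mem_filter]
  exact ⟨mem_univ _, hv.1, hv.2, Or.inl hY⟩

theorem RH_half (m : Model V C ι) {S : Sys V C} (hS : S.Valid m) {v w : V}
    (hadj : m.G.Adj v w) {l : List (Finset C)} (h : S.Nd m l) (hv : v ∈ S.N m l)
    (hw : w ∈ S.F m l) (hwN : w ∉ S.N m l) :
    ∃ l, S.Nd m l ∧ v ∈ Bag m S l ∧ w ∈ Bag m S l := by
  obtain ⟨l', hl', hwl'⟩ := exists_top m hS w
  have hwF := N_sub_F m l' hwl'
  have h1 := (RH_mem_F m S l w).1 hw
  have h2 := (RH_mem_F m S l' w).1 hwF
  have hsuf : l <:+ l' ∧ l ≠ l' := by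
    have hne : l ≠ l' := by
      rintro rfl
      exact hwN hwl'
    rcases nd_comparable m h hl' h1.1 h2.1 with h3 | h3
    · exact ⟨h3, hne⟩
    · exact absurd (N_sub_Intro m h3 hne.symm hwl') h1.2
  have hvI := N_sub_Intro m hsuf.1 hsuf.2 hv
  refine ⟨l', hl', ?_, mem_union_left _ hwl'⟩
  apply mem_union_right
  unfold Kset
  rw [mem_filter]
  exact ⟨hvI, w, hwF, hadj⟩

theorem RH_aux (m : Model V C ι) {S : Sys V C} (hS : S.Valid m) {v w : V}
    (hadj : m.G.Adj v w) : ∀ (n : ℕ) (l : List (Finset C)), (m.Om l).card ≤ n → S.Nd m l →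
    v ∈ S.F m l → w ∈ S.F m l → ∃ l, S.Nd m l ∧ v ∈ Bag m S l ∧ w ∈ Bag m S l := by
  intro n
  induction n with
  | zero =>
    intro l hl _ hv _
    exfalso
    have h1 := ((RH_mem_F m S l v).1 hv).1
    rw [Nat.le_zero, Finset.card_eq_zero] at hl
    rw [hl] at h1
    exact absurd h1 (notMem_empty _)
  | succ n ih =>
    intro l hl hnd hv hw
    by_cases hvN : v ∈ S.N m l
    · by_cases hwN : w ∈ S.N m l
      · exact ⟨l, hnd, mem_union_left _ hvN, mem_union_left _ hwN⟩
      · exact RH_half m hS hadj hnd hvN hw hwN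
    · by_cases hwN : w ∈ S.N m l
      · obtain ⟨l', h1, h2, h3⟩ := RH_half m hS hadj.symm hnd hwN hv hvN
        exact ⟨l', h1, h3, h2⟩
      · have h1 := (RH_mem_F m S l v).1 hv
        have h2 := (RH_mem_F m S l w).1 hw
        have hvY : m.h v ∉ S.Y l := fun hY => hvN (RH_Y_N m S hv hY)
        have hmem : m.h v ∈ m.Om l \ S.Y l := mem_sdiff.2 ⟨h1.1, hvY⟩
        have hchild : S.Nd m (S.cmp m l (m.h v) :: l) := Sys.Nd.cons l (m.h v) hnd hmem
        have hself : m.h v ∈ S.cmp m l (m.h v) := mem_comp_self m.Z hmem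
        have hI : ∀ x, x ∈ S.Intro m (S.cmp m l (m.h v) :: l) ↔
            x ∈ S.Intro m l ∨ x ∈ S.N m l := by
          intro x
          change x ∈ S.Intro m l ∪ S.Nf m l (S.Intro m l) ↔ _
          rw [mem_union]
          rfl
        have hvF : v ∈ S.F m (S.cmp m l (m.h v) :: l) := by
          rw [RH_mem_F]
          refine ⟨hself, ?_⟩
          rw [hI]
          rintro (h | h)
          · exact h1.2 h
          · exact hvN h
        have hwF : w ∈ S.F m (S.cmp m l (m.h v) :: l) := by
          rcases H1 m hS hchild hadj hvF with h | h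
          · exact h
          · rw [hI] at h
            rcases h with h | h
            · exact absurd h h2.2
            · exact absurd h hwN
        have hcard : (m.Om (S.cmp m l (m.h v) :: l)).card ≤ n := by
          have h3 : m.Om (S.cmp m l (m.h v) :: l) ⊆ m.Om l \ S.Y l := comp_subset m.Z _ _
          have h4 := card_le_card h3
          obtain ⟨c, hc⟩ := hS.Y_ne l hnd
          have h5 : m.Om l \ S.Y l ⊂ m.Om l := by
            rw [ssubset_iff_subset_ne]
            refine ⟨sdiff_subset, fun he => ?_⟩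
            have h6 := hS.Y_sub l hnd hc
            rw [← he, mem_sdiff] at h6
            exact h6.2 hc
          have h7 := card_lt_card h5
          omega
        exact ih _ hcard hchild hvF hwF

theorem edge_bag (m : Model V C ι) {S : Sys V C} (hS : S.Valid m) {v w : V}
    (h : m.G.Adj v w) : ∃ l, S.Nd m l ∧ v ∈ Bag m S l ∧ w ∈ Bag m S l := by
  have hF : ∀ x, x ∈ S.F m [] := by
    intro x
    rw [RH_mem_F]
    constructor
    · change m.h x ∈ univ \ {m.o}
      rw [mem_sdiff, mem_singleton]
      refine ⟨mem_univ _, fun he => ?_⟩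
      obtain ⟨κ, _, h2⟩ := m.vtx x
      apply m.o_not κ
      rw [h2, ← he]
      exact mem_singleton_self _
    · change x ∉ (∅ : Finset V)
      exact notMem_empty _
  exact RH_aux m hS h (m.Om []).card [] le_rfl Sys.Nd.nil (hF v) (hF w)

end Pool.MP627f83
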