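import Pool.Agent.Lib.MP_627f83_co.Defs
import Pool.Agent.Lib.MP_627f83_co.LevA
import Pool.Agent.Lib.MP_627f83_co.RA
import Pool.Agent.Lib.MP_627f83_co.RB
import Pool.Agent.Lib.MP_627f83_co.RFDefs
import Pool.Agent.Lib.MP_627f83_co.RF

/-!
# RI: parts are small on every level

* `CY_layer`: `6 s` from `CM_layer` and `CE_card`: `12 s`.
* `CC_layer`: at most 4 tripods: `48 s`.
* `part_layer`: `part v = t` gives `Cand v t`: `v ∈ CY t` (at most `12 s` on level `j`) or there is `w ∈ CY t`, `w ∈ N (top v)`,
  `Adj v w`. Then `top w = top v`, `|L w - L v| ≤ s` (`L_edge` both ways), so `w` is in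
  `⋃_{i ≤ 2s} {w ∈ CY t : L w = j - s + i}`: use `Finset.range (2 s + 1)` with `L w + s = j + i`: at most `(2s+1) * 12 s`
  vertices `w`; for each `w`, `v ∈ N (top w) ⊆ CC (top w)` on level `j`: at most `48 s`.
* `part_block`: the block `L v / s = b` consists of the `s` levels `s b, ..., s b + s - 1`.
-/

namespace Pool.MP627f83

open Finset
open scoped Classical

variable {V C ι : Type} [Fintype V] [DecidableEq V] [Fintype C] [DecidableEq C]

/-- bound for the size of a part on a level -/
def layB (s : ℕ) : ℕ := 12 * s + (2 * s + 1) * (12 * s) * (48 * s)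

theorem RI_CY_layer (m : Model V C ι) {S : Sys V C} (hS : S.Valid m) {l : List (Finset C)}
    (h : S.Nd m l) (j : ℕ) : ((S.CY l).filter (fun v => m.L v = j)).card ≤ 12 * m.s := by
  unfold Sys.CY
  rw [filter_union]
  refine (card_union_le _ _).trans ?_
  have h1 := hS.CM_layer l h j
  have h2 := (card_le_card (filter_subset (fun v => m.L v = j) (S.CE l))).trans (hS.CE_card l h)
  omega

theorem CC_layer (m : Model V C ι) {S : Sys V C} (hS : S.Valid m) {l : List (Finset C)}
    (h : S.Nd m l) (j : ℕ) : ((S.CC l).filter (fun v => m.L v = j)).card ≤ 48 * m.s := by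
  unfold Sys.CC
  rw [filter_union, filter_biUnion]
  refine (card_union_le _ _).trans ?_
  have h1 := RI_CY_layer m hS h j
  have h2 : ((S.T l).biUnion fun t => (S.CY t).filter (fun v => m.L v = j)).card ≤
      (S.T l).card * (12 * m.s) := by
    apply card_biUnion_le_card_mul
    intro t ht
    exact RI_CY_layer m hS (nd_suffix m h (T_suffix m hS h ht).1) j
  have h3 := hS.T_card l h
  have h4 : (S.T l).card * (12 * m.s) ≤ 3 * (12 * m.s) := Nat.mul_le_mul_right _ h3
  omega

theorem RI_cand_node (m : Model V C ι) {S : Sys V C} (hS : S.Valid m) {t : List (Finset C)}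
    {v : V} (ht : Cand m S v t) : S.Nd m t := by
  have h1 := (top_spec m hS v).1
  have h2 := ht.1
  rw [mem_insert] at h2
  rcases h2 with h2 | h2
  · rw [h2]
    exact h1
  · exact nd_suffix m h1 (T_suffix m hS h1 h2).1

theorem part_layer (m : Model V C ι) {S : Sys V C} (hS : S.Valid m) (t : List (Finset C))
    (j : ℕ) : (univ.filter (fun v => part m S v = t ∧ m.L v = j)).card ≤ layB m.s := by
  rcases (univ.filter (fun v => part m S v = t ∧ m.L v = j)).eq_empty_or_nonempty with h0 | h0
  · rw [h0, card_empty]
    exact Nat.zero_le _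
  obtain ⟨v0, hv0⟩ := h0
  rw [mem_filter] at hv0
  have htn : S.Nd m t := by
    rw [← hv0.2.1]
    exact RI_cand_node m hS (part_spec m hS v0).1
  have hsub : univ.filter (fun v => part m S v = t ∧ m.L v = j) ⊆
      (S.CY t).filter (fun v => m.L v = j) ∪
      (range (2 * m.s + 1)).biUnion (fun i =>
        ((S.CY t).filter (fun w => m.L w + m.s = j + i)).biUnion
          (fun w => (S.CC (top m S w)).filter (fun v => m.L v = j))) := by
    intro v hv
    rw [mem_filter] at hv
    obtain ⟨-, hvt, hvj⟩ := hv
    have hc := (part_spec m hS v).1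
    rw [hvt] at hc
    obtain ⟨-, hc⟩ := hc
    rcases hc with hc | ⟨w, hw1, hw2, hadj⟩
    · exact mem_union_left _ (mem_filter.2 ⟨hc, hvj⟩)
    · apply mem_union_right
      have htop := top_spec m hS v
      have e1 : top m S w = top m S v := top_eq m hS htop.1 hw2
      have h1 := L_edge m hadj
      have h2 := L_edge m hadj.symm
      rw [mem_biUnion]
      refine ⟨m.L w + m.s - j, ?_, ?_⟩
      · rw [mem_range]
        omega
      · rw [mem_biUnion]
        refine ⟨w, mem_filter.2 ⟨hw1, by omega⟩, mem_filter.2 ⟨?_, hvj⟩⟩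
        rw [e1]
        exact N_sub_CC m hS htop.1 htop.2
  refine (card_le_card hsub).trans ?_
  refine (card_union_le _ _).trans ?_
  unfold layB
  apply Nat.add_le_add (RI_CY_layer m hS htn j)
  have h1 : ∀ i ∈ range (2 * m.s + 1),
      (((S.CY t).filter (fun w => m.L w + m.s = j + i)).biUnion
          (fun w => (S.CC (top m S w)).filter (fun v => m.L v = j))).card ≤
        (12 * m.s) * (48 * m.s) := by
    intro i _
    have h2 := card_biUnion_le_card_mul ((S.CY t).filter (fun w => m.L w + m.s = j + i))
      (fun w => (S.CC (top m S w)).filter (fun v => m.L v = j)) (48 * m.s)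
      (fun w _ => CC_layer m hS (top_spec m hS w).1 j)
    refine h2.trans (Nat.mul_le_mul_right _ ?_)
    by_cases hs : m.s ≤ j + i
    · have h3 : (S.CY t).filter (fun w => m.L w + m.s = j + i) =
          (S.CY t).filter (fun w => m.L w = j + i - m.s) := by
        apply filter_congr
        intro w _
        omega
      rw [h3]
      exact RI_CY_layer m hS htn _
    · have h3 : (S.CY t).filter (fun w => m.L w + m.s = j + i) = ∅ := by
        apply filter_false_of_mem
        intro w _
        omega
      rw [h3, card_empty]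
      exact Nat.zero_le _
  have h2 := card_biUnion_le_card_mul (range (2 * m.s + 1)) _ _ h1
  rw [card_range] at h2
  rw [mul_assoc (2 * m.s + 1)]
  exact h2

theorem part_block (m : Model V C ι) {S : Sys V C} (hS : S.Valid m) (t : List (Finset C))
    (b : ℕ) : (univ.filter (fun v => part m S v = t ∧ m.L v / m.s = b)).card
      ≤ m.s * layB m.s := by
  have hsub : univ.filter (fun v => part m S v = t ∧ m.L v / m.s = b) ⊆
      (range m.s).biUnion (fun i => univ.filter (fun v => part m S v = t ∧
        m.L v = m.s * b + i)) := by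
    intro v hv
    rw [mem_filter] at hv
    obtain ⟨-, hvt, hvb⟩ := hv
    have hs := s_pos m v
    rw [mem_biUnion]
    refine ⟨m.L v % m.s, mem_range.2 (Nat.mod_lt _ hs), mem_filter.2 ⟨mem_univ _, hvt, ?_⟩⟩
    rw [← hvb]
    exact (Nat.div_add_mod _ _).symm
  refine (card_le_card hsub).trans ?_
  have h := card_biUnion_le_card_mul (range m.s) (fun i => univ.filter (fun v => part m S v = t ∧
        m.L v = m.s * b + i)) (layB m.s) (fun i _ => part_layer m hS t _)
  rw [card_range] at h
  exact h

end Pool.MP627f83
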