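import Pool.Agent.Lib.MP_627f83_co.Defs

/-!
# TreeA: prefix closed sets of lists are trees

`N` is a finite set of lists over `α` which contains `[]` and is closed under tails. The graph on `N` with
`l ~ l'` if one is the tail of the other (`∃ a, l = a :: l'` or `l' = a :: l`) is a tree.
Connected: every list is joined to `[]` (induction). Acyclic: for example
`SimpleGraph.isTree_iff_connected_and_card`: the map `l ↦ {l, tail l}` from the nonempty lists of `N` is a bijection
onto the edges; or use that in a cycle a list of maximal length has two neighbours on the cycle, both equal to its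
tail.
-/

namespace Pool.MP627f83

open Finset
open scoped Classical

/-- the graph on a set of lists: a list and its tail are adjacent -/
def listGraph {α : Type} (N : Set (List α)) : SimpleGraph N where
  Adj l l' := (∃ a, l.1 = a :: l'.1) ∨ ∃ a, l'.1 = a :: l.1
  symm := ⟨fun _ _ h => h.symm⟩
  loopless := ⟨fun l h => by
    rcases h with ⟨a, h⟩ | ⟨a, h⟩ <;> simpa using congrArg List.length h⟩

theorem listGraph_conn {α : Type} (N : Set (List α))
    (htail : ∀ a l, a :: l ∈ N → l ∈ N) (P : Set N) (top : N) (htop : top ∈ P)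
    (hsuf : ∀ l ∈ P, top.1 <:+ l.1)
    (hpar : ∀ (a : α) (l : List α) (h : a :: l ∈ N), (⟨a :: l, h⟩ : N) ∈ P → a :: l ≠ top.1 →
      (⟨l, htail a l h⟩ : N) ∈ P) :
    ((listGraph N).induce P).Connected := by
  have key : ∀ (l : List α) (h : l ∈ N) (hP : (⟨l, h⟩ : N) ∈ P),
      ((listGraph N).induce P).Reachable ⟨⟨l, h⟩, hP⟩ ⟨top, htop⟩ := by
    intro l
    induction l with
    | nil =>
      intro h hP
      have h1 := hsuf _ hP
      have h2 : top = (⟨[], h⟩ : N) := Subtype.ext (List.suffix_nil.1 h1)
      subst h2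
      exact SimpleGraph.Reachable.refl _
    | cons a l ih =>
      intro h hP
      by_cases hne : a :: l = top.1
      · have h2 : top = (⟨a :: l, h⟩ : N) := Subtype.ext hne.symm
        subst h2
        exact SimpleGraph.Reachable.refl _
      · have h3 := hpar a l h hP hne
        refine SimpleGraph.Reachable.trans ?_ (ih _ h3)
        apply SimpleGraph.Adj.reachable
        exact Or.inl ⟨a, rfl⟩
  have : Nonempty P := ⟨⟨top, htop⟩⟩
  refine SimpleGraph.Connected.mk ?_
  intro x y
  exact (key _ _ x.2).trans (key _ _ y.2).symm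

theorem listGraph_tree {α : Type} (N : Set (List α)) (hfin : N.Finite) (hnil : [] ∈ N)
    (htail : ∀ a l, a :: l ∈ N → l ∈ N) : (listGraph N).IsTree := by
  have : Finite N := hfin
  have key : ∀ (l : List α) (h : l ∈ N), (listGraph N).Reachable ⟨l, h⟩ ⟨[], hnil⟩ := by
    intro l
    induction l with
    | nil => intro h; exact SimpleGraph.Reachable.refl _
    | cons a l ih =>
      intro h
      refine SimpleGraph.Reachable.trans ?_ (ih (htail a l h))
      apply SimpleGraph.Adj.reachable
      exact Or.inl ⟨a, rfl⟩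
  rw [SimpleGraph.isTree_iff_connected_and_card]
  have : Nonempty N := ⟨⟨[], hnil⟩⟩
  refine ⟨SimpleGraph.Connected.mk fun x y => (key _ x.2).trans (key _ y.2).symm, ?_⟩
  have htl : ∀ l : N, l.1 ≠ [] → l.1.tail ∈ N := by
    rintro ⟨l, hl⟩ hne
    cases l with
    | nil => exact absurd rfl hne
    | cons a l => exact htail a l hl
  let f : {l : N // l.1 ≠ []} → (listGraph N).edgeSet := fun l =>
    ⟨s(l.1, ⟨l.1.1.tail, htl l.1 l.2⟩), by
      rw [SimpleGraph.mem_edgeSet]
      obtain ⟨⟨l, hl⟩, hne⟩ := l
      cases l with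
      | nil => exact absurd rfl hne
      | cons a l => exact Or.inl ⟨a, rfl⟩⟩
  have hf : Function.Bijective f := by
    constructor
    · rintro ⟨⟨l, hl⟩, hne⟩ ⟨⟨l', hl'⟩, hne'⟩ h
      have h1 := congrArg Subtype.val h
      simp only [f] at h1
      rw [Sym2.eq_iff] at h1
      rcases h1 with ⟨h1, _⟩ | ⟨h1, h2⟩
      · apply Subtype.ext; exact h1
      · exfalso
        have h3 := congrArg (fun x : N => x.1.length) h1
        have h4 := congrArg (fun x : N => x.1.length) h2
        simp only [List.length_tail] at h3 h4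
        have h5 : l.length ≠ 0 := fun h => hne (List.length_eq_zero_iff.1 h)
        have h6 : l'.length ≠ 0 := fun h => hne' (List.length_eq_zero_iff.1 h)
        omega
    · rintro ⟨e, he⟩
      induction e using Sym2.ind with
      | _ x y =>
        rw [SimpleGraph.mem_edgeSet] at he
        rcases he with ⟨a, ha⟩ | ⟨a, ha⟩
        · refine ⟨⟨x, by rw [ha]; simp⟩, ?_⟩
          apply Subtype.ext
          simp only [f]
          congr 1
          apply Subtype.ext
          simp [ha]
        · refine ⟨⟨y, by rw [ha]; simp⟩, ?_⟩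
          apply Subtype.ext
          simp only [f]
          rw [Sym2.eq_swap]
          congr 1
          apply Subtype.ext
          simp [ha]
  rw [← Nat.card_congr (Equiv.ofBijective f hf)]
  have h1 : Nat.card {l : N // l.1 ≠ []} + Nat.card {l : N // ¬ l.1 ≠ []} = Nat.card N := by
    rw [← Nat.card_sum]
    exact Nat.card_congr (Equiv.sumCompl (fun l : N => l.1 ≠ []))
  have h2 : Nat.card {l : N // ¬ l.1 ≠ []} = 1 := by
    rw [Nat.card_eq_one_iff_unique]
    refine ⟨⟨?_⟩, ⟨⟨⟨[], hnil⟩, by simp⟩⟩⟩
    rintro ⟨⟨l, hl⟩, h⟩ ⟨⟨l', hl'⟩, h'⟩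
    simp only [ne_eq, not_not] at h h'
    subst h h'
    rfl
  omega

end Pool.MP627f83
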