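import Pool.Agent.Lib.MP_627f83_co.Defs
import Pool.Agent.Lib.MP_627f83_co.TreeA

/-!
# TreeB: tree decompositions indexed by lists

`ι = N`, `T = listGraph N` (`listGraph_tree`), the bags restricted to `N`; connectivity of the bags of `x` from
`listGraph_conn` with `P = {l | x ∈ bag l}` and `top = top x`.
-/

namespace Pool.MP627f83

open Finset
open scoped Classical

theorem treewidth_of_lists {α : Type} (N : Set (List α)) (hfin : N.Finite) (hnil : [] ∈ N)
    (htail : ∀ a l, a :: l ∈ N → l ∈ N) {W : Type} (H : SimpleGraph W)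
    (bag : List α → Finset W) (top : W → List α) (htop : ∀ x, top x ∈ N ∧ x ∈ bag (top x))
    (hsuf : ∀ x, ∀ l ∈ N, x ∈ bag l → top x <:+ l)
    (hpar : ∀ x a l, a :: l ∈ N → x ∈ bag (a :: l) → a :: l ≠ top x → x ∈ bag l)
    (hedge : ∀ x y, H.Adj x y → ∃ l ∈ N, x ∈ bag l ∧ y ∈ bag l)
    (w : ℕ) (hw : ∀ l ∈ N, (bag l).card ≤ w + 1) : TreewidthLE H w := by
  refine ⟨N, hfin.to_subtype, listGraph N, fun l => bag l.1, listGraph_tree N hfin hnil htail,
    fun x => ⟨⟨top x, (htop x).1⟩, (htop x).2⟩, fun x y h => ?_, fun x => ?_,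
    fun l => hw l.1 l.2⟩
  · obtain ⟨l, hl, h1, h2⟩ := hedge x y h
    exact ⟨⟨l, hl⟩, h1, h2⟩
  · exact listGraph_conn N htail {l | x ∈ bag l.1} ⟨top x, (htop x).1⟩ (htop x).2
      (fun l hl => hsuf x l.1 l.2 hl) (fun a l h h1 h2 => hpar x a l h h1 h2)

end Pool.MP627f83
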