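import Pool.Agent.Lib.MP_627f83_co.Defs
import Pool.Agent.Lib.MP_627f83_co.RA
import Pool.Agent.Lib.MP_627f83_co.RB
import Pool.Agent.Lib.MP_627f83_co.RFDefs
import Pool.Agent.Lib.MP_627f83_co.RF
import Pool.Agent.Lib.MP_627f83_co.RG
import Pool.Agent.Lib.MP_627f83_co.RH
import Pool.Agent.Lib.MP_627f83_co.RI
import Pool.Agent.Lib.MP_627f83_co.TreeB
import Pool.Agent.Lib.MP_627f83_co.ExF
import Pool.Agent.Lib.MP_627f83_co.LevA

/-!
# FinA: a model has bounded row treewidth

`S` from `sys_exists`. If `V` is empty trivial. `N = {l | S.Nd m l}` (finite by `nd_finite`), `ell = s * layB s`,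
`W = N × Fin ell` (a finite type; or `List (Finset C) × Fin ell` restricted to nodes), `H`: `(t,i) ~ (t',i')` if
different and there is a node `l` with `t, t' ∈ BH l`. `TreewidthLE H w` by `treewidth_of_lists` with
`bag l = BH l × Fin ell` (attach / filter on the subtype), `top (t,i) = t` (`self_mem_BH`, `BH_suffix`, `BH_parent`), size
`(20 + 216 s) * ell` (`BH_card`). Map: `v ↦ ((part v, idx v), L v / s)` where `idx` is an injection of the at most `ell`
vertices with the same part and the same block into `Fin ell` (`part_block`; e.g. `Finset.equivFin` composed with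
`Fin.castLE`, or `Function.Embedding.nonempty_of_card_le`). `n` = max block + 1 (`Finset.sup` or `univ.sup`). Adjacent `v, w`: both
in some `Bag l` (`edge_bag`), so parts both in `BH l`; blocks: `L w ≤ L v + s` and `L v ≤ L w + s` give
`|L v / s - L w / s| ≤ 1`, and `SimpleGraph.pathGraph_adj`. `top v` is a node so `part v` is a node (`T_suffix`, `nd_suffix`).
-/

namespace Pool.MP627f83

open Finset
open scoped Classical

variable {V C ι : Type} [Fintype V] [DecidableEq V] [Fintype C] [DecidableEq C]

/-- the vertices of a part in a block -/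
noncomputable def FinA_A (m : Model V C ι) (S : Sys V C) (t : List (Finset C)) (b : ℕ) :
    Finset V := univ.filter (fun v => part m S v = t ∧ m.L v / m.s = b)

theorem FinA_idx (m : Model V C ι) {S : Sys V C} (hS : S.Valid m) :
    ∃ idx : V → Fin (m.s * layB m.s), ∀ v w, part m S v = part m S w →
      m.L v / m.s = m.L w / m.s → idx v = idx w → v = w := by
  have hcard : ∀ t b, (FinA_A m S t b).card ≤ m.s * layB m.s := fun t b => part_block m hS t b
  have hemb : ∀ t b, Nonempty ({v // v ∈ FinA_A m S t b} ↪ Fin (m.s * layB m.s)) := by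
    intro t b
    apply Function.Embedding.nonempty_of_card_le
    simpa using hcard t b
  let e := fun t b => (hemb t b).some
  have hmem : ∀ v, v ∈ FinA_A m S (part m S v) (m.L v / m.s) := by
    intro v
    simp [FinA_A]
  refine ⟨fun v => e (part m S v) (m.L v / m.s) ⟨v, hmem v⟩, ?_⟩
  have key : ∀ v t b (h1 : part m S v = t) (h2 : m.L v / m.s = b)
      (hv : v ∈ FinA_A m S t b),
      e (part m S v) (m.L v / m.s) ⟨v, hmem v⟩ = e t b ⟨v, hv⟩ := by
    intro v t b h1 h2 hv
    subst h1
    subst h2
    rfl
  intro v w h1 h2 h3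
  have hv : v ∈ FinA_A m S (part m S w) (m.L w / m.s) := by
    simp [FinA_A, h1, h2]
  simp only at h3
  rw [key v _ _ h1 h2 hv] at h3
  have := (e (part m S w) (m.L w / m.s)).injective h3
  simpa using this

theorem FinA_part_nd (m : Model V C ι) {S : Sys V C} (hS : S.Valid m) (v : V) :
    S.Nd m (part m S v) := by
  have h1 := part_mem_top m hS v
  have h2 := (top_spec m hS v).1
  rcases Finset.mem_insert.1 h1 with h | h
  · rw [h]; exact h2
  · exact nd_suffix m h2 (T_suffix m hS h2 h).1

theorem FinA_block (m : Model V C ι) {v w : V} (h : m.G.Adj v w) :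
    m.L v / m.s = m.L w / m.s ∨ m.L v / m.s + 1 = m.L w / m.s ∨
      m.L w / m.s + 1 = m.L v / m.s := by
  have hs := s_pos m v
  have h1 := L_edge m h
  have h2 := L_edge m h.symm
  have h3 : m.L w / m.s ≤ m.L v / m.s + 1 := by
    rw [← Nat.add_div_right _ (by omega)]
    exact Nat.div_le_div_right h1
  have h4 : m.L v / m.s ≤ m.L w / m.s + 1 := by
    rw [← Nat.add_div_right _ (by omega)]
    exact Nat.div_le_div_right h2
  omega

theorem row_of_model (m : Model V C ι) :
    RowTreewidthLE m.G ((20 + 216 * m.s) * (m.s * layB m.s)) := by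
  obtain ⟨S, hS⟩ := sys_exists m
  have hfin : {l | S.Nd m l}.Finite := nd_finite m hS
  have : Finite {t : List (Finset C) // S.Nd m t} := hfin.to_subtype
  have : Fintype {t : List (Finset C) // S.Nd m t} := Fintype.ofFinite _
  obtain ⟨idx, hidx⟩ := FinA_idx m hS
  let W := {t : List (Finset C) // S.Nd m t} × Fin (m.s * layB m.s)
  let H : SimpleGraph W :=
    { Adj := fun x y => x ≠ y ∧ ∃ l, S.Nd m l ∧ x.1.1 ∈ BH m S l ∧ y.1.1 ∈ BH m S l
      symm := ⟨fun x y h => ⟨h.1.symm, by
        obtain ⟨l, h1, h2, h3⟩ := h.2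
        exact ⟨l, h1, h3, h2⟩⟩⟩
      loopless := ⟨fun x h => h.1 rfl⟩ }
  let bag : List (Finset C) → Finset W := fun l => univ.filter (fun x => x.1.1 ∈ BH m S l)
  have hbag : ∀ l x, x ∈ bag l ↔ x.1.1 ∈ BH m S l := by
    intro l x
    simp [bag]
  have hTW : TreewidthLE H ((20 + 216 * m.s) * (m.s * layB m.s)) := by
    refine treewidth_of_lists {l | S.Nd m l} hfin Sys.Nd.nil
      (fun a l h => nd_tail m h) H bag (fun x => x.1.1) ?_ ?_ ?_ ?_ _ ?_
    · intro x
      exact ⟨x.1.2, (hbag _ _).2 (self_mem_BH m S _)⟩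
    · intro x l hl hx
      exact BH_suffix m hS hl ((hbag _ _).1 hx)
    · intro x a l hl hx hne
      exact (hbag _ _).2 (BH_parent m hS hl ((hbag _ _).1 hx) (fun h => hne h.symm))
    · intro x y hxy
      obtain ⟨l, h1, h2, h3⟩ := hxy.2
      exact ⟨l, h1, (hbag _ _).2 h2, (hbag _ _).2 h3⟩
    · intro l hl
      have h1 : (bag l).card ≤ ((BH m S l) ×ˢ (univ : Finset (Fin (m.s * layB m.s)))).card := by
        apply Finset.card_le_card_of_injOn (fun x : W => (x.1.1, x.2))
        · intro x hx
          have := (hbag l x).1 (by simpa using hx)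
          simp [this]
        · intro x _ y _ hxy
          have h1 := congrArg Prod.fst hxy
          have h2 := congrArg Prod.snd hxy
          exact Prod.ext (Subtype.ext h1) h2
      rw [Finset.card_product, Finset.card_univ, Fintype.card_fin] at h1
      have h2 := BH_card m hS hl
      have h3 : (BH m S l).card * (m.s * layB m.s) ≤
          (20 + 216 * m.s) * (m.s * layB m.s) := Nat.mul_le_mul_right _ h2
      omega
  let n := (univ.sup (fun v => m.L v / m.s)) + 1
  have hn : ∀ v, m.L v / m.s < n := by
    intro v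
    have : m.L v / m.s ≤ univ.sup (fun v => m.L v / m.s) :=
      Finset.le_sup (f := fun v => m.L v / m.s) (Finset.mem_univ v)
    omega
  refine ⟨W, inferInstance, H, n, hTW,
    fun v => ((⟨part m S v, FinA_part_nd m hS v⟩, idx v), ⟨m.L v / m.s, hn v⟩), ?_, ?_⟩
  · intro v w hvw
    have e1 : part m S v = part m S w := congrArg (fun x => x.1.1.1) hvw
    have e2 : idx v = idx w := congrArg (fun x => x.1.2) hvw
    have e3 : m.L v / m.s = m.L w / m.s := congrArg (fun x => x.2.1) hvw
    exact hidx v w e1 e3 e2
  · intro v w hvw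
    have hne : v ≠ w := hvw.ne
    refine ⟨?_, ?_, ?_⟩
    · intro h
      have e1 : part m S v = part m S w := congrArg (fun x => x.1.1.1) h
      have e2 : idx v = idx w := congrArg (fun x => x.1.2) h
      have e3 : m.L v / m.s = m.L w / m.s := congrArg (fun x => x.2.1) h
      exact hne (hidx v w e1 e3 e2)
    · by_cases hx : ((⟨part m S v, FinA_part_nd m hS v⟩, idx v) : W) =
          (⟨part m S w, FinA_part_nd m hS w⟩, idx w)
      · exact Or.inl hx
      · right
        refine ⟨hx, ?_⟩
        obtain ⟨l, h1, h2, h3⟩ := edge_bag m hS hvw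
        exact ⟨l, h1, part_mem_BH m S h2, part_mem_BH m S h3⟩
    · rcases FinA_block m hvw with h | h | h
      · left
        exact Fin.ext h
      · right
        rw [SimpleGraph.pathGraph_adj]
        left
        exact h
      · right
        rw [SimpleGraph.pathGraph_adj]
        right
        exact h

end Pool.MP627f83
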