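import Pool.Agent.Lib.MP_627f83_co.Defs

/-!
# GeoA: arcs are compact; uniform separation and boundedness

An arc is the continuous image of `unitInterval`: compact, connected, nonempty, contains the points of its two
ends. There are finitely many edges and vertices. Disjoint compact sets have positive distance
(`IsCompact.exists_infDist...`, `Metric` lemmas, or `IsCompact.exists_thickening...`); take the minimum over the
finitely many pairs (e.g. `Finset.exists_min_image` or induction with `min`). The distance on `ℝ × ℝ` is the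
sup distance. Bounded: union of finitely many compact sets.
-/

namespace Pool.MP627f83

open Finset
open scoped Classical

theorem arc_props {A : Set (ℝ × ℝ)} {x y : ℝ × ℝ} (h : IsArc A x y) :
    IsCompact A ∧ IsPreconnected A ∧ x ∈ A ∧ y ∈ A := by
  obtain ⟨γ, hc, _, hr, h0, h1⟩ := h
  subst hr
  refine ⟨isCompact_range hc, isPreconnected_range hc, ?_, ?_⟩
  · rw [← h0]; exact Set.mem_range_self _
  · rw [← h1]; exact Set.mem_range_self _

theorem GeoA_fin {ι : Type} [Finite ι] (P : ι → ℝ → Prop)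
    (hmono : ∀ i a b, a ≤ b → P i b → P i a) (h : ∀ i, ∃ δ : ℝ, 0 < δ ∧ P i δ) :
    ∃ δ : ℝ, 0 < δ ∧ ∀ i, P i δ := by
  choose δ hδ hP using h
  rcases isEmpty_or_nonempty ι with he | hne
  · exact ⟨1, one_pos, fun i => (he.false i).elim⟩
  · obtain ⟨i0, hi0⟩ := Finite.exists_min δ
    exact ⟨δ i0, hδ i0, fun i => hmono i _ _ (hi0 i) (hP i)⟩

theorem GeoA_sep {A B : Set (ℝ × ℝ)} (hA : IsCompact A) (hB : IsCompact B)
    (hAB : ∀ p, p ∈ A → p ∉ B) :
    ∃ δ : ℝ, 0 < δ ∧ ∀ p ∈ A, ∀ q ∈ B, ¬ dist p q < δ := by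
  have hd : Disjoint A B := Set.disjoint_left.2 hAB
  obtain ⟨δ, hδ, h⟩ := hd.exists_thickenings hA hB.isClosed
  refine ⟨δ, hδ, fun p hp q hq hpq => ?_⟩
  refine (Set.disjoint_left.1 h (?_ : q ∈ Metric.thickening δ A)) ?_
  · rw [Metric.mem_thickening_iff]
    exact ⟨p, hp, by rw [dist_comm]; exact hpq⟩
  · exact Metric.self_subset_thickening hδ _ hq

theorem GeoA_arc_compact {V : Type} {G : SimpleGraph V} (D : Drawing G) (e : Sym2 V)
    (he : e ∈ G.edgeSet) : IsCompact (D.arc e) := by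
  induction e using Sym2.ind with
  | _ u v => exact (arc_props (D.arc_spec u v he)).1

theorem separation {V : Type} [Fintype V] {G : SimpleGraph V} (D : Drawing G) :
    ∃ δ : ℝ, 0 < δ ∧ ∃ R : ℝ, 0 < R ∧
      (∀ e ∈ G.edgeSet, ∀ f ∈ G.edgeSet, (∃ p ∈ D.arc e, ∃ q ∈ D.arc f, dist p q < δ) →
        ∃ p, p ∈ D.arc e ∧ p ∈ D.arc f) ∧
      (∀ e ∈ G.edgeSet, ∀ v, (∃ p ∈ D.arc e, dist p (D.pt v) < δ) → v ∈ e) ∧
      (∀ v w, dist (D.pt v) (D.pt w) < δ → v = w) ∧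
      (∀ e ∈ G.edgeSet, ∀ p ∈ D.arc e, |p.1| ≤ R ∧ |p.2| ≤ R) ∧
      (∀ v, |(D.pt v).1| ≤ R ∧ |(D.pt v).2| ≤ R) := by
  have H1 : ∃ δ : ℝ, 0 < δ ∧ ∀ x : Sym2 V × Sym2 V, (x.1 ∈ G.edgeSet → x.2 ∈ G.edgeSet →
      (∃ p ∈ D.arc x.1, ∃ q ∈ D.arc x.2, dist p q < δ) →
        ∃ p, p ∈ D.arc x.1 ∧ p ∈ D.arc x.2) := by
    apply GeoA_fin (fun (x : Sym2 V × Sym2 V) δ => (x.1 ∈ G.edgeSet → x.2 ∈ G.edgeSet →
      (∃ p ∈ D.arc x.1, ∃ q ∈ D.arc x.2, dist p q < δ) →
        ∃ p, p ∈ D.arc x.1 ∧ p ∈ D.arc x.2))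
    · rintro x a b hab h h1 h2 ⟨p, hp, q, hq, hpq⟩
      exact h h1 h2 ⟨p, hp, q, hq, lt_of_lt_of_le hpq hab⟩
    · intro x
      by_cases hx : ∃ p, p ∈ D.arc x.1 ∧ p ∈ D.arc x.2
      · exact ⟨1, one_pos, fun _ _ _ => hx⟩
      · by_cases hx1 : x.1 ∈ G.edgeSet
        · by_cases hx2 : x.2 ∈ G.edgeSet
          · obtain ⟨δ, hδ, h⟩ := GeoA_sep (GeoA_arc_compact D _ hx1) (GeoA_arc_compact D _ hx2)
              (fun p hp hq => hx ⟨p, hp, hq⟩)
            exact ⟨δ, hδ, fun _ _ ⟨p, hp, q, hq, hpq⟩ => absurd hpq (h p hp q hq)⟩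
          · exact ⟨1, one_pos, fun _ h2 => absurd h2 hx2⟩
        · exact ⟨1, one_pos, fun h1 => absurd h1 hx1⟩
  have H2 : ∃ δ : ℝ, 0 < δ ∧ ∀ x : Sym2 V × V, (x.1 ∈ G.edgeSet →
      (∃ p ∈ D.arc x.1, dist p (D.pt x.2) < δ) → x.2 ∈ x.1) := by
    apply GeoA_fin (fun (x : Sym2 V × V) δ => (x.1 ∈ G.edgeSet →
      (∃ p ∈ D.arc x.1, dist p (D.pt x.2) < δ) → x.2 ∈ x.1))
    · rintro x a b hab h h1 ⟨p, hp, hpq⟩
      exact h h1 ⟨p, hp, lt_of_lt_of_le hpq hab⟩
    · rintro ⟨e, v⟩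
      by_cases hv : v ∈ e
      · exact ⟨1, one_pos, fun _ _ => hv⟩
      · by_cases he : e ∈ G.edgeSet
        · have hnot : D.pt v ∉ D.arc e := by
            intro hmem
            apply hv
            induction e using Sym2.ind with
            | _ u w =>
              rcases D.arc_avoid u w v he hmem with h | h
              · rw [h]; exact Sym2.mem_mk_left _ _
              · rw [h]; exact Sym2.mem_mk_right _ _
          obtain ⟨δ, hδ, h⟩ := GeoA_sep (GeoA_arc_compact D _ he)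
            (isCompact_singleton (x := D.pt v)) (fun p hp hq => by
              rw [Set.mem_singleton_iff] at hq
              exact hnot (hq ▸ hp))
          exact ⟨δ, hδ, fun _ ⟨p, hp, hpq⟩ => absurd hpq (h p hp _ rfl)⟩
        · exact ⟨1, one_pos, fun h1 => absurd h1 he⟩
  have H3 : ∃ δ : ℝ, 0 < δ ∧ ∀ x : V × V, (dist (D.pt x.1) (D.pt x.2) < δ → x.1 = x.2) := by
    apply GeoA_fin (fun (x : V × V) δ => (dist (D.pt x.1) (D.pt x.2) < δ → x.1 = x.2))
    · rintro x a b hab h h1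
      exact h (lt_of_lt_of_le h1 hab)
    · rintro ⟨v, w⟩
      by_cases hv : v = w
      · exact ⟨1, one_pos, fun _ => hv⟩
      · refine ⟨dist (D.pt v) (D.pt w), dist_pos.2 (fun h => hv (D.pt_inj h)), fun h => ?_⟩
        exact absurd h (lt_irrefl _)
  obtain ⟨d1, h1, P1⟩ := H1
  obtain ⟨d2, h2, P2⟩ := H2
  obtain ⟨d3, h3, P3⟩ := H3
  have hK : IsCompact ((⋃ e ∈ G.edgeSet, D.arc e) ∪ Set.range D.pt) := by
    apply IsCompact.union
    · exact (Set.toFinite G.edgeSet).isCompact_biUnion (fun e he => GeoA_arc_compact D e he)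
    · exact (Set.finite_range D.pt).isCompact
  obtain ⟨R, hR, hRK⟩ := hK.isBounded.exists_pos_norm_le
  have hnorm : ∀ p ∈ ((⋃ e ∈ G.edgeSet, D.arc e) ∪ Set.range D.pt), |p.1| ≤ R ∧ |p.2| ≤ R := by
    intro p hp
    have h := hRK p hp
    refine ⟨?_, ?_⟩
    · rw [← Real.norm_eq_abs]; exact (norm_fst_le p).trans h
    · rw [← Real.norm_eq_abs]; exact (norm_snd_le p).trans h
  refine ⟨min d1 (min d2 d3), lt_min h1 (lt_min h2 h3), R, hR, ?_, ?_, ?_, ?_, ?_⟩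
  · rintro e he f hf ⟨p, hp, q, hq, hpq⟩
    exact P1 (e, f) he hf ⟨p, hp, q, hq, lt_of_lt_of_le hpq (min_le_left _ _)⟩
  · rintro e he v ⟨p, hp, hpq⟩
    exact P2 (e, v) he ⟨p, hp, lt_of_lt_of_le hpq ((min_le_right _ _).trans (min_le_left _ _))⟩
  · intro v w h
    exact P3 (v, w) (lt_of_lt_of_le h ((min_le_right _ _).trans (min_le_right _ _)))
  · intro e he p hp
    exact hnorm p (Or.inl (Set.mem_biUnion he hp))
  · intro v
    exact hnorm _ (Or.inr (Set.mem_range_self v))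

end Pool.MP627f83
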