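import Pool.Agent.Lib.MP_627f83_co.Defs
import Pool.Agent.Lib.MP_627f83_co.GeoA

/-!
# GeoB: the scaled drawing

`φ z = (lam * (z.1 + R) + 1, lam * (z.2 + R) + 1)` with `lam = 2 / δ`; `dist (φ p) (φ q) = lam * dist p q`. `pt' = φ ∘ pt`,
`arc' e = φ '' arc e`, `N` a natural number `≥ 2 lam R + 2`. Everything lies in `[1, N - 1]²`; distance `< 2` after
scaling means distance `< δ` before.
-/

namespace Pool.MP627f83

open Finset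
open scoped Classical

/-- the scaling map -/
noncomputable def GeoBphi (lam R : ℝ) (z : ℝ × ℝ) : ℝ × ℝ :=
  (lam * (z.1 + R) + 1, lam * (z.2 + R) + 1)

theorem GeoB_cont (lam R : ℝ) : Continuous (GeoBphi lam R) := by
  unfold GeoBphi
  fun_prop

theorem GeoB_dist {lam : ℝ} (h : 0 < lam) (R : ℝ) (p q : ℝ × ℝ) :
    dist (GeoBphi lam R p) (GeoBphi lam R q) = lam * dist p q := by
  rw [Prod.dist_eq, Prod.dist_eq, mul_max_of_nonneg _ _ h.le]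
  unfold GeoBphi
  simp only [Real.dist_eq]
  congr 1
  · rw [show lam * (p.1 + R) + 1 - (lam * (q.1 + R) + 1) = lam * (p.1 - q.1) by ring, abs_mul,
      abs_of_pos h]
  · rw [show lam * (p.2 + R) + 1 - (lam * (q.2 + R) + 1) = lam * (p.2 - q.2) by ring, abs_mul,
      abs_of_pos h]

theorem GeoB_lt {δ : ℝ} (hδ : 0 < δ) {R : ℝ} {p q : ℝ × ℝ}
    (h : dist (GeoBphi (2 / δ) R p) (GeoBphi (2 / δ) R q) < 2) : dist p q < δ := by
  have hl : 0 < 2 / δ := by positivity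
  rw [GeoB_dist hl] at h
  by_contra hcon
  rw [not_lt] at hcon
  have h1 : 2 / δ * δ ≤ 2 / δ * dist p q := mul_le_mul_of_nonneg_left hcon hl.le
  rw [div_mul_cancel₀ _ hδ.ne'] at h1
  linarith

theorem GeoB_bd {lam R : ℝ} (h : 0 < lam) {N : ℝ} (hN : 2 * lam * R + 2 ≤ N) {x : ℝ}
    (hx : |x| ≤ R) : 1 ≤ lam * (x + R) + 1 ∧ lam * (x + R) + 1 ≤ N - 1 := by
  obtain ⟨h1, h2⟩ := abs_le.mp hx
  constructor
  · have : 0 ≤ lam * (x + R) := mul_nonneg h.le (by linarith)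
    linarith
  · have : lam * (x + R) ≤ lam * (R + R) := mul_le_mul_of_nonneg_left (by linarith) h.le
    nlinarith

theorem GeoB_arc {V : Type} {G : SimpleGraph V} (D : Drawing G) (e : Sym2 V)
    (he : e ∈ G.edgeSet) : IsPreconnected (D.arc e) ∧ ∀ v ∈ e, D.pt v ∈ D.arc e := by
  induction e using Sym2.ind with
  | _ u v =>
    rw [SimpleGraph.mem_edgeSet] at he
    obtain ⟨_, h1, h2, h3⟩ := arc_props (D.arc_spec u v he)
    refine ⟨h1, ?_⟩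
    intro w hw
    rw [Sym2.mem_iff] at hw
    rcases hw with rfl | rfl
    · exact h2
    · exact h3

theorem scaled {V : Type} [Fintype V] {G : SimpleGraph V} (D : Drawing G) :
    ∃ (N : ℕ) (pt' : V → ℝ × ℝ) (arc' : Sym2 V → Set (ℝ × ℝ)),
      (∀ e ∈ G.edgeSet, IsPreconnected (arc' e)) ∧
      (∀ e ∈ G.edgeSet, ∀ v ∈ e, pt' v ∈ arc' e) ∧
      (∀ e ∈ G.edgeSet, ∀ f ∈ G.edgeSet, (∃ p ∈ arc' e, ∃ q ∈ arc' f, dist p q < 2) →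
        ∃ p, p ∈ D.arc e ∧ p ∈ D.arc f) ∧
      (∀ e ∈ G.edgeSet, ∀ v, (∃ p ∈ arc' e, dist p (pt' v) < 2) → v ∈ e) ∧
      (∀ v w, dist (pt' v) (pt' w) < 2 → v = w) ∧
      (∀ e ∈ G.edgeSet, ∀ p ∈ arc' e, 1 ≤ p.1 ∧ p.1 ≤ N - 1 ∧ 1 ≤ p.2 ∧ p.2 ≤ N - 1) ∧
      (∀ v, 1 ≤ (pt' v).1 ∧ (pt' v).1 ≤ N - 1 ∧ 1 ≤ (pt' v).2 ∧ (pt' v).2 ≤ N - 1) := by
  obtain ⟨δ, hδ, R, hR, h1, h2, h3, h4, h5⟩ := separation D
  have hl : 0 < 2 / δ := by positivity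
  obtain ⟨N, hN⟩ := exists_nat_ge (2 * (2 / δ) * R + 2)
  refine ⟨N, fun v => GeoBphi (2 / δ) R (D.pt v), fun e => GeoBphi (2 / δ) R '' D.arc e, ?_, ?_, ?_,
    ?_, ?_, ?_, ?_⟩
  · intro e he
    exact (GeoB_arc D e he).1.image _ (GeoB_cont _ _).continuousOn
  · intro e he v hv
    exact Set.mem_image_of_mem _ ((GeoB_arc D e he).2 v hv)
  · rintro e he f hf ⟨_, ⟨p, hp, rfl⟩, _, ⟨q, hq, rfl⟩, hd⟩
    exact h1 e he f hf ⟨p, hp, q, hq, GeoB_lt hδ hd⟩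
  · rintro e he v ⟨_, ⟨p, hp, rfl⟩, hd⟩
    exact h2 e he v ⟨p, hp, GeoB_lt hδ hd⟩
  · intro v w hd
    exact h3 v w (GeoB_lt hδ hd)
  · rintro e he _ ⟨p, hp, rfl⟩
    obtain ⟨h6, h7⟩ := h4 e he p hp
    have h8 := GeoB_bd hl hN h6
    have h9 := GeoB_bd hl hN h7
    exact ⟨h8.1, h8.2, h9.1, h9.2⟩
  · intro v
    obtain ⟨h6, h7⟩ := h5 v
    have h8 := GeoB_bd hl hN h6
    have h9 := GeoB_bd hl hN h7
    exact ⟨h8.1, h8.2, h9.1, h9.2⟩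

end Pool.MP627f83
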