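import Pool.Agent.Lib.MP_627f83_co.Defs

/-!
# Lat: lattice points near a connected set are connected

`Near E p`: some point of `E` is at sup-distance `< 1` from the lattice point `p`. Let `B` be a set of lattice points.
`U1` = union of the open squares of radius 1 around the near points in `B`, `U2` = the same for the near points
outside `B`. `E` is contained in `U1 ∪ U2` (the point `z` is near its floor, coordinates are nonnegative), both meet `E`. As `E` is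
preconnected there is `z ∈ E ∩ U1 ∩ U2`: `p ∈ B`, `q ∉ B` with `|z - p| < 1`, `|z - q| < 1` (both coordinates). Let `r = (q.1, p.2)`: it
is near `z`. If `r ∈ B`: `r` and `q` have the same first coordinate and second coordinates differ by less than 2, and
`r ≠ q`: they are grid neighbours. If `r ∉ B`: `p` and `r` are grid neighbours in the same way.
-/

namespace Pool.MP627f83

open Finset
open scoped Classical

/-- the lattice point `p` is at sup-distance less than `1` from a point of `E` -/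
def Near (E : Set (ℝ × ℝ)) (p : ℕ × ℕ) : Prop :=
  ∃ z ∈ E, |z.1 - (p.1 : ℝ)| < 1 ∧ |z.2 - (p.2 : ℝ)| < 1

/-- neighbours in the square grid -/
def GridAdj (p q : ℕ × ℕ) : Prop :=
  q = (p.1 + 1, p.2) ∨ q = (p.1, p.2 + 1) ∨ p = (q.1 + 1, q.2) ∨ p = (q.1, q.2 + 1)

theorem lattice_conn (E : Set (ℝ × ℝ)) (hE : IsPreconnected E)
    (hpos : ∀ z ∈ E, 0 ≤ z.1 ∧ 0 ≤ z.2) (B : Set (ℕ × ℕ)) (hB : ∃ p ∈ B, Near E p)
    (hB' : ∃ p, p ∉ B ∧ Near E p) :
    ∃ p q, p ∈ B ∧ q ∉ B ∧ Near E p ∧ Near E q ∧ GridAdj p q := by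
  have hopen : ∀ p : ℕ × ℕ,
      IsOpen {z : ℝ × ℝ | |z.1 - (p.1 : ℝ)| < 1 ∧ |z.2 - (p.2 : ℝ)| < 1} := by
    intro p
    have c1 : Continuous fun z : ℝ × ℝ => |z.1 - (p.1 : ℝ)| :=
      (continuous_fst.sub continuous_const).abs
    have c2 : Continuous fun z : ℝ × ℝ => |z.2 - (p.2 : ℝ)| :=
      (continuous_snd.sub continuous_const).abs
    exact (isOpen_lt c1 continuous_const).inter (isOpen_lt c2 continuous_const)
  set U1 : Set (ℝ × ℝ) := ⋃ p ∈ {p : ℕ × ℕ | p ∈ B ∧ Near E p},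
    {z : ℝ × ℝ | |z.1 - (p.1 : ℝ)| < 1 ∧ |z.2 - (p.2 : ℝ)| < 1} with hU1
  set U2 : Set (ℝ × ℝ) := ⋃ p ∈ {p : ℕ × ℕ | p ∉ B ∧ Near E p},
    {z : ℝ × ℝ | |z.1 - (p.1 : ℝ)| < 1 ∧ |z.2 - (p.2 : ℝ)| < 1} with hU2
  have ho1 : IsOpen U1 := isOpen_biUnion fun p _ => hopen p
  have ho2 : IsOpen U2 := isOpen_biUnion fun p _ => hopen p
  have hcov : E ⊆ U1 ∪ U2 := by
    intro z hz
    obtain ⟨h1, h2⟩ := hpos z hz
    have e1 : |z.1 - ((⌊z.1⌋₊ : ℕ) : ℝ)| < 1 := by
      rw [abs_lt]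
      constructor
      · have := Nat.floor_le h1
        linarith
      · have := Nat.lt_floor_add_one z.1
        linarith
    have e2 : |z.2 - ((⌊z.2⌋₊ : ℕ) : ℝ)| < 1 := by
      rw [abs_lt]
      constructor
      · have := Nat.floor_le h2
        linarith
      · have := Nat.lt_floor_add_one z.2
        linarith
    have hn : Near E (⌊z.1⌋₊, ⌊z.2⌋₊) := ⟨z, hz, e1, e2⟩
    by_cases hb : ((⌊z.1⌋₊, ⌊z.2⌋₊) : ℕ × ℕ) ∈ B
    · left
      simp only [hU1, Set.mem_iUnion]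
      exact ⟨_, ⟨hb, hn⟩, e1, e2⟩
    · right
      simp only [hU2, Set.mem_iUnion]
      exact ⟨_, ⟨hb, hn⟩, e1, e2⟩
  have hm1 : (E ∩ U1).Nonempty := by
    obtain ⟨p, hp, z, hz, h1, h2⟩ := hB
    refine ⟨z, hz, ?_⟩
    simp only [hU1, Set.mem_iUnion]
    exact ⟨p, ⟨hp, z, hz, h1, h2⟩, h1, h2⟩
  have hm2 : (E ∩ U2).Nonempty := by
    obtain ⟨p, hp, z, hz, h1, h2⟩ := hB'
    refine ⟨z, hz, ?_⟩
    simp only [hU2, Set.mem_iUnion]
    exact ⟨p, ⟨hp, z, hz, h1, h2⟩, h1, h2⟩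
  obtain ⟨z, hz, hz1, hz2⟩ := hE U1 U2 ho1 ho2 hcov hm1 hm2
  simp only [hU1, Set.mem_iUnion] at hz1
  simp only [hU2, Set.mem_iUnion] at hz2
  obtain ⟨p, ⟨hpB, hpN⟩, hp1, hp2⟩ := hz1
  obtain ⟨q, ⟨hqB, hqN⟩, hq1, hq2⟩ := hz2
  have close : ∀ a b : ℕ, ∀ x : ℝ, |x - (a : ℝ)| < 1 → |x - (b : ℝ)| < 1 →
      a = b ∨ b = a + 1 ∨ a = b + 1 := by
    intro a b x ha hb
    rw [abs_lt] at ha hb
    have h1 : (a : ℝ) < b + 2 := by linarith [ha.1, ha.2, hb.1, hb.2]
    have h2 : (b : ℝ) < a + 2 := by linarith [ha.1, ha.2, hb.1, hb.2]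
    have h3 : a < b + 2 := by exact_mod_cast h1
    have h4 : b < a + 2 := by exact_mod_cast h2
    omega
  by_cases hr : ((q.1, p.2) : ℕ × ℕ) ∈ B
  · refine ⟨(q.1, p.2), q, hr, hqB, ⟨z, hz, hq1, hp2⟩, hqN, ?_⟩
    rcases close p.2 q.2 z.2 hp2 hq2 with h | h | h
    · exfalso
      apply hqB
      have : q = (q.1, p.2) := Prod.ext rfl h.symm
      rw [this]
      exact hr
    · right
      left
      exact Prod.ext rfl h
    · right
      right
      right
      exact Prod.ext rfl h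
  · refine ⟨p, (q.1, p.2), hpB, hr, hpN, ⟨z, hz, hq1, hp2⟩, ?_⟩
    rcases close p.1 q.1 z.1 hp1 hq1 with h | h | h
    · exfalso
      apply hr
      have : p = (q.1, p.2) := Prod.ext h rfl
      rw [← this]
      exact hpB
    · left
      exact Prod.ext h rfl
    · right
      right
      left
      exact Prod.ext h rfl

end Pool.MP627f83
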