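import Pool.Agent.Lib.MP_627f83_co.Defs
import Pool.Agent.Lib.MP_627f83_co.CovA
import Pool.Agent.Lib.MP_627f83_co.GeoA
import Pool.Agent.Lib.MP_627f83_co.GeoB
import Pool.Agent.Lib.MP_627f83_co.Lat
import Pool.Agent.Lib.MP_627f83_co.CylD
import Pool.Agent.Lib.MP_627f83_co.ConnA

/-!
# ModEx: a k-matching-planar drawing gives a model

`N`, `pt'`, `arc'` from `scaled`; sphere from `exists_sphere N`. Items `ι = V ⊕ {e // e ∈ G.edgeSet}` (or `V ⊕ Sym2 V` restricted to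
edges). `h v = g (⌊pt' v .1⌋₊, ⌊pt' v .2⌋₊)`. Item `inl v`: ends `{v}`, cells `{h v}`, cov `{v}`. Item `inr e`: ends = the two vertices,
cells = image under `g` of the lattice points `p` with `p.1, p.2 ≤ N` and `Near (arc' e) p` (near points automatically have
coordinates `≤ N` because the arc is in `[1, N-1]²`), cov = the set of `cover_exists`.
* `cells_conn`: `lattice_conn` and the adjacencies of `g`.
* `h_mem`: the point `pt' v` is at distance `< 1` from its floor.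
* `hit`: two items that share a cell share a lattice point (injectivity of `g` on the box), so there are points of the two
  sets at sup-distance `< 2`: edge/edge: the arcs in `D` meet, `cover_exists`; edge/vertex: `v ∈ e`; vertex/vertex: `v = w`.
* `cov_card`: `1 ≤ 2k+2`.
-/

namespace Pool.MP627f83

open Finset
open scoped Classical

theorem modEx_dist {p q : ℝ × ℝ} {a b : ℝ} (h1 : |p.1 - a| < 1) (h2 : |p.2 - b| < 1)
    (h3 : |q.1 - a| < 1) (h4 : |q.2 - b| < 1) : dist p q < 2 := by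
  rw [Prod.dist_eq, max_lt_iff, Real.dist_eq, Real.dist_eq]
  rw [abs_lt] at h1 h2 h3 h4
  constructor <;> rw [abs_lt] <;> constructor <;> linarith [h1.1, h1.2, h2.1, h2.2, h3.1, h3.2, h4.1, h4.2]

theorem modEx_floor {x : ℝ} (hx : 0 ≤ x) : |x - ((⌊x⌋₊ : ℕ) : ℝ)| < 1 := by
  have h1 := Nat.floor_le hx
  have h2 := Nat.lt_floor_add_one x
  rw [abs_lt]
  constructor <;> linarith

theorem modEx_floor_le {x : ℝ} {N : ℕ} (hx : 0 ≤ x) (h : x ≤ (N : ℝ) - 1) : ⌊x⌋₊ ≤ N := by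
  have h1 := Nat.floor_le hx
  have h2 : ((⌊x⌋₊ : ℕ) : ℝ) ≤ (N : ℝ) := by linarith
  exact_mod_cast h2

theorem modEx_near_le {E : Set (ℝ × ℝ)} {N : ℕ}
    (h : ∀ p ∈ E, 1 ≤ p.1 ∧ p.1 ≤ (N : ℝ) - 1 ∧ 1 ≤ p.2 ∧ p.2 ≤ (N : ℝ) - 1) {p : ℕ × ℕ}
    (hp : Near E p) : p.1 ≤ N ∧ p.2 ≤ N := by
  obtain ⟨z, hz, h1, h2⟩ := hp
  obtain ⟨_, h3, _, h4⟩ := h z hz
  rw [abs_lt] at h1 h2
  constructor
  · have : (p.1 : ℝ) < (N : ℝ) := by linarith [h1.1]
    exact le_of_lt (by exact_mod_cast this)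
  · have : (p.2 : ℝ) < (N : ℝ) := by linarith [h2.1]
    exact le_of_lt (by exact_mod_cast this)

theorem model_exists {V : Type} [Fintype V] [DecidableEq V] (k : ℕ) (G : SimpleGraph V)
    (hG : KMatchingPlanar k G) :
    ∃ (C ι : Type) (_ : Fintype C) (_ : DecidableEq C) (m : Model V C ι),
      m.G = G ∧ m.s = 2 * k + 2 := by
  obtain ⟨D, hD⟩ := hG
  obtain ⟨N, pt', arc', ha1, ha2, ha3, ha4, ha5, ha6, ha7⟩ := scaled D
  obtain ⟨C, fC, dC, Z, o, g, hroot, ginj, gno, gh, gv⟩ := exists_sphere N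
  have hcov : ∀ e : {e : Sym2 V // e ∈ G.edgeSet}, ∃ S : Finset V, S.card ≤ 2 * k + 2 ∧
      (∀ v ∈ e.1, v ∈ S) ∧
      ∀ f ∈ G.edgeSet, (∃ p, p ∈ D.arc e.1 ∧ p ∈ D.arc f) → ∃ v ∈ f, v ∈ S :=
    fun e => cover_exists D hD e.2
  choose S hS1 hS2 hS3 using hcov
  let la : V → ℕ × ℕ := fun v => (⌊(pt' v).1⌋₊, ⌊(pt' v).2⌋₊)
  have hla : ∀ v, (la v).1 ≤ N ∧ (la v).2 ≤ N := by
    intro v
    obtain ⟨h1, h2, h3, h4⟩ := ha7 v
    exact ⟨modEx_floor_le (by linarith) h2, modEx_floor_le (by linarith) h4⟩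
  have hfl : ∀ v, |(pt' v).1 - ((la v).1 : ℝ)| < 1 ∧ |(pt' v).2 - ((la v).2 : ℝ)| < 1 := by
    intro v
    obtain ⟨h1, h2, h3, h4⟩ := ha7 v
    exact ⟨modEx_floor (by linarith), modEx_floor (by linarith)⟩
  let cl : {e : Sym2 V // e ∈ G.edgeSet} → Finset C := fun e =>
    ((range (N + 1) ×ˢ range (N + 1)).filter (fun p => Near (arc' e.1) p)).image g
  have hcl : ∀ (e : {e : Sym2 V // e ∈ G.edgeSet}) (c : C), c ∈ cl e ↔
      ∃ p : ℕ × ℕ, Near (arc' e.1) p ∧ p.1 ≤ N ∧ p.2 ≤ N ∧ g p = c := by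
    intro e c
    simp only [cl, mem_image, mem_filter, mem_product, mem_range]
    constructor
    · rintro ⟨p, ⟨⟨h1, h2⟩, h3⟩, h4⟩
      exact ⟨p, h3, by omega, by omega, h4⟩
    · rintro ⟨p, h3, h1, h2, h4⟩
      exact ⟨p, ⟨⟨by omega, by omega⟩, h3⟩, h4⟩
  have hvcl : ∀ (e : {e : Sym2 V // e ∈ G.edgeSet}) (v : V), v ∈ e.1 → g (la v) ∈ cl e := by
    intro e v hv
    rw [hcl]
    exact ⟨la v, ⟨pt' v, ha2 e.1 e.2 v hv, (hfl v).1, (hfl v).2⟩, (hla v).1, (hla v).2, rfl⟩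
  have hadj : ∀ p q : ℕ × ℕ, p.1 ≤ N → p.2 ≤ N → q.1 ≤ N → q.2 ≤ N → GridAdj p q →
      Z.Adj (g p) (g q) := by
    rintro ⟨a, b⟩ ⟨c, d⟩ h1 h2 h3 h4 h
    simp only at h1 h2 h3 h4
    rcases h with h | h | h | h
    · simp only [Prod.mk.injEq] at h
      obtain ⟨rfl, rfl⟩ := h
      exact gh a d h3 h4
    · simp only [Prod.mk.injEq] at h
      obtain ⟨rfl, rfl⟩ := h
      exact gv c b h3 h4
    · simp only [Prod.mk.injEq] at h
      obtain ⟨rfl, rfl⟩ := h
      exact adj_symm Z (gh c b h1 h2)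
    · simp only [Prod.mk.injEq] at h
      obtain ⟨rfl, rfl⟩ := h
      exact adj_symm Z (gv a d h1 h2)
  have hconn : ∀ e : {e : Sym2 V // e ∈ G.edgeSet}, Z.Conn (cl e) := by
    intro e
    constructor
    · obtain ⟨e, he⟩ := e
      induction e using Sym2.ind with
      | _ u v => exact ⟨_, hvcl ⟨s(u, v), he⟩ u (Sym2.mem_mk_left u v)⟩
    · intro B hB hBne hBne'
      have hex : ∃ c ∈ cl e, c ∉ B := by
        by_contra hcon
        push Not at hcon
        exact hBne' (Subset.antisymm hB hcon)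
      obtain ⟨b, hb⟩ := hBne
      obtain ⟨c, hc, hcB⟩ := hex
      obtain ⟨p0, hp0, hp1, hp2, hp3⟩ := (hcl e b).1 (hB hb)
      obtain ⟨q0, hq0, hq1, hq2, hq3⟩ := (hcl e c).1 hc
      obtain ⟨p, q, hp, hq, hnp, hnq, hpq⟩ := lattice_conn (arc' e.1) (ha1 e.1 e.2)
        (fun z hz => by
          obtain ⟨h1, _, h2, _⟩ := ha6 e.1 e.2 z hz
          exact ⟨by linarith, by linarith⟩)
        {p | p.1 ≤ N ∧ p.2 ≤ N ∧ g p ∈ B}
        ⟨p0, ⟨hp1, hp2, by rw [hp3]; exact hb⟩, hp0⟩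
        ⟨q0, fun h => hcB (by rw [← hq3]; exact h.2.2), hq0⟩
      obtain ⟨hpN1, hpN2⟩ := modEx_near_le (ha6 e.1 e.2) hnp
      obtain ⟨hqN1, hqN2⟩ := modEx_near_le (ha6 e.1 e.2) hnq
      refine ⟨g p, hp.2.2, g q, (hcl e _).2 ⟨q, hnq, hqN1, hqN2, rfl⟩, ?_, ?_⟩
      · intro hqB
        exact hq ⟨hqN1, hqN2, hqB⟩
      · exact hadj p q hpN1 hpN2 hqN1 hqN2 hpq
  have hve : ∀ (v : V) (e : {e : Sym2 V // e ∈ G.edgeSet}), g (la v) ∈ cl e → v ∈ e.1 := by
    intro v e h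
    obtain ⟨p, hp, hp1, hp2, hp3⟩ := (hcl e _).1 h
    have hpe := ginj p (la v) hp1 hp2 (hla v).1 (hla v).2 hp3
    obtain ⟨z, hz, hz1, hz2⟩ := hp
    subst hpe
    exact ha4 e.1 e.2 v ⟨z, hz, modEx_dist hz1 hz2 (hfl v).1 (hfl v).2⟩
  refine ⟨C, V ⊕ {e : Sym2 V // e ∈ G.edgeSet}, fC, dC,
    { Z := Z
      o := o
      G := G
      s := 2 * k + 2
      h := fun v => g (la v)
      ends := fun κ => match κ with
        | Sum.inl v => {v}
        | Sum.inr e => univ.filter (fun v => v ∈ e.1)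
      cells := fun κ => match κ with
        | Sum.inl v => {g (la v)}
        | Sum.inr e => cl e
      cov := fun κ => match κ with
        | Sum.inl v => {v}
        | Sum.inr e => S e
      cells_conn := ?_
      h_mem := ?_
      hit := ?_
      cov_card := ?_
      vtx := ?_
      edge := ?_
      o_not := ?_
      root_conn := hroot }, rfl, rfl⟩
  · rintro (v | e)
    · exact conn_singleton Z _
    · exact hconn e
  · rintro (v | e) w hw
    · simp only [mem_singleton] at hw ⊢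
      rw [hw]
    · simp only [mem_filter, mem_univ, true_and] at hw
      exact hvcl e w hw
  · rintro (v | e) (w | f) ⟨c, hc1, hc2⟩
    · simp only [mem_singleton] at hc1 hc2
      refine ⟨v, mem_singleton_self v, ?_⟩
      have h1 := ginj (la v) (la w) (hla v).1 (hla v).2 (hla w).1 (hla w).2 (hc1.symm.trans hc2)
      have h2 : v = w := by
        apply ha5
        have h3 := hfl v
        rw [h1] at h3
        exact modEx_dist h3.1 h3.2 (hfl w).1 (hfl w).2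
      rw [h2]
      exact mem_singleton_self w
    · simp only [mem_singleton] at hc1
      refine ⟨v, mem_singleton_self v, ?_⟩
      rw [hc1] at hc2
      exact hS2 f v (hve v f hc2)
    · simp only [mem_singleton] at hc2
      rw [hc2] at hc1
      refine ⟨w, ?_, mem_singleton_self w⟩
      simp only [mem_filter, mem_univ, true_and]
      exact hve w e hc1
    · obtain ⟨p, hp, hp1, hp2, hp3⟩ := (hcl e c).1 hc1
      obtain ⟨q, hq, hq1, hq2, hq3⟩ := (hcl f c).1 hc2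
      have hpq := ginj p q hp1 hp2 hq1 hq2 (hp3.trans hq3.symm)
      subst hpq
      obtain ⟨z, hz, hz1, hz2⟩ := hp
      obtain ⟨z', hz', hz1', hz2'⟩ := hq
      obtain ⟨x, hx1, hx2⟩ := ha3 e.1 e.2 f.1 f.2 ⟨z, hz, z', hz', modEx_dist hz1 hz2 hz1' hz2'⟩
      obtain ⟨v, hv1, hv2⟩ := hS3 f e.1 e.2 ⟨x, hx2, hx1⟩
      exact ⟨v, by simp only [mem_filter, mem_univ, true_and]; exact hv1, hv2⟩
  · rintro (v | e)
    · simp only [card_singleton]
      omega
    · exact hS1 e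
  · intro v
    exact ⟨Sum.inl v, rfl, rfl⟩
  · intro v w hvw
    refine ⟨Sum.inr ⟨s(v, w), hvw⟩, ?_⟩
    ext x
    simp only [mem_filter, mem_univ, true_and, Sym2.mem_iff, mem_insert, mem_singleton]
  · rintro (v | e) ho
    · simp only [mem_singleton] at ho
      exact gno (la v) (hla v).1 (hla v).2 ho.symm
    · obtain ⟨p, _, hp1, hp2, hp3⟩ := (hcl e o).1 ho
      exact gno p hp1 hp2 hp3

end Pool.MP627f83
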