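import Pool.Agent.Lib.MP_627f83_co.Defs
import Pool.Agent.Lib.MP_627f83_co.FinA
import Pool.Agent.Lib.MP_627f83_co.ModEx
import Pool.Agent.Lib.MP_627f83_co.RI

/-!
# FinB: the theorem

`TreewidthLE` and `RowTreewidthLE` are monotone in the bound. `s = 2 k + 2`, numerics:
`(20 + 216 s) * (s * layB s) ≤ 11000000 * (k+1)^5`.
-/

namespace Pool.MP627f83

open Finset
open scoped Classical

theorem treewidthLE_mono {W : Type} {H : SimpleGraph W} {a b : ℕ} (hab : a ≤ b)
    (h : TreewidthLE H a) : TreewidthLE H b := by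
  obtain ⟨ι, hf, T, bag, h1, h2, h3, h4, h5⟩ := h
  exact ⟨ι, hf, T, bag, h1, h2, h3, h4, fun i => (h5 i).trans (by omega)⟩

theorem rowTreewidthLE_mono {V : Type} {G : SimpleGraph V} {a b : ℕ} (hab : a ≤ b)
    (h : RowTreewidthLE G a) : RowTreewidthLE G b := by
  obtain ⟨W, hf, H, n, h1, h2⟩ := h
  exact ⟨W, hf, H, n, treewidthLE_mono hab h1, h2⟩

theorem FinB_num (k : ℕ) :
    (20 + 216 * (2 * k + 2)) * ((2 * k + 2) * layB (2 * k + 2)) ≤ 11000000 * (k + 1) ^ 5 := by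
  unfold layB
  have h2 : 0 ≤ k ^ 2 := Nat.zero_le _
  have h3 : 0 ≤ k ^ 3 := Nat.zero_le _
  have h4 : 0 ≤ k ^ 4 := Nat.zero_le _
  have h5 : 0 ≤ k ^ 5 := Nat.zero_le _
  ring_nf
  linarith

theorem row_treewidth_bound {V : Type} [Finite V] (k : ℕ) (G : SimpleGraph V)
    (hG : KMatchingPlanar k G) : RowTreewidthLE G (11000000 * (k + 1) ^ 5) := by
  classical
  have := Fintype.ofFinite V
  obtain ⟨C, ι, i1, i2, m, hm, hs⟩ := model_exists k G hG
  have h := row_of_model m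
  rw [hm, hs] at h
  exact rowTreewidthLE_mono (FinB_num k) h

end Pool.MP627f83
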