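import Mathlib

/-!
# MP_627f83_co: the notions of the problem

Drawings of graphs in the plane by simple arcs, crossings, `k`-matching-planar graphs, tree
decompositions, the strong product and row treewidth.
-/

namespace Pool.MP627f83

/-! ## The problem -/

/-- `A` is a simple arc in the plane with endpoints `x` and `y`. -/
def IsArc (A : Set (ℝ × ℝ)) (x y : ℝ × ℝ) : Prop :=
  ∃ γ : unitInterval → ℝ × ℝ, Continuous γ ∧ Function.Injective γ ∧ Set.range γ = A ∧
    γ 0 = x ∧ γ 1 = y

/-- A drawing of `G` in the plane (a topological graph): vertices are distinct points, every edge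
is a simple arc that joins its two endpoints and contains no other vertex. -/
structure Drawing {V : Type} (G : SimpleGraph V) where
  /-- the point of a vertex -/
  pt : V → ℝ × ℝ
  pt_inj : Function.Injective pt
  /-- the arc of an edge -/
  arc : Sym2 V → Set (ℝ × ℝ)
  arc_spec : ∀ u v, G.Adj u v → IsArc (arc s(u, v)) (pt u) (pt v)
  arc_avoid : ∀ u v w, G.Adj u v → pt w ∈ arc s(u, v) → w = u ∨ w = v

/-- The distinct edges `e` and `f` cross: they have a common point which is not a shared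
endpoint. -/
def Drawing.Cross {V : Type} {G : SimpleGraph V} (D : Drawing G) (e f : Sym2 V) : Prop :=
  e ≠ f ∧ ∃ p, p ∈ D.arc e ∧ p ∈ D.arc f ∧ ∀ v, v ∈ e → v ∈ f → p ≠ D.pt v

/-- The drawing is `k`-matching-planar: for every edge `e`, no matching of `k+1` edges consists of
edges that cross `e`. -/
def Drawing.MatchingPlanar {V : Type} {G : SimpleGraph V} (D : Drawing G) (k : ℕ) : Prop :=
  ∀ e ∈ G.edgeSet, ∀ M : Finset (Sym2 V),
    (∀ f ∈ M, f ∈ G.edgeSet ∧ D.Cross e f) →
    (∀ f ∈ M, ∀ g ∈ M, f ≠ g → ∀ v, v ∈ f → v ∉ g) → M.card ≤ k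

/-- `G` is a `k`-matching-planar graph. -/
def KMatchingPlanar {V : Type} (k : ℕ) (G : SimpleGraph V) : Prop :=
  ∃ D : Drawing G, D.MatchingPlanar k

/-- `H` has a tree decomposition (over a finite tree) of width at most `w`. -/
def TreewidthLE {W : Type} (H : SimpleGraph W) (w : ℕ) : Prop :=
  ∃ (ι : Type) (_ : Finite ι) (T : SimpleGraph ι) (bag : ι → Finset W),
    T.IsTree ∧ (∀ x, ∃ i, x ∈ bag i) ∧
    (∀ x y, H.Adj x y → ∃ i, x ∈ bag i ∧ y ∈ bag i) ∧
    (∀ x, (T.induce {i | x ∈ bag i}).Connected) ∧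
    ∀ i, (bag i).card ≤ w + 1

/-- The strong product of two graphs. -/
def strongProd {A B : Type} (H : SimpleGraph A) (P : SimpleGraph B) : SimpleGraph (A × B) where
  Adj x y := x ≠ y ∧ (x.1 = y.1 ∨ H.Adj x.1 y.1) ∧ (x.2 = y.2 ∨ P.Adj x.2 y.2)
  symm := ⟨by
    rintro x y ⟨h1, h2, h3⟩
    exact ⟨h1.symm, h2.imp Eq.symm SimpleGraph.Adj.symm, h3.imp Eq.symm SimpleGraph.Adj.symm⟩⟩
  loopless := ⟨fun x h => h.1 rfl⟩

/-- `G` has row treewidth at most `w`: it is isomorphic to a subgraph of `H ⊠ P` for a finite graph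
`H` of treewidth at most `w` and a path `P`. -/
def RowTreewidthLE {V : Type} (G : SimpleGraph V) (w : ℕ) : Prop :=
  ∃ (W : Type) (_ : Finite W) (H : SimpleGraph W) (n : ℕ),
    TreewidthLE H w ∧ ∃ f : V → W × Fin n, Function.Injective f ∧
      ∀ u v, G.Adj u v → (strongProd H (SimpleGraph.pathGraph n)).Adj (f u) (f v)

end Pool.MP627f83
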